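import Mathlib

/-!
# Derivations of multilinear maps
-/

set_option autoImplicit false
set_option linter.unusedSectionVars false

namespace Pool.Agent.T6.H17.LW

open Module Finset Function

variable {K : Type} [Field K] {S : Type} [Fintype S] [DecidableEq S] {T : S → Type}
  [∀ s, AddCommGroup (T s)] [∀ s, Module K (T s)] {M : Type} [AddCommGroup M] [Module K M]

/-- the sum of the `h (…, Y (v j), …)` -/
noncomputable def der (Y : ∀ s, End K (T s)) (h : MultilinearMap K T M) : MultilinearMap K T M :=
  ∑ j, h.compLinearMap fun i => if i = j then Y i else LinearMap.id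

theorem der_apply (Y : ∀ s, End K (T s)) (h : MultilinearMap K T M) (v : ∀ s, T s) :
    der Y h v = ∑ j, h (update v j (Y j (v j))) := by
  rw [der, _root_.sum_apply]
  refine sum_congr rfl fun j _ => ?_
  rw [MultilinearMap.compLinearMap_apply]
  congr 1
  funext i
  by_cases hi : i = j
  · subst hi
    rw [if_pos rfl, update_self]
  · rw [if_neg hi, update_of_ne hi, LinearMap.id_apply]

theorem der_add (Y Y' : ∀ s, End K (T s)) (h : MultilinearMap K T M) :
    der (Y + Y') h = der Y h + der Y' h := by
  ext v
  rw [MultilinearMap.add_apply, der_apply, der_apply, der_apply, ← Finset.sum_add_distrib]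
  refine Finset.sum_congr rfl fun j _ => ?_
  rw [Pi.add_apply, LinearMap.add_apply, MultilinearMap.map_update_add]

theorem der_smul (c : K) (Y : ∀ s, End K (T s)) (h : MultilinearMap K T M) :
    der (c • Y) h = c • der Y h := by
  ext v
  rw [MultilinearMap.smul_apply, der_apply, der_apply, Finset.smul_sum]
  refine Finset.sum_congr rfl fun j _ => ?_
  rw [Pi.smul_apply, LinearMap.smul_apply, MultilinearMap.map_update_smul]

theorem der_comp (Y : ∀ s, End K (T s)) (Z : M →ₗ[K] M) (h : MultilinearMap K T M) :
    der Y (Z.compMultilinearMap h) = Z.compMultilinearMap (der Y h) := by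
  ext v
  rw [der_apply, LinearMap.compMultilinearMap_apply, der_apply, map_sum]
  rfl

theorem der_der (Y Z : ∀ s, End K (T s)) (h : MultilinearMap K T M) (v : ∀ s, T s) :
    der Y (der Z h) v = (∑ i, h (update v i (Z i (Y i (v i))))) +
      ∑ i, ∑ j ∈ univ.erase i, h (update (update v i (Y i (v i))) j (Z j (v j))) := by
  rw [der_apply, ← Finset.sum_add_distrib]
  refine Finset.sum_congr rfl fun i _ => ?_
  rw [der_apply, ← Finset.add_sum_erase _ _ (Finset.mem_univ i), update_self, update_idem]
  congr 1
  refine Finset.sum_congr rfl fun j hj => ?_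
  rw [update_of_ne (Finset.ne_of_mem_erase hj)]

theorem der_bracket (Y Z : ∀ s, End K (T s)) (h : MultilinearMap K T M) :
    der Z (der Y h) - der Y (der Z h) = der (fun s => Y s * Z s - Z s * Y s) h := by
  ext v
  rw [MultilinearMap.sub_apply, der_der, der_der, der_apply]
  have h3 : ∑ i, ∑ j ∈ univ.erase i, h (update (update v i (Z i (v i))) j (Y j (v j))) =
      ∑ i, ∑ j ∈ univ.erase i, h (update (update v i (Y i (v i))) j (Z j (v j))) := by
    rw [Finset.sum_comm' (s' := fun j => univ.erase j) (t' := univ) (by
      intro x y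
      simp only [Finset.mem_univ, Finset.mem_erase, ne_eq, and_true, true_and]
      exact ⟨fun h h' => h h'.symm, fun h h' => h h'.symm⟩)]
    refine Finset.sum_congr rfl fun j _ => Finset.sum_congr rfl fun i hi => ?_
    rw [update_comm (Finset.ne_of_mem_erase hi)]
  rw [h3, add_sub_add_right_eq_sub, ← Finset.sum_sub_distrib]
  refine Finset.sum_congr rfl fun j _ => ?_
  rw [LinearMap.sub_apply, MultilinearMap.map_update_sub]
  rfl

end Pool.Agent.T6.H17.LW
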