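import Mathlib

/-!
# Auxiliary results: generalized eigenspaces, additive functions, rank two operators

Copied from the library files `TH118/SG/Jor`, `TH118/SG/Deriv`, `TH118/CR/Torus` and `H204R3/SP/Full`.
-/

set_option linter.unusedSectionVars false

namespace Pool.Agent.T6.H17.LW

open Module Finset Function

section jor

variable {K : Type} [Field K] {T : Type} [AddCommGroup T] [Module K T] {E : Type}
  [AddCommGroup E] [Module K E]

theorem mem_gen {f : End K T} {α : K} {x : T} :
    x ∈ f.maxGenEigenspace α ↔ ∃ n : ℕ, ((f - algebraMap K (End K T) α) ^ n) x = 0 := by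
  rw [Module.End.mem_maxGenEigenspace]
  rfl

/-- Generalized eigenspaces of powers. -/
theorem gen_pow {f : End K T} {α : K} {x : T} (hx : x ∈ f.maxGenEigenspace α) (M : ℕ) :
    x ∈ (f ^ M).maxGenEigenspace (α ^ M) := by
  obtain ⟨n, hn⟩ := mem_gen.1 hx
  rw [mem_gen]
  refine ⟨n, ?_⟩
  have h1 : Commute f (algebraMap K (End K T) α) := (Algebra.commutes α f).symm
  obtain ⟨q, hq⟩ : ∃ q : End K T, f ^ M - algebraMap K (End K T) (α ^ M) =
      q * (f - algebraMap K (End K T) α) ∧ Commute q (f - algebraMap K (End K T) α) := by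
    refine ⟨∑ i ∈ range M, f ^ i * algebraMap K (End K T) α ^ (M - 1 - i), ?_, ?_⟩
    · rw [map_pow]
      exact (h1.geom_sum₂_mul M).symm
    · refine Commute.sum_left _ _ _ fun i _ => ?_
      have h2 : Commute f (f - algebraMap K (End K T) α) := (Commute.refl f).sub_right h1
      have h3 : Commute (algebraMap K (End K T) α) (f - algebraMap K (End K T) α) :=
        Algebra.commutes α _
      exact (h2.pow_left i).mul_left (h3.pow_left _)
  rw [hq.1, hq.2.mul_pow, Module.End.mul_apply, hn, map_zero]

section ops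

variable [IsAlgClosed K]

open scoped Classical in
theorem gen_internal [FiniteDimensional K E] (f : End K E) :
    DirectSum.IsInternal fun β : K => f.maxGenEigenspace β := by
  exact DirectSum.isInternal_submodule_of_iSupIndep_of_iSup_eq_top
    (Module.End.independent_maxGenEigenspace f) (Module.End.iSup_maxGenEigenspace_eq_top f)

/-- The operator which is the scalar `t β` on the generalized eigenspace for `β`. -/
theorem exists_op [FiniteDimensional K E] (f : End K E) (t : K → K) :
    ∃ Y : End K E, ∀ β, ∀ x ∈ f.maxGenEigenspace β, Y x = t β • x := by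
  classical
  let e := LinearEquiv.ofBijective (DirectSum.coeLinearMap fun β : K => f.maxGenEigenspace β)
    (gen_internal f)
  let D : (DirectSum K fun β => f.maxGenEigenspace β) →ₗ[K] E :=
    DirectSum.toModule K K E fun β => t β • (f.maxGenEigenspace β).subtype
  refine ⟨D ∘ₗ e.symm.toLinearMap, fun β x hx => ?_⟩
  have h1 : e.symm x = DirectSum.lof K K (fun β => f.maxGenEigenspace β) β ⟨x, hx⟩ := by
    rw [LinearEquiv.symm_apply_eq]
    change x = DirectSum.coeLinearMap (fun β : K => f.maxGenEigenspace β) _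
    rw [DirectSum.coeLinearMap_lof]
  rw [LinearMap.comp_apply, LinearEquiv.coe_coe, h1, DirectSum.toModule_lof, LinearMap.smul_apply]
  rfl

/-- Two operators which agree on the generalized eigenspaces are equal. -/
theorem op_ext [FiniteDimensional K E] (f : End K E) {Y Z : End K E}
    (h : ∀ β, ∀ x ∈ f.maxGenEigenspace β, Y x = Z x) : Y = Z := by
  apply LinearMap.ext
  intro x
  have hx : x ∈ ⨆ β, f.maxGenEigenspace β := by
    rw [Module.End.iSup_maxGenEigenspace_eq_top f]
    exact Submodule.mem_top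
  induction hx using Submodule.iSup_induction' with
  | mem β x hx => exact h β x hx
  | zero => rw [map_zero, map_zero]
  | add x y _ _ hx hy => rw [map_add, map_add, hx, hy]

end ops

end jor

section ext

variable {K : Type} [Field K] [CharZero K] [IsAlgClosed K] {E : Type} [AddCommGroup E] [Module K E]
  [FiniteDimensional K E]

/-- An additive function on the multiplicative group, extended by zero. -/
noncomputable def ext0 (θ : Additive Kˣ →+ K) (α : K) : K := by
  classical
  exact if h : α = 0 then 0 else θ (Additive.ofMul (Units.mk0 α h))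

theorem ext0_zero (θ : Additive Kˣ →+ K) : ext0 θ 0 = 0 := by
  rw [ext0, dif_pos rfl]

theorem ext0_ne (θ : Additive Kˣ →+ K) {α : K} (h : α ≠ 0) :
    ext0 θ α = θ (Additive.ofMul (Units.mk0 α h)) := by
  rw [ext0, dif_neg h]

theorem ext0_mul (θ : Additive Kˣ →+ K) {α β : K} (hα : α ≠ 0) (hβ : β ≠ 0) :
    ext0 θ (α * β) = ext0 θ α + ext0 θ β := by
  rw [ext0_ne θ hα, ext0_ne θ hβ, ext0_ne θ (mul_ne_zero hα hβ), ← map_add, ← ofMul_mul]
  congr 2
  exact Units.ext rfl

theorem ext0_one (θ : Additive Kˣ →+ K) : ext0 θ 1 = 0 := by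
  have h := ext0_mul θ (one_ne_zero (α := K)) one_ne_zero
  rw [mul_one] at h
  linear_combination -h

theorem ext0_prod (θ : Additive Kˣ →+ K) {S : Type} (s : Finset S) (a : S → K)
    (ha : ∀ j ∈ s, a j ≠ 0) : ext0 θ (∏ j ∈ s, a j) = ∑ j ∈ s, ext0 θ (a j) := by
  classical
  induction s using Finset.induction_on with
  | empty => rw [prod_empty, sum_empty, ext0_one]
  | insert j s hj ih =>
    rw [prod_insert hj, sum_insert hj, ext0_mul θ (ha j (mem_insert_self _ _))
      (prod_ne_zero_iff.2 fun i hi => ha i (mem_insert_of_mem hi)),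
      ih fun i hi => ha i (mem_insert_of_mem hi)]

theorem ext0_pow (θ : Additive Kˣ →+ K) (α : K) {M : ℕ} (hM : 0 < M) :
    ext0 θ (α ^ M) = M * ext0 θ α := by
  by_cases h : α = 0
  · rw [h, zero_pow hM.ne', ext0_zero, mul_zero]
  · have h1 := ext0_prod θ (univ : Finset (Fin M)) (fun _ => α) fun _ _ => h
    rw [prod_const, sum_const, card_univ, Fintype.card_fin, nsmul_eq_mul] at h1
    exact h1

/-- The operators for the powers. -/
theorem op_pow (θ : Additive Kˣ →+ K) (f : End K E) {Y : End K E}
    (hY : ∀ β, ∀ x ∈ f.maxGenEigenspace β, Y x = ext0 θ β • x) {M : ℕ} (hM : 0 < M) :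
    ∀ c, ∀ x ∈ (f ^ M).maxGenEigenspace c, Y x = (ext0 θ c / M) • x := by
  obtain ⟨Y', hY'⟩ := exists_op (f ^ M) fun c => ext0 θ c / M
  have h1 : Y = Y' := by
    refine op_ext f fun β x hx => ?_
    rw [hY β x hx, hY' _ x (gen_pow hx M), ext0_pow θ β hM]
    congr 1
    have h2 : (M : K) ≠ 0 := Nat.cast_ne_zero.2 hM.ne'
    field_simp
  rw [h1]
  exact hY'

end ext

/-- An additive functional on the multiplicative group that does not vanish on an element of
infinite order. -/
theorem exists_add {K : Type} [Field K] [CharZero K] (x : Kˣ) (hx : ∀ k : ℕ, 0 < k → x ^ k ≠ 1) :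
    ∃ a : Additive Kˣ →+ K, a (Additive.ofMul x) ≠ 0 := by
  have hB : Module.Baer ℤ K := Module.Baer.of_divisible K
  let f : ℤ →ₗ[ℤ] Additive Kˣ := LinearMap.toSpanSingleton ℤ (Additive Kˣ) (Additive.ofMul x)
  have hf : Function.Injective f := by
    rw [injective_iff_map_eq_zero]
    intro n hn
    have h1 : x ^ n = 1 := by
      have h2 : f n = Additive.ofMul (x ^ n) := by
        rw [ofMul_zpow]
        rfl
      rw [h2] at hn
      exact hn
    by_contra h0
    have h3 : x ^ n.natAbs = 1 := by
      rcases Int.natAbs_eq n with h | h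
      · rw [h, zpow_natCast] at h1
        exact h1
      · rw [h, zpow_neg, zpow_natCast, inv_eq_one] at h1
        exact h1
    exact hx _ (Int.natAbs_pos.2 h0) h3
  obtain ⟨h, hh⟩ := Module.Baer.extension_property hB f hf (LinearMap.toSpanSingleton ℤ K (1 : K))
  refine ⟨h.toAddMonoidHom, ?_⟩
  have h1 := congrArg (fun F : ℤ →ₗ[ℤ] K => F 1) hh
  have h2 : f 1 = Additive.ofMul x := one_smul _ _
  simp only [LinearMap.comp_apply, h2, LinearMap.toSpanSingleton_apply, one_smul] at h1
  change h (Additive.ofMul x) ≠ 0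
  rw [h1]
  exact one_ne_zero

section ss

variable {Ω : Type*} [Field Ω] {V : Type*} [AddCommGroup V] [Module Ω V]

/-- The endomorphism `v ↦ ω(u, v) w + ω(w, v) u`. -/
def SS (ω : V →ₗ[Ω] V →ₗ[Ω] Ω) (u w : V) : Module.End Ω V :=
  (ω u).smulRight w + (ω w).smulRight u

theorem SS_apply (ω : V →ₗ[Ω] V →ₗ[Ω] Ω) (u w v : V) :
    SS ω u w v = ω u v • w + ω w v • u := rfl

theorem SS_comm (ω : V →ₗ[Ω] V →ₗ[Ω] Ω) (u w : V) : SS ω u w = SS ω w u := by
  ext v
  rw [SS_apply, SS_apply, add_comm]

end ss

end Pool.Agent.T6.H17.LW
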