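import Mathlib
import Pool.Agent.T6.H17.LW.Base

/-!
# Multilinear maps in several spaces and generalized eigenspaces
-/

set_option autoImplicit false
set_option linter.unusedSectionVars false

namespace Pool.Agent.T6.H17.LW

open Module Finset Function

variable {K : Type} [Field K] {S : Type} [Fintype S] [DecidableEq S] {T : S → Type}
  [∀ s, AddCommGroup (T s)] [∀ s, Module K (T s)] {E : Type} [AddCommGroup E] [Module K E]

/-- The image of generalized eigenvectors. -/
theorem multi_gen_aux {g : ∀ s, End K (T s)} {g' : End K E} {h : MultilinearMap K T E}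
    (hg : ∀ v, h (fun j => g j (v j)) = g' (h v)) (a : S → K) : ∀ (n : ℕ) (v : ∀ s, T s) (m : S → ℕ),
    (∀ j, ((g j - algebraMap K (End K (T j)) (a j)) ^ m j) (v j) = 0) → ∑ j, m j ≤ n →
    ((g' - algebraMap K (End K E) (∏ j, a j)) ^ (n + 1)) (h v) = 0 := by
  intro n
  induction n with
  | zero =>
    intro v m hm hsum
    have h0 : ∀ j, v j = 0 := by
      intro j
      have h1 : m j = 0 := by
        have h2 := Finset.single_le_sum (f := m) (fun i _ => Nat.zero_le _) (Finset.mem_univ j)
        omega
      have h2 := hm j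
      rw [h1, pow_zero, Module.End.one_apply] at h2
      exact h2
    rw [zero_add, pow_one, LinearMap.sub_apply, ← hg, Module.algebraMap_end_apply]
    by_cases hS : Nonempty S
    · obtain ⟨j⟩ := hS
      rw [h.map_coord_zero j (by rw [h0, map_zero]), h.map_coord_zero j (h0 j), smul_zero, sub_zero]
    · have hS' : IsEmpty S := not_nonempty_iff.1 hS
      rw [Finset.univ_eq_empty, Finset.prod_empty, one_smul, sub_eq_zero]
      congr 1
      exact Subsingleton.elim _ _
  | succ n ih =>
    intro v m hm hsum
    have h1 : (g' - algebraMap K (End K E) (∏ j, a j)) (h v) =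
        ∑ s ∈ (univ : Finset (Finset S)).erase univ, h (s.piecewise (fun j => a j • v j)
          (fun j => (g j - algebraMap K (End K (T j)) (a j)) (v j))) := by
      have h2 : (fun j => g j (v j)) = (fun j => a j • v j) +
          fun j => (g j - algebraMap K (End K (T j)) (a j)) (v j) := by
        funext j
        rw [Pi.add_apply, LinearMap.sub_apply, Module.algebraMap_end_apply, add_sub_cancel]
      rw [LinearMap.sub_apply, ← hg, h2, h.map_add_univ, ← Finset.add_sum_erase _ _
        (Finset.mem_univ (univ : Finset S)), Finset.piecewise_univ, h.map_smul_univ,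
        Module.algebraMap_end_apply, add_sub_cancel_left]
    rw [pow_succ, Module.End.mul_apply, h1, map_sum]
    refine Finset.sum_eq_zero fun s hs => ?_
    have hsu : s ≠ univ := Finset.ne_of_mem_erase hs
    by_cases h0 : ∃ i, i ∉ s ∧ m i = 0
    · obtain ⟨i, hi, hmi⟩ := h0
      have h2 := hm i
      rw [hmi, pow_zero, Module.End.one_apply] at h2
      rw [h.map_coord_zero i (by rw [Finset.piecewise_eq_of_notMem _ _ _ hi, h2, map_zero]),
        map_zero]
    · push Not at h0
      refine ih _ (fun j => if j ∈ s then m j else m j - 1) (fun j => ?_) ?_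
      · by_cases hj : j ∈ s
        · rw [if_pos hj, Finset.piecewise_eq_of_mem _ _ _ hj, map_smul, hm j, smul_zero]
        · rw [if_neg hj, Finset.piecewise_eq_of_notMem _ _ _ hj, ← Module.End.mul_apply, ← pow_succ,
            Nat.sub_add_cancel (Nat.one_le_iff_ne_zero.2 (h0 j hj))]
          exact hm j
      · obtain ⟨i, hi⟩ : ∃ i, i ∉ s := by
          by_contra hcon
          push Not at hcon
          exact hsu (Finset.eq_univ_of_forall hcon)
        have h2 : ∑ j, (if j ∈ s then m j else m j - 1) < ∑ j, m j := by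
          refine Finset.sum_lt_sum (fun j _ => ?_) ⟨i, Finset.mem_univ i, ?_⟩
          · split_ifs <;> omega
          · have := h0 i hi
            rw [if_neg hi]
            omega
        omega

theorem multi_gen {g : ∀ s, End K (T s)} {g' : End K E} {h : MultilinearMap K T E}
    (hg : ∀ v, h (fun j => g j (v j)) = g' (h v)) (a : S → K) {v : ∀ s, T s}
    (hv : ∀ j, v j ∈ (g j).maxGenEigenspace (a j)) : h v ∈ g'.maxGenEigenspace (∏ j, a j) := by
  have h1 : ∀ j, ∃ n : ℕ, ((g j - algebraMap K (End K (T j)) (a j)) ^ n) (v j) = 0 := fun j =>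
    mem_gen.1 (hv j)
  choose m hm using h1
  exact mem_gen.2 ⟨_, multi_gen_aux hg a _ v m hm le_rfl⟩

/-- Two multilinear maps which agree on generalized eigenvectors are equal. -/
theorem multi_ext [IsAlgClosed K] [∀ s, FiniteDimensional K (T s)] (f : ∀ s, End K (T s))
    {h h' : MultilinearMap K T E}
    (hh : ∀ (a : S → K) (v : ∀ s, T s), (∀ j, v j ∈ (f j).maxGenEigenspace (a j)) → h v = h' v) :
    h = h' := by
  classical
  let b : ∀ j, ∀ β : K, Basis (Fin (finrank K ((f j).maxGenEigenspace β))) K
    ((f j).maxGenEigenspace β) := fun j β => Module.finBasis K _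
  let B := fun j => (gen_internal (f j)).collectedBasis (b j)
  have hB : ∀ j i, B j i ∈ (f j).maxGenEigenspace i.1 := fun j =>
    (gen_internal (f j)).collectedBasis_mem (b j)
  refine Module.Basis.ext_multilinear B fun r => ?_
  exact hh (fun j => (r j).1) _ fun j => hB j (r j)

section op

/-- The operator which is the scalar `t β` on the generalized eigenspace for `β`. -/
noncomputable def op (t : K → K) (f : End K E) : End K E := by
  classical
  exact if h : ∃ Y : End K E, ∀ β, ∀ x ∈ f.maxGenEigenspace β, Y x = t β • x then h.choose else 0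

variable [IsAlgClosed K] [FiniteDimensional K E]

theorem op_spec (t : K → K) (f : End K E) {β : K} {x : E} (hx : x ∈ f.maxGenEigenspace β) :
    op t f x = t β • x := by
  have h := exists_op f t
  rw [op, dif_pos h]
  exact h.choose_spec β x hx

theorem op_eq (t : K → K) (f : End K E) {Y : End K E}
    (hY : ∀ β, ∀ x ∈ f.maxGenEigenspace β, Y x = t β • x) : Y = op t f :=
  op_ext f fun β x hx => by rw [hY β x hx, op_spec t f hx]

variable {E' : Type} [AddCommGroup E'] [Module K E'] [FiniteDimensional K E']

theorem gen_map {f : End K E} {f' : End K E'} {L : E →ₗ[K] E'} (h : ∀ x, L (f x) = f' (L x)) {β : K}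
    {x : E} (hx : x ∈ f.maxGenEigenspace β) : L x ∈ f'.maxGenEigenspace β := by
  obtain ⟨n, hn⟩ := mem_gen.1 hx
  refine mem_gen.2 ⟨n, ?_⟩
  have h1 : ∀ (m : ℕ) y, ((f' - algebraMap K (End K E') β) ^ m) (L y) =
      L (((f - algebraMap K (End K E) β) ^ m) y) := by
    intro m
    induction m with
    | zero => intro y; rfl
    | succ m ih =>
      intro y
      rw [pow_succ, pow_succ, Module.End.mul_apply, Module.End.mul_apply, LinearMap.sub_apply,
        Module.algebraMap_end_apply, ← h, ← map_smul, ← map_sub, ih]
      rfl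
  rw [h1, hn, map_zero]

/-- naturality -/
theorem op_nat (t : K → K) {f : End K E} {f' : End K E'} {L : E →ₗ[K] E'}
    (h : ∀ x, L (f x) = f' (L x)) (x : E) : L (op t f x) = op t f' (L x) := by
  have h1 : L ∘ₗ op t f = op t f' ∘ₗ L := by
    apply LinearMap.ext
    intro x
    have hx : x ∈ ⨆ β, f.maxGenEigenspace β := by
      rw [Module.End.iSup_maxGenEigenspace_eq_top f]
      exact Submodule.mem_top
    induction hx using Submodule.iSup_induction' with
    | mem β x hx =>
      rw [LinearMap.comp_apply, LinearMap.comp_apply, op_spec t f hx, op_spec t f' (gen_map h hx),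
        map_smul]
    | zero => rw [map_zero, map_zero]
    | add x y _ _ hx hy => rw [map_add, map_add, hx, hy]
  exact LinearMap.congr_fun h1 x

theorem op_comm (t : K → K) (f : End K E) : Commute f (op t f) :=
  LinearMap.ext fun x => op_nat t (f := f) (f' := f) (L := f) (fun _ => rfl) x

end op

section unip

variable [IsAlgClosed K] [FiniteDimensional K E]

/-- the unipotent part -/
noncomputable def un (f : End K E) : End K E := op (fun β => β⁻¹) f * f

theorem un_gen {f : End K E} {β : K} {x : E} (hx : x ∈ f.maxGenEigenspace β) :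
    un f x = β⁻¹ • f x := by
  have h1 : f x ∈ f.maxGenEigenspace β := gen_map (L := f) (fun _ => rfl) hx
  rw [un, Module.End.mul_apply, op_spec _ f h1]

theorem un_nat {E' : Type} [AddCommGroup E'] [Module K E'] [FiniteDimensional K E']
    {f : End K E} {f' : End K E'} {L : E →ₗ[K] E'}
    (h : ∀ x, L (f x) = f' (L x)) (x : E) : L (un f x) = un f' (L x) := by
  rw [un, un, Module.End.mul_apply, Module.End.mul_apply, op_nat _ h, h]

theorem un_pow_gen {f : End K E} {β : K} {x : E} (hx : x ∈ f.maxGenEigenspace β) (n : ℕ) :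
    ((un f) ^ n) x = (β⁻¹) ^ n • (f ^ n) x := by
  induction n with
  | zero => rw [pow_zero, pow_zero, pow_zero, one_smul]
  | succ n ih =>
    have h1 : (f ^ n) x ∈ f.maxGenEigenspace β :=
      gen_map (L := f ^ n) (fun y => by
        rw [← Module.End.mul_apply, ← Module.End.mul_apply, ← pow_succ, ← pow_succ']) hx
    rw [pow_succ', Module.End.mul_apply, ih, map_smul, un_gen h1, smul_smul, pow_succ,
      pow_succ' f, Module.End.mul_apply]

theorem gen_ne_zero {f : End K E} (hf : Injective f) {β : K} {x : E} (hx : x ∈ f.maxGenEigenspace β)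
    (hx0 : x ≠ 0) : β ≠ 0 := by
  intro h0
  obtain ⟨n, hn⟩ := mem_gen.1 hx
  rw [h0, map_zero, sub_zero] at hn
  have h2 : ∀ n : ℕ, Function.Injective (f ^ n) := by
    intro n
    induction n with
    | zero => exact fun x y h => h
    | succ n ih =>
      intro x y hxy
      rw [pow_succ, Module.End.mul_apply, Module.End.mul_apply] at hxy
      exact hf (ih hxy)
  exact hx0 (h2 n (by rw [hn, map_zero]))

/-- `un f - 1` is nilpotent -/
theorem un_sub_one_pow {f : End K E} (hf : Injective f) : (un f - 1) ^ finrank K E = 0 := by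
  refine op_ext f fun β x hx => ?_
  rw [LinearMap.zero_apply]
  by_cases hx0 : x = 0
  · rw [hx0, map_zero]
  have hβ := gen_ne_zero hf hx hx0
  have h1 : ∀ (n : ℕ), ((un f - 1) ^ n) x = (β⁻¹) ^ n • ((f - algebraMap K (End K E) β) ^ n) x ∧
      ((f - algebraMap K (End K E) β) ^ n) x ∈ f.maxGenEigenspace β := by
    intro n
    induction n with
    | zero => exact ⟨by rw [pow_zero, pow_zero, pow_zero, one_smul], hx⟩
    | succ n ih =>
      obtain ⟨ih1, ih2⟩ := ih
      constructor
      · rw [pow_succ', Module.End.mul_apply, ih1, map_smul, LinearMap.sub_apply, un_gen ih2,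
          Module.End.one_apply, pow_succ, mul_smul, pow_succ' (f - _), Module.End.mul_apply,
          LinearMap.sub_apply, Module.algebraMap_end_apply, smul_sub (β⁻¹), smul_smul β⁻¹ β,
          inv_mul_cancel₀ hβ, one_smul]
      · rw [pow_succ', Module.End.mul_apply, LinearMap.sub_apply, Module.algebraMap_end_apply]
        exact Submodule.sub_mem _ (gen_map (L := f) (fun _ => rfl) ih2) (Submodule.smul_mem _ _ ih2)
  rw [(h1 _).1]
  have h2 : ((f - algebraMap K (End K E) β) ^ finrank K E) x = 0 := by
    have h3 := hx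
    rw [Module.End.maxGenEigenspace_eq_genEigenspace_finrank, Module.End.mem_genEigenspace_nat] at h3
    exact h3
  rw [h2, smul_zero]

/-- the unipotent parts are compatible with multilinear maps -/
theorem un_multi {S : Type} [Fintype S] [DecidableEq S] {T : S → Type} [∀ s, AddCommGroup (T s)]
    [∀ s, Module K (T s)] [∀ s, FiniteDimensional K (T s)] {f : ∀ s, End K (T s)}
    (hf : ∀ s, Injective (f s)) {f' : End K E} {h : MultilinearMap K T E} {n : ℕ}
    (hh : ∀ v, h (fun j => (f j ^ n) (v j)) = (f' ^ n) (h v)) (v : ∀ s, T s) :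
    h (fun j => (un (f j) ^ n) (v j)) = (un f' ^ n) (h v) := by
  have key : (h.compLinearMap fun j => un (f j) ^ n) = (un f' ^ n).compMultilinearMap h := by
    refine multi_ext f fun a v hv => ?_
    rw [MultilinearMap.compLinearMap_apply, LinearMap.compMultilinearMap_apply]
    by_cases hv0 : ∃ j, v j = 0
    · obtain ⟨j, hj⟩ := hv0
      rw [h.map_coord_zero j (by rw [hj, map_zero]), h.map_coord_zero j hj, map_zero]
    push Not at hv0
    have ha : ∀ j, a j ≠ 0 := fun j => gen_ne_zero (hf j) (hv j) (hv0 j)
    have h1 : (fun j => (un (f j) ^ n) (v j)) = fun j => ((a j)⁻¹ ^ n) • (f j ^ n) (v j) := by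
      funext j
      exact un_pow_gen (hv j) n
    rw [h1, h.map_smul_univ, hh]
    have h2 : h v ∈ (f' ^ n).maxGenEigenspace (∏ j, a j ^ n) :=
      multi_gen hh (fun j => a j ^ n) fun j => gen_pow (hv j) n
    -- the operator
    have h3 : op (fun β => β⁻¹) (f' ^ n) * f' ^ n = un f' ^ n := by
      refine op_ext f' fun β x hx => ?_
      rw [un_pow_gen hx, Module.End.mul_apply]
      have h4 : (f' ^ n) x ∈ (f' ^ n).maxGenEigenspace (β ^ n) :=
        gen_map (L := f' ^ n) (fun _ => rfl) (gen_pow hx n)
      rw [op_spec _ _ h4, inv_pow]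
    rw [← h3, Module.End.mul_apply]
    have h5 : (f' ^ n) (h v) ∈ (f' ^ n).maxGenEigenspace (∏ j, a j ^ n) :=
      gen_map (L := f' ^ n) (fun _ => rfl) h2
    rw [op_spec _ _ h5]
    congr 1
    rw [← Finset.prod_inv_distrib]
    refine Finset.prod_congr rfl fun j _ => ?_
    rw [inv_pow]
  have h1 := congrArg (fun F : MultilinearMap K T E => F v) key
  exact h1

/-- the derivation formula for the additive functions -/
theorem fr_multi {S : Type} [Fintype S] [DecidableEq S] {T : S → Type} [∀ s, AddCommGroup (T s)]
    [∀ s, Module K (T s)] [∀ s, FiniteDimensional K (T s)] [CharZero K] {f : ∀ s, End K (T s)}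
    (hf : ∀ s, Injective (f s)) {f' : End K E} {h : MultilinearMap K T E} {n : ℕ} (hn : 0 < n)
    (hh : ∀ v, h (fun j => (f j ^ n) (v j)) = (f' ^ n) (h v)) (θ : Additive Kˣ →+ K)
    (v : ∀ s, T s) :
    ∑ j, h (update v j (op (ext0 θ) (f j) (v j))) = op (ext0 θ) f' (h v) := by
  let D : MultilinearMap K T E :=
    ∑ j, h.compLinearMap fun i => if i = j then op (ext0 θ) (f i) else LinearMap.id
  have hD : ∀ v, D v = ∑ j, h (update v j (op (ext0 θ) (f j) (v j))) := by
    intro v
    rw [_root_.sum_apply]
    refine sum_congr rfl fun j _ => ?_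
    rw [MultilinearMap.compLinearMap_apply]
    congr 1
    funext i
    by_cases hi : i = j
    · subst hi
      rw [if_pos rfl, update_self]
    · rw [if_neg hi, update_of_ne hi, LinearMap.id_apply]
  have key : D = (op (ext0 θ) f').compMultilinearMap h := by
    refine multi_ext f fun a v hv => ?_
    rw [hD]
    change _ = op (ext0 θ) f' (h v)
    by_cases hv0 : ∃ j, v j = 0
    · obtain ⟨j, hj⟩ := hv0
      rw [h.map_coord_zero j hj, map_zero]
      refine Finset.sum_eq_zero fun i _ => ?_
      by_cases hij : i = j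
      · subst hij
        exact h.map_coord_zero i (by rw [update_self, hj, map_zero])
      · exact h.map_coord_zero j (by rw [update_of_ne (Ne.symm hij), hj])
    push Not at hv0
    have ha : ∀ j, a j ≠ 0 := fun j => gen_ne_zero (hf j) (hv j) (hv0 j)
    have h2 : h v ∈ (f' ^ n).maxGenEigenspace (∏ j, a j ^ n) :=
      multi_gen hh (fun j => a j ^ n) fun j => gen_pow (hv j) n
    rw [op_pow θ f' (Y := op (ext0 θ) f') (fun β x hx => op_spec _ _ hx) hn _ _ h2,
      ext0_prod θ univ _ fun j _ => pow_ne_zero n (ha j)]
    have h3 : ∀ j, h (update v j (op (ext0 θ) (f j) (v j))) = ext0 θ (a j) • h v := by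
      intro j
      rw [op_spec _ _ (hv j), MultilinearMap.map_update_smul, update_eq_self]
    rw [sum_congr rfl fun j _ => h3 j, ← sum_smul]
    congr 1
    have hMK : (n : K) ≠ 0 := Nat.cast_ne_zero.2 hn.ne'
    rw [sum_congr rfl fun j _ => ext0_pow θ (a j) hn, ← mul_sum]
    field_simp
  rw [← hD, key]
  rfl

end unip

end Pool.Agent.T6.H17.LW
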