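import Mathlib
import Pool.Agent.T6.H17.LW.Gen

/-!
# Logarithms of unipotent operators and multilinear maps
-/

set_option autoImplicit false
set_option linter.unusedSectionVars false

namespace Pool.Agent.T6.H17.LW

open Module Finset Function
open Polynomial hiding update

variable {K : Type} [Field K] [CharZero K] {M : Type} [AddCommGroup M] [Module K M]

/-- powers of a unipotent operator -/
theorem one_add_pow (U : End K M) {r : ℕ} (hU : U ^ r = 0) (n : ℕ) :
    (1 + U) ^ n = ∑ k ∈ range r, (n.choose k : K) • U ^ k := by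
  have h1 : (1 + U) ^ n = ∑ k ∈ range (n + 1), (n.choose k : K) • U ^ k := by
    rw [add_comm, (Commute.one_right U).add_pow]
    refine Finset.sum_congr rfl fun k _ => ?_
    rw [one_pow, mul_one, ← nsmul_eq_mul', Nat.cast_smul_eq_nsmul]
  rw [h1]
  rcases le_total (n + 1) r with h | h
  · refine Finset.sum_subset (Finset.range_subset_range.2 h) fun k _ hk => ?_
    rw [Finset.mem_range, not_lt] at hk
    rw [Nat.choose_eq_zero_of_lt hk, Nat.cast_zero, zero_smul]
  · symm
    refine Finset.sum_subset (Finset.range_subset_range.2 h) fun k _ hk => ?_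
    rw [Finset.mem_range, not_lt] at hk
    rw [pow_eq_zero_of_le hk hU, smul_zero]

/-- the binomial polynomial -/
noncomputable def bin (K : Type) [Field K] (k : ℕ) : K[X] :=
  C (1 / (k.factorial : K)) * descPochhammer K k

theorem bin_eval (k n : ℕ) : (bin K k).eval (n : K) = (n.choose k : K) := by
  rw [bin, eval_mul, eval_C, descPochhammer_eval_eq_descFactorial,
    Nat.descFactorial_eq_factorial_mul_choose, Nat.cast_mul]
  have h1 : (k.factorial : K) ≠ 0 := Nat.cast_ne_zero.2 (Nat.factorial_ne_zero k)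
  field_simp

theorem bin_eval_zero (k : ℕ) : (bin K k).eval 0 = if k = 0 then 1 else 0 := by
  have h1 := bin_eval (K := K) k 0
  rw [Nat.cast_zero] at h1
  rw [h1]
  by_cases hk : k = 0
  · rw [hk, if_pos rfl, Nat.choose_self, Nat.cast_one]
  · rw [if_neg hk, Nat.choose_eq_zero_of_lt (Nat.pos_of_ne_zero hk), Nat.cast_zero]

/-- the coefficients of the logarithm -/
noncomputable def lc (K : Type) [Field K] (k : ℕ) : K := (derivative (bin K k)).eval 0

theorem lc_zero : lc K 0 = 0 := by
  rw [lc, bin, descPochhammer_zero, mul_one, derivative_C, eval_zero]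

theorem lc_one : lc K 1 = 1 := by
  rw [lc, bin, descPochhammer_one]
  simp

/-- the logarithm -/
noncomputable def lg (U : End K M) (r : ℕ) : End K M := ∑ k ∈ range r, lc K k • U ^ k

theorem lg_le {U : End K M} {r s : ℕ} (hU : U ^ r = 0) (h : r ≤ s) : lg U s = lg U r := by
  symm
  refine Finset.sum_subset (Finset.range_subset_range.2 h) fun k _ hk => ?_
  rw [Finset.mem_range, not_lt] at hk
  rw [pow_eq_zero_of_le hk hU, smul_zero]

theorem lg_eq {U : End K M} {r s : ℕ} (hr : U ^ r = 0) (hs : U ^ s = 0) : lg U r = lg U s := by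
  rcases le_total r s with h | h
  · rw [lg_le hr h]
  · rw [lg_le hs h]

theorem lg_nat {M' : Type} [AddCommGroup M'] [Module K M'] {U : End K M} {U' : End K M'}
    {L : M →ₗ[K] M'} (h : ∀ x, L (U x) = U' (L x)) (r : ℕ) (x : M) :
    L (lg U r x) = lg U' r (L x) := by
  have h1 : ∀ (k : ℕ) x, L ((U ^ k) x) = (U' ^ k) (L x) := by
    intro k
    induction k with
    | zero => intro x; rfl
    | succ k ih =>
      intro x
      rw [pow_succ, pow_succ, Module.End.mul_apply, Module.End.mul_apply, ih, h]
  rw [lg, lg, LinearMap.sum_apply, LinearMap.sum_apply, map_sum]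
  refine Finset.sum_congr rfl fun k _ => ?_
  rw [LinearMap.smul_apply, LinearMap.smul_apply, map_smul, h1]

/-- a nilpotent operator of square zero -/
theorem lg_sq {U : End K M} (hU : U * U = 0) {r : ℕ} (hr : U ^ r = 0) : lg U r = U := by
  have h2 : U ^ 2 = 0 := by rw [pow_two, hU]
  rw [lg_eq hr h2, lg, Finset.sum_range_succ, Finset.sum_range_succ, Finset.sum_range_zero, lc_zero,
    lc_one, zero_smul, zero_add, zero_add, one_smul, pow_one]

/-- the logarithm vanishes only for the identity -/
theorem eq_zero_of_lg {U : End K M} {r : ℕ} (hr : U ^ r = 0) (h : lg U r = 0) : U = 0 := by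
  by_contra h0
  -- the last nonzero power
  have hex : ∃ n : ℕ, U ^ n = 0 := ⟨r, hr⟩
  classical
  have hn := Nat.find_spec hex
  have hmin := fun m hm => Nat.find_min hex (m := m) hm
  set n := Nat.find hex with hndef
  have hn2 : 2 ≤ n := by
    by_contra hlt
    have h1 : n = 0 ∨ n = 1 := by omega
    rcases h1 with h1 | h1
    · rw [h1, pow_zero] at hn
      apply h0
      rw [← one_mul U, hn, zero_mul]
    · rw [h1, pow_one] at hn
      exact h0 hn
  have h1 : lg U n * U ^ (n - 2) = 0 := by rw [lg_eq hn hr, h, zero_mul]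
  have h2 : lg U n * U ^ (n - 2) = U ^ (n - 1) := by
    rw [lg, Finset.sum_mul, Finset.sum_eq_single 1]
    · rw [lc_one, one_smul, pow_one, ← pow_succ']
      congr 1
      omega
    · intro k _ hk
      rcases Nat.eq_zero_or_pos k with hk0 | hk0
      · rw [hk0, lc_zero, zero_smul, zero_mul]
      · rw [smul_mul_assoc, ← pow_add, pow_eq_zero_of_le (by omega) hn, smul_zero]
    · intro hk
      exact absurd (Finset.mem_range.2 (by omega)) hk
  rw [h2] at h1
  exact hmin (n - 1) (by omega) h1

/-- the polynomial -/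
noncomputable def pol (U : End K M) (r : ℕ) (φ : Dual K M) (x : M) : K[X] :=
  ∑ k ∈ range r, C (φ ((U ^ k) x)) * bin K k

theorem pol_eval (U : End K M) {r : ℕ} (hU : U ^ r = 0) (φ : Dual K M) (x : M) (n : ℕ) :
    (pol U r φ x).eval (n : K) = φ (((1 + U) ^ n) x) := by
  rw [one_add_pow U hU, pol, eval_finsetSum, LinearMap.sum_apply, map_sum]
  refine Finset.sum_congr rfl fun k _ => ?_
  rw [eval_mul, eval_C, bin_eval, LinearMap.smul_apply, map_smul, smul_eq_mul, mul_comm]

theorem pol_der (U : End K M) (r : ℕ) (φ : Dual K M) (x : M) :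
    (derivative (pol U r φ x)).eval 0 = φ (lg U r x) := by
  rw [pol, derivative_sum, eval_finsetSum, lg, LinearMap.sum_apply, map_sum]
  refine Finset.sum_congr rfl fun k _ => ?_
  rw [derivative_C_mul, eval_mul, eval_C, LinearMap.smul_apply, map_smul, smul_eq_mul, lc, mul_comm]

section multi

variable {S : Type} [Fintype S] [DecidableEq S] {T : S → Type} [∀ s, AddCommGroup (T s)]
  [∀ s, Module K (T s)]

/-- the polynomial of a multilinear map -/
noncomputable def qol (U : ∀ j, End K (T j)) (r : S → ℕ) (h : MultilinearMap K T M) (φ : Dual K M)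
    (v : ∀ s, T s) : K[X] :=
  ∑ κ ∈ Fintype.piFinset fun j => range (r j), C (φ (h fun j => (U j ^ κ j) (v j))) *
    ∏ j, bin K (κ j)

theorem qol_eval (U : ∀ j, End K (T j)) {r : S → ℕ} (hU : ∀ j, U j ^ r j = 0)
    (h : MultilinearMap K T M) (φ : Dual K M) (v : ∀ s, T s) (n : ℕ) :
    (qol U r h φ v).eval (n : K) = φ (h fun j => ((1 + U j) ^ n) (v j)) := by
  have h1 : (fun j => ((1 + U j) ^ n) (v j)) =
      fun j => ∑ k ∈ range (r j), (n.choose k : K) • (U j ^ k) (v j) := by
    funext j
    rw [one_add_pow (U j) (hU j), LinearMap.sum_apply]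
    rfl
  rw [h1, h.map_sum_finset, map_sum, qol, eval_finsetSum]
  refine Finset.sum_congr rfl fun κ _ => ?_
  rw [h.map_smul_univ, map_smul, smul_eq_mul, eval_mul, eval_C, eval_prod,
    Finset.prod_congr rfl fun j _ => bin_eval (κ j) n, mul_comm]

theorem qol_der (U : ∀ j, End K (T j)) {r : S → ℕ} (hr : ∀ j, 0 < r j)
    (h : MultilinearMap K T M) (φ : Dual K M) (v : ∀ s, T s) :
    (derivative (qol U r h φ v)).eval 0 =
      φ (∑ j, h (update v j (lg (U j) (r j) (v j)))) := by
  have h1 : ∀ κ : S → ℕ, (derivative (∏ j, bin K (κ j))).eval 0 =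
      ∑ j, (if κ = update (0 : S → ℕ) j (κ j) then lc K (κ j) else 0) := by
    intro κ
    rw [derivative_prod_finset, eval_finsetSum]
    refine Finset.sum_congr rfl fun j _ => ?_
    rw [eval_mul, eval_prod]
    by_cases hk : κ = update (0 : S → ℕ) j (κ j)
    · rw [if_pos hk, Finset.prod_eq_one, one_mul]
      · rfl
      · intro i hi
        have h2 : κ i = 0 := by
          rw [hk, update_of_ne (Finset.ne_of_mem_erase hi)]
          rfl
        rw [h2, bin_eval_zero, if_pos rfl]
    · rw [if_neg hk]
      obtain ⟨i, hi⟩ : ∃ i, κ i ≠ update (0 : S → ℕ) j (κ j) i := by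
        by_contra hcon
        push Not at hcon
        exact hk (funext hcon)
      have hij : i ≠ j := by
        rintro rfl
        exact hi (by rw [update_self])
      rw [update_of_ne hij] at hi
      rw [Finset.prod_eq_zero (Finset.mem_erase.2 ⟨hij, Finset.mem_univ i⟩), zero_mul]
      rw [bin_eval_zero]
      exact if_neg hi
  rw [qol, derivative_sum, eval_finsetSum]
  have h2 : ∀ κ ∈ Fintype.piFinset (fun j => range (r j)),
      (derivative (C (φ (h fun j => (U j ^ κ j) (v j))) * ∏ j, bin K (κ j))).eval 0 =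
      ∑ j, φ (h fun j => (U j ^ κ j) (v j)) *
        (if κ = update (0 : S → ℕ) j (κ j) then lc K (κ j) else 0) := by
    intro κ _
    rw [derivative_C_mul, eval_mul, eval_C, h1, Finset.mul_sum]
  rw [Finset.sum_congr rfl h2, Finset.sum_comm, map_sum]
  refine Finset.sum_congr rfl fun j _ => ?_
  have h3 : ∑ κ ∈ (range (r j)).image (fun k => update (0 : S → ℕ) j k),
      φ (h fun j => (U j ^ κ j) (v j)) * (if κ = update (0 : S → ℕ) j (κ j) then lc K (κ j) else 0) =
      ∑ κ ∈ Fintype.piFinset (fun j => range (r j)),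
        φ (h fun j => (U j ^ κ j) (v j)) * (if κ = update (0 : S → ℕ) j (κ j) then lc K (κ j) else 0) := by
    refine Finset.sum_subset ?_ fun κ hκ hκ' => ?_
    · intro κ hκ
      obtain ⟨k, hk, rfl⟩ := Finset.mem_image.1 hκ
      rw [Fintype.mem_piFinset]
      intro i
      by_cases hij : i = j
      · subst hij
        rw [update_self]
        exact hk
      · rw [update_of_ne hij]
        exact Finset.mem_range.2 (hr i)
    · rw [if_neg, mul_zero]
      intro hc
      rw [Fintype.mem_piFinset] at hκ
      exact hκ' (Finset.mem_image.2 ⟨κ j, hκ j, hc.symm⟩)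
  rw [← h3, Finset.sum_image (fun k _ k' _ hkk => by
    have h4 := congrFun hkk j
    rwa [update_self, update_self] at h4)]
  have h5 : update v j (lg (U j) (r j) (v j)) =
      update v j (∑ k ∈ range (r j), lc K k • (U j ^ k) (v j)) := by
    rw [lg, LinearMap.sum_apply]
    rfl
  rw [h5, MultilinearMap.map_update_sum, map_sum]
  refine Finset.sum_congr rfl fun k _ => ?_
  rw [update_self, if_pos rfl, MultilinearMap.map_update_smul, map_smul, smul_eq_mul, mul_comm]
  congr 3
  funext i
  by_cases hij : i = j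
  · subst hij
    rw [update_self, update_self]
  · rw [update_of_ne hij, update_of_ne hij]
    rfl

/-- **the derivation formula for the logarithms** -/
theorem lg_multi {U : ∀ j, End K (T j)} {r : S → ℕ} (hU : ∀ j, U j ^ r j = 0) {U' : End K M}
    {r' : ℕ} (hU' : U' ^ r' = 0) {h : MultilinearMap K T M} {n : ℕ} (hn : 0 < n)
    (hh : ∀ v, h (fun j => ((1 + U j) ^ n) (v j)) = ((1 + U') ^ n) (h v)) (v : ∀ s, T s) :
    ∑ j, h (update v j (lg (U j) (r j) (v j))) = lg U' r' (h v) := by
  have hU1 : ∀ j, U j ^ (r j + 1) = 0 := fun j => by rw [pow_succ, hU, zero_mul]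
  have h0 : ∀ j, lg (U j) (r j) = lg (U j) (r j + 1) := fun j => lg_eq (hU j) (hU1 j)
  rw [Finset.sum_congr rfl fun j _ => by rw [h0 j]]
  rw [← sub_eq_zero, ← Module.forall_dual_apply_eq_zero_iff K]
  intro φ
  rw [map_sub, sub_eq_zero, ← qol_der U (r := fun j => r j + 1) (fun j => Nat.succ_pos _) h φ v,
    ← pol_der]
  have hpow : ∀ (l : ℕ) v, h (fun j => ((1 + U j) ^ (n * l)) (v j)) =
      ((1 + U') ^ (n * l)) (h v) := by
    intro l
    induction l with
    | zero => intro v; rfl
    | succ l ih =>
      intro v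
      have h1 : ∀ j, ((1 + U j) ^ (n * (l + 1))) (v j) =
          ((1 + U j) ^ (n * l)) (((1 + U j) ^ n) (v j)) := by
        intro j
        rw [← Module.End.mul_apply, ← pow_add, mul_add, mul_one]
      rw [funext h1, ih fun j => ((1 + U j) ^ n) (v j), hh, ← Module.End.mul_apply, ← pow_add,
        mul_add, mul_one]
  have hinf : {c : K | (qol U (fun j => r j + 1) h φ v).eval c =
      (pol U' r' φ (h v)).eval c}.Infinite := by
    refine Set.infinite_of_injective_forall_mem (f := fun l : ℕ => ((n * l : ℕ) : K)) ?_ ?_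
    · intro l l' hl
      have h3 : ((n * l : ℕ) : K) = ((n * l' : ℕ) : K) := hl
      have h4 : n * l = n * l' := Nat.cast_injective h3
      exact Nat.eq_of_mul_eq_mul_left hn h4
    · intro l
      rw [Set.mem_ofPred_eq, qol_eval U hU1, pol_eval _ hU', hpow]
  rw [Polynomial.eq_of_infinite_eval_eq _ _ hinf]

end multi

end Pool.Agent.T6.H17.LW
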