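import Mathlib
import Pool.Agent.T6.H17.LW.Der
import Pool.Agent.T6.H17.LW.Log

/-!
# Lie words in the elements of a group, and their action on representations
-/

set_option autoImplicit false
set_option linter.unusedSectionVars false

namespace Pool.Agent.T6.H17.LW

open Module Finset Function

/-- Lie words: brackets of symbols attached to elements of the group. -/
inductive Wd (K Γ : Type) [Field K] : Type
  | fr (θ : Additive Kˣ →+ K) (γ : Γ)
  | lo (γ : Γ)
  | add (a b : Wd K Γ)
  | smul (c : K) (a : Wd K Γ)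
  | br (a b : Wd K Γ)

variable {K : Type} [Field K] [CharZero K] [IsAlgClosed K] {Γ : Type} [Group Γ]

section act

variable {V : Type} [AddCommGroup V] [Module K V]

/-- the logarithm of the unipotent part -/
noncomputable def lgu (f : End K V) : End K V := lg (un f - 1) (finrank K V)

theorem lgu_def (f : End K V) : lgu f = lg (un f - 1) (finrank K V) := rfl

/-- The action of the words. -/
noncomputable def act (ρ : Representation K Γ V) : Wd K Γ → End K V
  | .fr θ γ => op (ext0 θ) (ρ γ)
  | .lo γ => lgu (ρ γ)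
  | .add a b => act ρ a + act ρ b
  | .smul c a => c • act ρ a
  | .br a b => act ρ a * act ρ b - act ρ b * act ρ a

theorem act_fr (ρ : Representation K Γ V) (θ : Additive Kˣ →+ K) (γ : Γ) :
    act ρ (.fr θ γ) = op (ext0 θ) (ρ γ) := rfl

theorem act_lo (ρ : Representation K Γ V) (γ : Γ) : act ρ (.lo γ) = lgu (ρ γ) := rfl

theorem act_add (ρ : Representation K Γ V) (a b : Wd K Γ) :
    act ρ (.add a b) = act ρ a + act ρ b := rfl

theorem act_smul (ρ : Representation K Γ V) (c : K) (a : Wd K Γ) :
    act ρ (.smul c a) = c • act ρ a := rfl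

theorem act_br (ρ : Representation K Γ V) (a b : Wd K Γ) :
    act ρ (.br a b) = act ρ a * act ρ b - act ρ b * act ρ a := rfl

theorem rho_inj (ρ : Representation K Γ V) (γ : Γ) : Injective (ρ γ) := by
  intro x y h
  have h1 := congrArg (ρ γ⁻¹) h
  rwa [← Module.End.mul_apply, ← Module.End.mul_apply, ← map_mul, inv_mul_cancel, map_one,
    Module.End.one_apply, Module.End.one_apply] at h1

end act

variable {M : Type} [AddCommGroup M] [Module K M] [FiniteDimensional K M]

/-- **The action of the words is compatible with the multilinear maps which are equivariant under a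
subgroup of finite index.** -/
theorem act_multi {S : Type} [Fintype S] [DecidableEq S] {T : S → Type}
    [∀ s, AddCommGroup (T s)] [∀ s, Module K (T s)] [∀ s, FiniteDimensional K (T s)]
    {σ : ∀ s, Representation K Γ (T s)} {τ : Representation K Γ M} {h : MultilinearMap K T M}
    (hh : ∃ Δ : Subgroup Γ, Δ.FiniteIndex ∧ ∀ g ∈ Δ, ∀ v, h (fun j => σ j g (v j)) = τ g (h v))
    (w : Wd K Γ) : der (fun s => act (σ s) w) h = (act τ w).compMultilinearMap h := by
  have hgen : ∀ γ : Γ, ∃ n : ℕ, 0 < n ∧ ∀ v, h (fun j => (σ j γ ^ n) (v j)) = (τ γ ^ n) (h v) := by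
    intro γ
    obtain ⟨Δ, hΔ, h1⟩ := hh
    obtain ⟨n, hn, -, hgn⟩ := Subgroup.exists_pow_mem_of_index_ne_zero hΔ.index_ne_zero γ
    refine ⟨n, hn, fun v => ?_⟩
    have h2 := h1 _ hgn v
    rw [← map_pow, ← h2]
    congr 1
    funext j
    rw [← map_pow]
  induction w with
  | fr θ γ =>
    obtain ⟨n, hn, h1⟩ := hgen γ
    ext v
    rw [der_apply]
    exact fr_multi (fun s => rho_inj (σ s) γ) hn h1 θ v
  | lo γ =>
    obtain ⟨n, hn, h1⟩ := hgen γ
    ext v
    rw [der_apply]
    have h2 := un_multi (fun s => rho_inj (σ s) γ) h1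
    have h3 := lg_multi (U := fun j => un (σ j γ) - 1) (r := fun j => finrank K (T j))
      (fun j => un_sub_one_pow (rho_inj (σ j) γ)) (U' := un (τ γ) - 1) (r' := finrank K M)
      (un_sub_one_pow (rho_inj τ γ)) (h := h) hn (fun v => by
        have e1 : ∀ j, 1 + (un (σ j γ) - 1) = un (σ j γ) := fun j => by abel
        have e2 : 1 + (un (τ γ) - 1) = un (τ γ) := by abel
        rw [e2, ← h2]
        congr 1
        funext j
        rw [e1]) v
    change ∑ j, h (update v j (lgu (σ j γ) (v j))) = lgu (τ γ) (h v)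
    rw [lgu_def, ← h3]
    refine Finset.sum_congr rfl fun j _ => ?_
    rw [lgu_def]
  | add a b ha hb =>
    have h1 : (fun s => act (σ s) (a.add b)) = (fun s => act (σ s) a) + fun s => act (σ s) b := rfl
    rw [h1, der_add, ha, hb]
    rfl
  | smul c a ha =>
    have h1 : (fun s => act (σ s) (.smul c a)) = c • fun s => act (σ s) a := rfl
    rw [h1, der_smul, ha]
    rfl
  | br a b ha hb =>
    have h1 : (fun s => act (σ s) (a.br b)) =
        fun s => act (σ s) a * act (σ s) b - act (σ s) b * act (σ s) a := rfl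
    rw [h1, ← der_bracket, ha, hb, der_comp, der_comp, ha, hb]
    rfl

/-- the case of linear maps -/
theorem act_lin {V : Type} [AddCommGroup V] [Module K V] [FiniteDimensional K V]
    {ρ : Representation K Γ V} {τ : Representation K Γ M} {L : V →ₗ[K] M}
    (hh : ∃ Δ : Subgroup Γ, Δ.FiniteIndex ∧ ∀ g ∈ Δ, ∀ v, L (ρ g v) = τ g (L v))
    (w : Wd K Γ) (v : V) : L (act ρ w v) = act τ w (L v) := by
  have h1 := act_multi (S := Unit) (T := fun _ => V) (σ := fun _ => ρ) (τ := τ)
    (h := MultilinearMap.ofSubsingleton K V M () L) (by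
      obtain ⟨Δ, hΔ, h1⟩ := hh
      exact ⟨Δ, hΔ, fun g hg v => h1 g hg (v ())⟩) w
  have h2 := congrArg (fun F : MultilinearMap K (fun _ : Unit => V) M => F fun _ => v) h1
  simp only [der_apply, Finset.univ_unique, Finset.sum_singleton] at h2
  have h3 : ∀ u : Unit → V, (MultilinearMap.ofSubsingleton K V M () L) u = L (u ()) := fun _ => rfl
  rw [h3, update_self] at h2
  exact h2

section conj

/-- conjugation of words -/
def cj (s : Γ) : Wd K Γ → Wd K Γ
  | .fr θ γ => .fr θ (s * γ * s⁻¹)
  | .lo γ => .lo (s * γ * s⁻¹)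
  | .add a b => .add (cj s a) (cj s b)
  | .smul c a => .smul c (cj s a)
  | .br a b => .br (cj s a) (cj s b)

theorem act_cj (τ : Representation K Γ M) (s : Γ) (w : Wd K Γ) :
    act τ (cj s w) * τ s = τ s * act τ w := by
  have hss : ∀ γ : Γ, ∀ x, τ s (τ γ x) = τ (s * γ * s⁻¹) (τ s x) := by
    intro γ x
    rw [← Module.End.mul_apply, ← Module.End.mul_apply, ← map_mul, ← map_mul, inv_mul_cancel_right]
  induction w with
  | fr θ γ =>
    apply LinearMap.ext
    intro x
    exact (op_nat (ext0 θ) (L := τ s) (hss γ) x).symm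
  | lo γ =>
    apply LinearMap.ext
    intro x
    change lgu (τ (s * γ * s⁻¹)) (τ s x) = τ s (lgu (τ γ) x)
    rw [lgu_def, lgu_def]
    refine (lg_nat (L := τ s) (fun y => ?_) _ x).symm
    rw [LinearMap.sub_apply, LinearMap.sub_apply, map_sub, un_nat (hss γ)]
    rfl
  | add a b ha hb =>
    change (act τ (cj s a) + act τ (cj s b)) * τ s = τ s * (act τ a + act τ b)
    rw [add_mul, mul_add, ha, hb]
  | smul c a ha =>
    change (c • act τ (cj s a)) * τ s = τ s * (c • act τ a)
    rw [smul_mul_assoc, ha, mul_smul_comm]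
  | br a b ha hb =>
    change (act τ (cj s a) * act τ (cj s b) - act τ (cj s b) * act τ (cj s a)) * τ s =
      τ s * (act τ a * act τ b - act τ b * act τ a)
    rw [sub_mul, mul_sub, mul_assoc, mul_assoc, hb, ha, ← mul_assoc, ← mul_assoc, ha, hb, mul_assoc,
      mul_assoc]

end conj

end Pool.Agent.T6.H17.LW
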