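import Mathlib
import Pool.Agent.T6.H17.LW.Words

/-!
# Independence of actions of Lie words
-/

set_option autoImplicit false
set_option linter.unusedSectionVars false

namespace Pool.Agent.T6.H17.LW

open Module Finset Function

variable {K : Type} [Field K] {Γ : Type} [Group Γ]

/-- compatibility of a family of operators indexed by words with the operations -/
structure IsAct {M : Type} [AddCommGroup M] [Module K M] (a : Wd K Γ → End K M) : Prop where
  add : ∀ x y, a (.add x y) = a x + a y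
  smul : ∀ c x, a (.smul c x) = c • a x
  br : ∀ x y, a (.br x y) = a x * a y - a y * a x

theorem isAct_act [CharZero K] [IsAlgClosed K] {M : Type} [AddCommGroup M] [Module K M]
    (τ : Representation K Γ M) : IsAct (act τ) := ⟨act_add τ, act_smul τ, act_br τ⟩

variable {V : Type} [AddCommGroup V] [Module K V] {M : Type} [AddCommGroup M] [Module K M]
  {r : Wd K Γ → End K V} {a : Wd K Γ → End K M}

/-- The operators of the first action which can be realised by words that act by zero in the second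
one. -/
def KQ (hr : IsAct r) (ha : IsAct a) : Submodule K (End K V) where
  carrier := {Y | ∃ w, r w = Y ∧ a w = 0}
  zero_mem' := ⟨.smul 0 (.lo 1), by rw [hr.smul, zero_smul], by rw [ha.smul, zero_smul]⟩
  add_mem' := by
    rintro X Y ⟨w, h1, h2⟩ ⟨w', h1', h2'⟩
    exact ⟨.add w w', by rw [hr.add, h1, h1'], by rw [ha.add, h2, h2', add_zero]⟩
  smul_mem' := by
    rintro c X ⟨w, h1, h2⟩
    exact ⟨.smul c w, by rw [hr.smul, h1], by rw [ha.smul, h2, smul_zero]⟩

theorem mem_KQ {hr : IsAct r} {ha : IsAct a} {Y : End K V} :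
    Y ∈ KQ hr ha ↔ ∃ w, r w = Y ∧ a w = 0 := Iff.rfl

/-- All the operators in `𝔤` can be realised by words that act by zero. -/
def Pf (𝔤 : Submodule K (End K V)) (r : Wd K Γ → End K V) (a : Wd K Γ → End K M) : Prop :=
  ∀ Y ∈ 𝔤, ∃ w, r w = Y ∧ a w = 0

/-- `𝔤` is perfect. -/
def Perfect (𝔤 : Submodule K (End K V)) : Prop :=
  ∀ Y ∈ 𝔤, Y ∈ Submodule.span K {Z : End K V | ∃ A ∈ 𝔤, ∃ B ∈ 𝔤, Z = A * B - B * A}

variable {𝔤 : Submodule K (End K V)}

theorem pf_of_br (hp : Perfect 𝔤) (hr : IsAct r) (ha : IsAct a)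
    (h : ∀ A ∈ 𝔤, ∀ B ∈ 𝔤, ∃ w, r w = A * B - B * A ∧ a w = 0) : Pf 𝔤 r a := by
  intro Y hY
  have h1 : Submodule.span K {Z : End K V | ∃ A ∈ 𝔤, ∃ B ∈ 𝔤, Z = A * B - B * A} ≤ KQ hr ha := by
    rw [Submodule.span_le]
    rintro _ ⟨A, hA, B, hB, rfl⟩
    exact h A hA B hB
  exact mem_KQ.1 (h1 (hp Y hY))

/-- domination -/
theorem Pf.mono {M' : Type} [AddCommGroup M'] [Module K M'] {b : Wd K Γ → End K M'}
    (h : Pf 𝔤 r a) (hab : ∀ w, a w = 0 → b w = 0) : Pf 𝔤 r b := by
  intro Y hY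
  obtain ⟨w, h1, h2⟩ := h Y hY
  exact ⟨w, h1, hab w h2⟩

/-- the sum of two actions -/
def pr {M' : Type} [AddCommGroup M'] [Module K M'] (a : Wd K Γ → End K M)
    (b : Wd K Γ → End K M') : Wd K Γ → End K (M × M') := fun w => (a w).prodMap (b w)

theorem isAct_pr {M' : Type} [AddCommGroup M'] [Module K M'] {b : Wd K Γ → End K M'}
    (ha : IsAct a) (hb : IsAct b) : IsAct (pr a b) where
  add x y := by
    unfold pr
    rw [ha.add, hb.add]
    rfl
  smul c x := by
    unfold pr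
    rw [ha.smul, hb.smul]
    rfl
  br x y := by
    unfold pr
    rw [ha.br, hb.br]
    rfl

theorem pr_eq_zero {M' : Type} [AddCommGroup M'] [Module K M'] {b : Wd K Γ → End K M'} {w : Wd K Γ} :
    pr a b w = 0 ↔ a w = 0 ∧ b w = 0 := by
  constructor
  · intro h
    constructor
    · ext x
      have h1 := LinearMap.congr_fun h (x, 0)
      exact congrArg Prod.fst h1
    · ext x
      have h1 := LinearMap.congr_fun h (0, x)
      exact congrArg Prod.snd h1
  · rintro ⟨h1, h2⟩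
    unfold pr
    rw [h1, h2]
    rfl

theorem pf_pr {M' : Type} [AddCommGroup M'] [Module K M'] {b : Wd K Γ → End K M'}
    (hp : Perfect 𝔤) (hr : IsAct r) (ha : IsAct a) (hb : IsAct b) (h1 : Pf 𝔤 r a)
    (h2 : Pf 𝔤 r b) : Pf 𝔤 r (pr a b) := by
  refine pf_of_br hp hr (isAct_pr ha hb) fun A hA B hB => ?_
  obtain ⟨w, hw1, hw2⟩ := h1 A hA
  obtain ⟨w', hw1', hw2'⟩ := h2 B hB
  refine ⟨.br w w', by rw [hr.br, hw1, hw1'], pr_eq_zero.2 ⟨?_, ?_⟩⟩
  · rw [ha.br, hw2, zero_mul, mul_zero, sub_zero]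
  · rw [hb.br, hw2', zero_mul, mul_zero, sub_zero]

/-- the sum of finitely many actions -/
theorem pf_finset {J : Type} {N : J → Type} [∀ j, AddCommGroup (N j)] [∀ j, Module K (N j)]
    {b : ∀ j, Wd K Γ → End K (N j)} (hp : Perfect 𝔤) (hr : IsAct r) (hb : ∀ j, IsAct (b j))
    (h𝔤 : ∀ Y ∈ 𝔤, ∃ w, r w = Y) (s : Finset J) (h : ∀ j ∈ s, Pf 𝔤 r (b j)) :
    ∀ Y ∈ 𝔤, ∃ w, r w = Y ∧ ∀ j ∈ s, b j w = 0 := by
  classical
  induction s using Finset.induction_on with
  | empty =>
    intro Y hY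
    obtain ⟨w, hw⟩ := h𝔤 Y hY
    exact ⟨w, hw, fun j hj => absurd hj (Finset.notMem_empty j)⟩
  | insert i s hi ih =>
    have ih' := ih fun j hj => h j (Finset.mem_insert_of_mem hj)
    let U : Submodule K (End K V) :=
      { carrier := {Y | ∃ w, r w = Y ∧ ∀ j ∈ insert i s, b j w = 0}
        zero_mem' := ⟨.smul 0 (.lo 1), by rw [hr.smul, zero_smul],
          fun j _ => by rw [(hb j).smul, zero_smul]⟩
        add_mem' := by
          rintro X Y ⟨w, h1, h2⟩ ⟨w', h1', h2'⟩
          exact ⟨.add w w', by rw [hr.add, h1, h1'],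
            fun j hj => by rw [(hb j).add, h2 j hj, h2' j hj, add_zero]⟩
        smul_mem' := by
          rintro c X ⟨w, h1, h2⟩
          exact ⟨.smul c w, by rw [hr.smul, h1],
            fun j hj => by rw [(hb j).smul, h2 j hj, smul_zero]⟩ }
    have hU : Submodule.span K {Z : End K V | ∃ A ∈ 𝔤, ∃ B ∈ 𝔤, Z = A * B - B * A} ≤ U := by
      rw [Submodule.span_le]
      rintro _ ⟨A, hA, B, hB, rfl⟩
      obtain ⟨w, h1, h2⟩ := h i (Finset.mem_insert_self i s) A hA
      obtain ⟨w', h1', h2'⟩ := ih' B hB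
      refine ⟨.br w w', by rw [hr.br, h1, h1'], fun j hj => ?_⟩
      rcases Finset.mem_insert.1 hj with rfl | hj
      · rw [(hb j).br, h2, zero_mul, mul_zero, sub_zero]
      · rw [(hb j).br, h2' j hj, zero_mul, mul_zero, sub_zero]
    intro Y hY
    exact hU (hp Y hY)

section ext

/-- the restriction to a stable subspace -/
def rst (a : Wd K Γ → End K M) (N : Submodule K M) (hN : ∀ w, ∀ x ∈ N, a w x ∈ N) :
    Wd K Γ → End K N := fun w => (a w).restrict (hN w)

theorem isAct_rst (ha : IsAct a) (N : Submodule K M) (hN : ∀ w, ∀ x ∈ N, a w x ∈ N) :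
    IsAct (rst a N hN) where
  add x y := by
    ext v
    change a (.add x y) v = a x v + a y v
    rw [ha.add]
    rfl
  smul c x := by
    ext v
    change a (.smul c x) v = c • a x v
    rw [ha.smul]
    rfl
  br x y := by
    ext v
    change a (.br x y) v = a x (a y v) - a y (a x v)
    rw [ha.br]
    rfl

/-- the quotient by a stable subspace -/
def quo (a : Wd K Γ → End K M) (N : Submodule K M) (hN : ∀ w, ∀ x ∈ N, a w x ∈ N) :
    Wd K Γ → End K (M ⧸ N) := fun w => N.mapQ N (a w) (hN w)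

theorem isAct_quo (ha : IsAct a) (N : Submodule K M) (hN : ∀ w, ∀ x ∈ N, a w x ∈ N) :
    IsAct (quo a N hN) where
  add x y := by
    refine Submodule.linearMap_qext _ (LinearMap.ext fun v => ?_)
    change Submodule.Quotient.mk (a (.add x y) v) = Submodule.Quotient.mk (a x v) +
      (Submodule.Quotient.mk (a y v) : M ⧸ N)
    rw [ha.add]
    rfl
  smul c x := by
    refine Submodule.linearMap_qext _ (LinearMap.ext fun v => ?_)
    change Submodule.Quotient.mk (a (.smul c x) v) = c • (Submodule.Quotient.mk (a x v) : M ⧸ N)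
    rw [ha.smul]
    rfl
  br x y := by
    refine Submodule.linearMap_qext _ (LinearMap.ext fun v => ?_)
    change Submodule.Quotient.mk (a (.br x y) v) = Submodule.Quotient.mk (a x (a y v)) -
      (Submodule.Quotient.mk (a y (a x v)) : M ⧸ N)
    rw [ha.br]
    rfl

/-- extensions -/
theorem pf_ext (hp : Perfect 𝔤) (hr : IsAct r) (ha : IsAct a) {N : Submodule K M}
    {hN : ∀ w, ∀ x ∈ N, a w x ∈ N} (h1 : Pf 𝔤 r (rst a N hN)) (h2 : Pf 𝔤 r (quo a N hN)) :
    Pf 𝔤 r a := by
  have h3 := pf_pr hp hr (isAct_rst ha N hN) (isAct_quo ha N hN) h1 h2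
  refine pf_of_br hp hr ha fun A hA B hB => ?_
  obtain ⟨w, hw1, hw2⟩ := h3 A hA
  obtain ⟨w', hw1', hw2'⟩ := h3 B hB
  rw [pr_eq_zero] at hw2 hw2'
  have key : ∀ w, rst a N hN w = 0 ∧ quo a N hN w = 0 → (∀ x ∈ N, a w x = 0) ∧ ∀ x, a w x ∈ N := by
    rintro w ⟨h4, h5⟩
    constructor
    · intro x hx
      have h6 := congrArg Subtype.val (LinearMap.congr_fun h4 ⟨x, hx⟩)
      exact h6
    · intro x
      have h6 := LinearMap.congr_fun h5 (Submodule.Quotient.mk x)
      exact (Submodule.Quotient.mk_eq_zero N).1 h6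
  obtain ⟨k1, k2⟩ := key w hw2
  obtain ⟨k1', k2'⟩ := key w' hw2'
  refine ⟨.br w w', by rw [hr.br, hw1, hw1'], ?_⟩
  ext x
  rw [ha.br, LinearMap.sub_apply, Module.End.mul_apply, Module.End.mul_apply, k1 _ (k2' x),
    k1' _ (k2 x), sub_zero, LinearMap.zero_apply]

end ext

end Pool.Agent.T6.H17.LW
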