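import Mathlib
import Pool.Agent.T6.H17.LW.Act

/-!
# Irreducible actions of Lie words
-/

set_option autoImplicit false
set_option linter.unusedSectionVars false

namespace Pool.Agent.T6.H17.LW

open Module Finset Function

attribute [local instance 100] LieRing.ofAssociativeRing

variable {K : Type} [Field K] [CharZero K] [IsAlgClosed K] {Γ : Type} [Group Γ]
  {V : Type} [AddCommGroup V] [Module K V] {M : Type} [AddCommGroup M] [Module K M]
  [FiniteDimensional K M] {r : Wd K Γ → End K V} {a : Wd K Γ → End K M}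

/-- the part of trace zero -/
noncomputable def tr0 : End K M →ₗ[K] End K M :=
  LinearMap.id - (((finrank K M : K)⁻¹) • LinearMap.trace K M).smulRight 1

theorem tr0_apply (X : End K M) :
    tr0 X = X - ((finrank K M : K)⁻¹ * LinearMap.trace K M X) • 1 := rfl

theorem trace_tr0 [Nontrivial M] (X : End K M) : LinearMap.trace K M (tr0 X) = 0 := by
  have h1 : (finrank K M : K) ≠ 0 := Nat.cast_ne_zero.2 finrank_pos.ne'
  rw [tr0_apply, map_sub, map_smul, LinearMap.trace_one, smul_eq_mul]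
  field_simp
  ring

theorem tr0_br (X Y : End K M) : tr0 X * tr0 Y - tr0 Y * tr0 X = X * Y - Y * X := by
  rw [tr0_apply, tr0_apply]
  simp only [sub_mul, mul_sub, smul_mul_assoc, mul_smul_comm, mul_one, one_mul]
  module

theorem tr0_br' (X Y : End K M) : tr0 (X * Y - Y * X) = X * Y - Y * X := by
  rw [tr0_apply, map_sub, LinearMap.trace_mul_comm, sub_self, mul_zero, zero_smul, sub_zero]

theorem commute_tr0 {X Y : End K M} (h : tr0 X = 0) : X * Y - Y * X = 0 := by
  rw [← tr0_br, h, zero_mul, mul_zero, sub_zero]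

/-- The Lie algebra of the parts of trace zero. -/
noncomputable def LA (ha : IsAct a) : LieSubalgebra K (End K M) where
  carrier := {X | ∃ w, X = tr0 (a w)}
  zero_mem' := ⟨.smul 0 (.lo 1), by rw [ha.smul, zero_smul, map_zero]⟩
  add_mem' := by
    rintro _ _ ⟨w, rfl⟩ ⟨w', rfl⟩
    exact ⟨.add w w', by rw [ha.add, map_add]⟩
  smul_mem' := by
    rintro c _ ⟨w, rfl⟩
    exact ⟨.smul c w, by rw [ha.smul, map_smul]⟩
  lie_mem' := by
    rintro _ _ ⟨w, rfl⟩ ⟨w', rfl⟩
    refine ⟨.br w w', ?_⟩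
    rw [ha.br, tr0_br']
    exact tr0_br _ _

theorem mem_LA {ha : IsAct a} {X : End K M} : X ∈ LA ha ↔ ∃ w, X = tr0 (a w) := Iff.rfl

/-- the element defined by a word -/
noncomputable def el (ha : IsAct a) (w : Wd K Γ) : LA ha := ⟨tr0 (a w), w, rfl⟩

theorem LA_irreducible (ha : IsAct a) [Nontrivial M]
    (hirr : ∀ N : Submodule K M, (∀ w, ∀ x ∈ N, a w x ∈ N) → N = ⊥ ∨ N = ⊤) :
    LieModule.IsIrreducible K (LA ha) M := by
  refine LieModule.IsIrreducible.mk fun N hN => ?_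
  have h1 := hirr N.toSubmodule fun w x hx => by
    have h2 : ⁅el ha w, x⁆ ∈ N := N.lie_mem hx
    have h3 : ⁅el ha w, x⁆ = tr0 (a w) x := rfl
    rw [h3, tr0_apply, LinearMap.sub_apply, LinearMap.smul_apply, Module.End.one_apply] at h2
    have h4 := N.toSubmodule.add_mem h2 (N.toSubmodule.smul_mem
      ((finrank K M : K)⁻¹ * LinearMap.trace K M (a w)) hx)
    rwa [sub_add_cancel] at h4
  rcases h1 with h1 | h1
  · exact absurd ((LieSubmodule.toSubmodule_eq_bot _).1 h1) hN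
  · exact (LieSubmodule.toSubmodule_eq_top N).1 h1

theorem LA_killing (ha : IsAct a) [Nontrivial M]
    (hirr : ∀ N : Submodule K M, (∀ w, ∀ x ∈ N, a w x ∈ N) → N = ⊥ ∨ N = ⊤) :
    LieAlgebra.IsKilling K (LA ha) := by
  have _i := LA_irreducible ha hirr
  have _f : Module.Finite K (LA ha) :=
    FiniteDimensional.finiteDimensional_submodule (LA ha).toSubmodule
  have _t : LieAlgebra.HasTrivialRadical K (LA ha) := by
    refine LieAlgebra.hasTrivialRadical_of_isIrreducible_of_isFaithful K (LA ha) M fun x => ?_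
    obtain ⟨X, w, rfl⟩ := x
    have h1 : LieModule.toEnd K (LA ha) M ⟨tr0 (a w), w, rfl⟩ = tr0 (a w) := rfl
    rw [h1, trace_tr0]
  infer_instance

/-- the ideal of the elements which are realised by words acting by zero in the first action -/
noncomputable def II (hr : IsAct r) (ha : IsAct a) : LieIdeal K (LA ha) where
  carrier := {x | ∃ w, (x : End K M) = tr0 (a w) ∧ r w = 0}
  zero_mem' := ⟨.smul 0 (.lo 1), by rw [ha.smul, zero_smul, map_zero]; rfl,
    by rw [hr.smul, zero_smul]⟩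
  add_mem' := by
    rintro x y ⟨w, h1, h2⟩ ⟨w', h1', h2'⟩
    exact ⟨.add w w', by rw [ha.add, map_add, ← h1, ← h1']; rfl, by rw [hr.add, h2, h2', add_zero]⟩
  smul_mem' := by
    rintro c x ⟨w, h1, h2⟩
    exact ⟨.smul c w, by rw [ha.smul, map_smul, ← h1]; rfl, by rw [hr.smul, h2, smul_zero]⟩
  lie_mem := by
    rintro ⟨_, w', rfl⟩ y ⟨w, h1, h2⟩
    refine ⟨.br w' w, ?_, by rw [hr.br, h2, zero_mul, mul_zero, sub_zero]⟩
    rw [ha.br, tr0_br', ← tr0_br, ← h1]
    rfl

/-- `𝔤` is simple. -/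
def Simple (𝔤 : Submodule K (End K V)) : Prop :=
  ∀ 𝔨 : Submodule K (End K V), 𝔨 ≤ 𝔤 → (∀ Y ∈ 𝔤, ∀ Z ∈ 𝔨, Y * Z - Z * Y ∈ 𝔨) → 𝔨 = ⊥ ∨ 𝔨 = 𝔤

/-- **Irreducible actions**: either all elements of `𝔤` can be realised by words which act by zero, or
`𝔤` acts. -/
theorem irr_step {𝔤 : Submodule K (End K V)} (hbr : ∀ Y ∈ 𝔤, ∀ Z ∈ 𝔤, Y * Z - Z * Y ∈ 𝔤)
    (hp : Perfect 𝔤) (hs : Simple 𝔤) (hr : IsAct r) (hfull : ∀ Y ∈ 𝔤, ∃ w, r w = Y) (ha : IsAct a)
    [Nontrivial M]
    (hirr : ∀ N : Submodule K M, (∀ w, ∀ x ∈ N, a w x ∈ N) → N = ⊥ ∨ N = ⊤) :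
    Pf 𝔤 r a ∨ ∃ φ : 𝔤 →ₗ[K] End K M, (∀ Y Z W : 𝔤, (W : End K V) = Y * Z - Z * Y →
      φ W = φ Y * φ Z - φ Z * φ Y) ∧ Injective φ := by
  classical
  have _k := LA_killing ha hirr
  have _f : Module.Finite K (LA ha) :=
    FiniteDimensional.finiteDimensional_submodule (LA ha).toSubmodule
  have hc := LieIdeal.isCompl_killingCompl (II hr ha)
  set J : LieIdeal K (LA ha) := (II hr ha).killingCompl with hJ
  -- existence
  have hex : ∀ Y : 𝔤, ∃ w, r w = Y ∧ el ha w ∈ J := by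
    intro Y
    obtain ⟨w, hw⟩ := hfull Y Y.2
    have h1 : el ha w ∈ (II hr ha ⊔ J : LieIdeal K (LA ha)) := by
      rw [hc.sup_eq_top]
      trivial
    obtain ⟨x, ⟨w', hw1, hw2⟩, y, hy, hxy⟩ := (LieSubmodule.mem_sup _ _ _).1 h1
    refine ⟨.add w (.smul (-1) w'), ?_, ?_⟩
    · rw [hr.add, hr.smul, hw2, smul_zero, add_zero, hw]
    · have h2 : el ha (.add w (.smul (-1) w')) = y := by
        apply Subtype.ext
        change tr0 (a (.add w (.smul (-1) w'))) = (y : End K M)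
        rw [ha.add, ha.smul, map_add, map_smul, ← hw1, neg_smul, one_smul]
        have h3 : tr0 (a w) = (x : End K M) + y := congrArg Subtype.val hxy.symm
        rw [h3]
        abel
      rw [h2]
      exact hy
  -- uniqueness
  have huniq : ∀ w w', r w = r w' → el ha w ∈ J → el ha w' ∈ J → tr0 (a w) = tr0 (a w') := by
    intro w w' h h1 h2
    have h3 : el ha (.add w (.smul (-1) w')) = el ha w - el ha w' := by
      apply Subtype.ext
      change tr0 (a (.add w (.smul (-1) w'))) = tr0 (a w) - tr0 (a w')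
      rw [ha.add, ha.smul, map_add, map_smul, neg_smul, one_smul, sub_eq_add_neg]
    have h4 : el ha w - el ha w' ∈ II hr ha := by
      rw [← h3]
      refine ⟨_, rfl, ?_⟩
      rw [hr.add, hr.smul, h, neg_smul, one_smul, add_neg_cancel]
    have h5 : el ha w - el ha w' ∈ J := J.sub_mem h1 h2
    have h6 : el ha w - el ha w' ∈ (II hr ha ⊓ J : LieIdeal K (LA ha)) := ⟨h4, h5⟩
    rw [hc.inf_eq_bot] at h6
    have h7 : el ha w - el ha w' = 0 := (LieSubmodule.mem_bot _).1 h6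
    exact sub_eq_zero.1 (congrArg Subtype.val h7)
  choose W hW1 hW2 using hex
  have hWu : ∀ (Y : 𝔤) w, r w = Y → el ha w ∈ J → tr0 (a (W Y)) = tr0 (a w) := by
    intro Y w h1 h2
    exact huniq _ _ (by rw [hW1, h1]) (hW2 Y) h2
  have helsmul : ∀ c w, el ha (.smul c w) = c • el ha w := by
    intro c w
    apply Subtype.ext
    change tr0 (a (.smul c w)) = c • tr0 (a w)
    rw [ha.smul, map_smul]
  have heladd : ∀ w w', el ha (.add w w') = el ha w + el ha w' := by
    intro w w'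
    apply Subtype.ext
    change tr0 (a (.add w w')) = tr0 (a w) + tr0 (a w')
    rw [ha.add, map_add]
  have helbr : ∀ w w', el ha (.br w w') = ⁅el ha w, el ha w'⁆ := by
    intro w w'
    apply Subtype.ext
    change tr0 (a (.br w w')) = tr0 (a w) * tr0 (a w') - tr0 (a w') * tr0 (a w)
    rw [ha.br, tr0_br', tr0_br]
  let φ : 𝔤 →ₗ[K] End K M :=
    { toFun := fun Y => tr0 (a (W Y))
      map_add' := by
        intro Y Z
        have h1 := hWu (Y + Z) (.add (W Y) (W Z)) (by rw [hr.add, hW1, hW1]; rfl) (by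
          rw [heladd]
          exact J.add_mem (hW2 Y) (hW2 Z))
        rw [h1, ha.add, map_add]
      map_smul' := by
        intro c Y
        have h1 := hWu (c • Y) (.smul c (W Y)) (by rw [hr.smul, hW1]; rfl) (by
          rw [helsmul]
          exact J.smul_mem c (hW2 Y))
        rw [h1, ha.smul, map_smul]
        rfl }
  have hφbr : ∀ Y Z W : 𝔤, (W : End K V) = Y * Z - Z * Y → φ W = φ Y * φ Z - φ Z * φ Y := by
    intro Y Z X hX
    have h1 := hWu X (.br (W Y) (W Z)) (by rw [hr.br, hW1, hW1, hX]) (by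
      rw [helbr]
      exact lie_mem_right K (LA ha) J _ _ (hW2 Z))
    change tr0 (a (W X)) = tr0 (a (W Y)) * tr0 (a (W Z)) - tr0 (a (W Z)) * tr0 (a (W Y))
    rw [h1, ha.br, tr0_br', tr0_br]
  -- the kernel
  let 𝔨 : Submodule K (End K V) := (LinearMap.ker φ).map 𝔤.subtype
  have h𝔨 : 𝔨 ≤ 𝔤 := by
    rintro _ ⟨Y, _, rfl⟩
    exact Y.2
  have hid : ∀ Y ∈ 𝔤, ∀ Z ∈ 𝔨, Y * Z - Z * Y ∈ 𝔨 := by
    rintro Y hY _ ⟨Z, hZ, rfl⟩
    refine ⟨⟨Y * Z - Z * Y, hbr Y hY Z Z.2⟩, ?_, rfl⟩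
    have h1 := hφbr ⟨Y, hY⟩ Z ⟨Y * Z - Z * Y, hbr Y hY Z Z.2⟩ rfl
    rw [LinearMap.mem_ker.1 hZ, mul_zero, zero_mul, sub_zero] at h1
    exact h1
  rcases hs 𝔨 h𝔨 hid with h | h
  · right
    refine ⟨φ, hφbr, ?_⟩
    rw [← LinearMap.ker_eq_bot, Submodule.eq_bot_iff]
    intro x hx
    have h3 : (x : End K V) ∈ 𝔨 := ⟨x, hx, rfl⟩
    rw [h, Submodule.mem_bot] at h3
    exact Subtype.ext h3
  · left
    refine pf_of_br hp hr ha fun A hA B hB => ?_
    have h1 : ∀ Y ∈ 𝔤, ∃ w, r w = Y ∧ tr0 (a w) = 0 := by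
      intro Y hY
      rw [← h] at hY
      obtain ⟨Z, hZ, rfl⟩ := hY
      exact ⟨W Z, hW1 Z, LinearMap.mem_ker.1 hZ⟩
    obtain ⟨w, hw1, hw2⟩ := h1 A hA
    obtain ⟨w', hw1', -⟩ := h1 B hB
    exact ⟨.br w w', by rw [hr.br, hw1, hw1'], by rw [ha.br, commute_tr0 hw2]⟩

/-- **Small actions**: if `𝔤` does not act on spaces of dimension less than `d`, all elements of `𝔤`
can be realised by words which act by zero on a given space of dimension less than `d`. -/
theorem pf_small {𝔤 : Submodule K (End K V)} (hbr : ∀ Y ∈ 𝔤, ∀ Z ∈ 𝔤, Y * Z - Z * Y ∈ 𝔤)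
    (hp : Perfect 𝔤) (hs : Simple 𝔤) (hr : IsAct r) (hfull : ∀ Y ∈ 𝔤, ∃ w, r w = Y) (d : ℕ)
    (hd : ∀ (M : Type) [AddCommGroup M] [Module K M] [FiniteDimensional K M]
      (φ : 𝔤 →ₗ[K] End K M), (∀ Y Z W : 𝔤, (W : End K V) = Y * Z - Z * Y →
      φ W = φ Y * φ Z - φ Z * φ Y) → Injective φ → d ≤ finrank K M) (n : ℕ) :
    ∀ (M : Type) [AddCommGroup M] [Module K M] [FiniteDimensional K M] (a : Wd K Γ → End K M),
      IsAct a → finrank K M = n → n < d → Pf 𝔤 r a := by
  induction n using Nat.strong_induction_on with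
  | _ n ih =>
    intro M _ _ _ a ha hn hnd
    rcases subsingleton_or_nontrivial M with hM | hM
    · intro Y hY
      obtain ⟨w, hw⟩ := hfull Y hY
      exact ⟨w, hw, LinearMap.ext fun x => Subsingleton.elim _ _⟩
    by_cases hirr : ∀ N : Submodule K M, (∀ w, ∀ x ∈ N, a w x ∈ N) → N = ⊥ ∨ N = ⊤
    · rcases irr_step hbr hp hs hr hfull ha hirr with h | ⟨φ, h1, h2⟩
      · exact h
      · have h3 := hd M φ h1 h2
        omega
    · push Not at hirr
      obtain ⟨N, hN, hN1, hN2⟩ := hirr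
      have hq := Submodule.finrank_quotient_add_finrank N
      have h1 : 0 < finrank K N := by
        rw [Nat.pos_iff_ne_zero]
        intro h0
        exact hN1 (Submodule.finrank_eq_zero.1 h0)
      have h2 : 0 < finrank K (M ⧸ N) := by
        rw [Nat.pos_iff_ne_zero]
        intro h0
        have h3 : Subsingleton (M ⧸ N) := finrank_zero_iff.1 h0
        exact hN2 (Submodule.Quotient.subsingleton_iff.1 h3)
      exact pf_ext hp hr ha
        (ih (finrank K N) (by omega) N (rst a N hN) (isAct_rst ha N hN) rfl (by omega))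
        (ih (finrank K (M ⧸ N)) (by omega) (M ⧸ N) (quo a N hN) (isAct_quo ha N hN) rfl (by omega))

end Pool.Agent.T6.H17.LW
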