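import Mathlib

/-!
# A combinatorial lemma on sets of weights
-/

set_option autoImplicit false

namespace Pool.Agent.T6.H17.LW

open Finset Function

variable {ι K : Type} [DecidableEq ι] [Zero K] [DecidableEq K]

/-- A finite set `Λ` of weights such that every weight with a nonzero coordinate `j ∈ s` can be
changed at this coordinate, to another nonzero value: the number of the coordinates in `s` which are
not zero on `Λ` is at most half of the number of the weights. -/
theorem comb_card (s : Finset ι) : ∀ Λ : Finset (ι → K),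
    (∀ j ∈ s, ∀ l ∈ Λ, l j ≠ 0 → ∃ a : K, a ≠ 0 ∧ a ≠ l j ∧ update l j a ∈ Λ) →
    2 * (s.filter fun j => ∃ l ∈ Λ, l j ≠ 0).card ≤ Λ.card := by
  classical
  induction s using Finset.induction_on with
  | empty => intro Λ _; simp
  | insert i s hi ih =>
    intro Λ hΛ
    let Λ0 := Λ.filter fun l => l i = 0
    let Λ1 := Λ.filter fun l => l i ≠ 0
    have hcard : Λ0.card + Λ1.card = Λ.card := Finset.card_filter_add_card_filter_not _
    let π : (ι → K) → (ι → K) := fun l => update l i 0
    have hne : ∀ j ∈ s, j ≠ i := fun j hj h => hi (h ▸ hj)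
    have h0 := ih Λ0 (by
      intro j hj l hl hlj
      obtain ⟨hl1, hl2⟩ := Finset.mem_filter.1 hl
      obtain ⟨a, ha, hal, hmem⟩ := hΛ j (Finset.mem_insert_of_mem hj) l hl1 hlj
      refine ⟨a, ha, hal, Finset.mem_filter.2 ⟨hmem, ?_⟩⟩
      rw [update_of_ne (hne j hj).symm]
      exact hl2)
    have h1 := ih (Λ1.image π) (by
      intro j hj l hl hlj
      obtain ⟨l', hl', rfl⟩ := Finset.mem_image.1 hl
      obtain ⟨hl1, hl2⟩ := Finset.mem_filter.1 hl'
      have h2 : π l' j = l' j := update_of_ne (hne j hj) _ _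
      rw [h2] at hlj ⊢
      obtain ⟨a, ha, hal, hmem⟩ := hΛ j (Finset.mem_insert_of_mem hj) l' hl1 hlj
      refine ⟨a, ha, hal, Finset.mem_image.2 ⟨update l' j a, Finset.mem_filter.2 ⟨hmem, ?_⟩, ?_⟩⟩
      · rw [update_of_ne (hne j hj).symm]
        exact hl2
      · exact update_comm (hne j hj) _ _ _)
    have hfib : 2 * (Λ1.image π).card ≤ Λ1.card := by
      rw [mul_comm, Finset.card_eq_sum_card_image π Λ1, ← smul_eq_mul, ← Finset.sum_const]
      refine Finset.sum_le_sum ?_
      intro l hl
      obtain ⟨l', hl', rfl⟩ := Finset.mem_image.1 hl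
      obtain ⟨hl1, hl2⟩ := Finset.mem_filter.1 hl'
      obtain ⟨a, ha, hal, hmem⟩ := hΛ i (Finset.mem_insert_self _ _) l' hl1 hl2
      refine Finset.one_lt_card.2 ⟨l', Finset.mem_filter.2 ⟨hl', rfl⟩, update l' i a,
        Finset.mem_filter.2 ⟨Finset.mem_filter.2 ⟨hmem, ?_⟩, ?_⟩, ?_⟩
      · rw [update_self]; exact ha
      · change update (update l' i a) i 0 = update l' i 0
        rw [update_idem]
      · intro h
        apply hal
        rw [h, update_self]
    -- the coordinates in `s`
    have hsub : (s.filter fun j => ∃ l ∈ Λ, l j ≠ 0) ⊆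
        (s.filter fun j => ∃ l ∈ Λ0, l j ≠ 0) ∪ (s.filter fun j => ∃ l ∈ Λ1.image π, l j ≠ 0) := by
      intro j hj
      obtain ⟨hj1, l, hl, hlj⟩ := Finset.mem_filter.1 hj
      by_cases h : l i = 0
      · exact Finset.mem_union_left _ (Finset.mem_filter.2 ⟨hj1, l, Finset.mem_filter.2 ⟨hl, h⟩, hlj⟩)
      · refine Finset.mem_union_right _ (Finset.mem_filter.2 ⟨hj1, π l,
          Finset.mem_image_of_mem _ (Finset.mem_filter.2 ⟨hl, h⟩), ?_⟩)
        change update l i 0 j ≠ 0
        rw [update_of_ne (hne j hj1)]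
        exact hlj
    have hu := (Finset.card_le_card hsub).trans (Finset.card_union_le _ _)
    rw [Finset.filter_insert]
    by_cases hc : ∃ l ∈ Λ, l i ≠ 0
    · rw [if_pos hc, Finset.card_insert_of_notMem (fun h => hi (Finset.mem_filter.1 h).1)]
      obtain ⟨l, hl, hli⟩ := hc
      have hpos : 0 < (Λ1.image π).card :=
        Finset.card_pos.2 ⟨_, Finset.mem_image_of_mem _ (Finset.mem_filter.2 ⟨hl, hli⟩)⟩
      by_cases hz : (s.filter fun j => ∃ l ∈ Λ1.image π, l j ≠ 0).card = 0
      · omega
      · omega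
    · rw [if_neg hc]
      omega

end Pool.Agent.T6.H17.LW
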