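import Mathlib
import Pool.Agent.T6.H17.LW.Comb

/-!
# Commuting `sl₂`-triples act on a space of large dimension
-/

set_option autoImplicit false

namespace Pool.Agent.T6.H17.LW

open Module Function Set

variable {K : Type} [Field K] [CharZero K] [IsAlgClosed K] {M : Type} [AddCommGroup M] [Module K M]
  [FiniteDimensional K M]

/-- A commutator with exactly one possible nonzero eigenvalue does not have it. -/
theorem exists_other_eigenvalue (e f h : End K M) (heq : e * f - f * e = h) {l : K} (hl : l ≠ 0)
    (hev : h.HasEigenvalue l) : ∃ a : K, a ≠ 0 ∧ a ≠ l ∧ h.HasEigenvalue a := by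
  classical
  by_contra hcon
  push Not at hcon
  have htr : LinearMap.trace K M h = 0 := by
    rw [← heq, map_sub, LinearMap.trace_mul_comm, sub_self]
  rw [End.trace_eq_sum_roots_charpoly_of_splits (IsAlgClosed.splits _)] at htr
  have hmem : ∀ a ∈ h.charpoly.roots, a ≠ l → a = 0 := by
    intro a ha hal
    by_contra h0
    refine hcon a h0 hal ?_
    rw [End.hasEigenvalue_iff_isRoot_charpoly]
    exact (Polynomial.mem_roots'.1 ha).2
  have hlmem : l ∈ h.charpoly.roots := by
    rw [Polynomial.mem_roots (LinearMap.charpoly_monic h).ne_zero]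
    exact (End.hasEigenvalue_iff_isRoot_charpoly h l).1 hev
  rw [← Multiset.filter_add_not (fun a => a = l) h.charpoly.roots, Multiset.sum_add] at htr
  have h1 : (Multiset.filter (fun a => a = l) h.charpoly.roots).sum =
      (Multiset.card (Multiset.filter (fun a => a = l) h.charpoly.roots)) • l := by
    have h4 : Multiset.filter (fun a => a = l) h.charpoly.roots =
        Multiset.replicate (Multiset.card (Multiset.filter (fun a => a = l) h.charpoly.roots)) l :=
      Multiset.eq_replicate_card.2 fun a ha => (Multiset.mem_filter.1 ha).2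
    conv_lhs => rw [h4]
    rw [Multiset.sum_replicate]
  have h2 : (Multiset.filter (fun a => ¬ a = l) h.charpoly.roots).sum = 0 := by
    refine Multiset.sum_eq_zero fun a ha => ?_
    obtain ⟨ha1, ha2⟩ := Multiset.mem_filter.1 ha
    exact hmem a ha1 ha2
  rw [h1, h2, add_zero, nsmul_eq_mul] at htr
  have h3 : ((Multiset.card (Multiset.filter (fun a => a = l) h.charpoly.roots) : ℕ) : K) ≠ 0 :=
    Nat.cast_ne_zero.2 (Multiset.card_pos_iff_exists_mem.2
      ⟨l, (Multiset.mem_filter (p := fun a => a = l)).2 ⟨hlmem, rfl⟩⟩).ne'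
  exact (mul_ne_zero h3 hl) htr

/-- If `ι` indexes commuting nonzero `sl₂`-triples of operators on `M`, the dimension of `M` is at least
twice the number of the triples. -/
theorem two_mul_card_le {ι : Type} [Fintype ι] (E F H : ι → End K M)
    (hEF : ∀ i, E i * F i - F i * E i = H i) (hHE : ∀ i, H i * E i = E i * (H i + 2))
    (hEH : ∀ i j, i ≠ j → Commute (E i) (H j)) (hFH : ∀ i j, i ≠ j → Commute (F i) (H j))
    (hHH : ∀ i j, Commute (H i) (H j)) (hne : ∀ i, E i ≠ 0) :
    2 * Fintype.card ι ≤ finrank K M := by
  classical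
  let W : (ι → K) → Submodule K M := fun χ => ⨅ i, (H i).maxGenEigenspace (χ i)
  have hmaps : ∀ i j φ, MapsTo (H i) ((H j).maxGenEigenspace φ) ((H j).maxGenEigenspace φ) :=
    fun i j φ => End.mapsTo_maxGenEigenspace_of_comm (hHH j i) φ
  have hind : iSupIndep W := End.independent_iInf_maxGenEigenspace_of_forall_mapsTo H hmaps
  have htop : ⨆ χ, W χ = ⊤ :=
    End.iSup_iInf_maxGenEigenspace_eq_top_of_forall_mapsTo H hmaps
      fun i => End.iSup_maxGenEigenspace_eq_top (H i)
  let _ : Fintype {χ // W χ ≠ ⊥} := hind.fintypeNeBotOfFiniteDimensional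
  let Λ : Finset (ι → K) := Finset.univ.image (fun χ : {χ // W χ ≠ ⊥} => χ.1)
  have hΛ : ∀ χ, χ ∈ Λ ↔ W χ ≠ ⊥ := by
    intro χ
    constructor
    · intro h
      obtain ⟨χ', -, rfl⟩ := Finset.mem_image.1 h
      exact χ'.2
    · intro h
      exact Finset.mem_image.2 ⟨⟨χ, h⟩, Finset.mem_univ _, rfl⟩
  have hcard : Λ.card ≤ finrank K M := by
    refine le_trans Finset.card_image_le ?_
    rw [Finset.card_univ]
    exact hind.subtype_ne_bot_le_finrank
  -- the exchange property
  have hex : ∀ j ∈ (Finset.univ : Finset ι), ∀ l ∈ Λ, l j ≠ 0 →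
      ∃ a : K, a ≠ 0 ∧ a ≠ l j ∧ update l j a ∈ Λ := by
    intro j _ l hl hlj
    rw [hΛ] at hl
    let N : Submodule K M := ⨅ i, ⨅ (_ : i ≠ j), (H i).maxGenEigenspace (l i)
    have hN : ∀ x, x ∈ N ↔ ∀ i, i ≠ j → x ∈ (H i).maxGenEigenspace (l i) := by
      intro x
      simp only [N, Submodule.mem_iInf]
    have hst : ∀ f : End K M, (∀ i, i ≠ j → Commute f (H i)) → ∀ x ∈ N, f x ∈ N := by
      intro f hf x hx
      rw [hN] at hx ⊢
      intro i hi
      exact End.mapsTo_maxGenEigenspace_of_comm (hf i hi).symm (l i) (hx i hi)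
    have hE := hst (E j) (fun i hi => hEH j i hi.symm)
    have hF := hst (F j) (fun i hi => hFH j i hi.symm)
    have hH := hst (H j) (fun i _ => hHH j i)
    obtain ⟨x, hx, hx0⟩ := Submodule.exists_mem_ne_zero_of_ne_bot hl
    have hxi : ∀ i, x ∈ (H i).maxGenEigenspace (l i) := fun i => (Submodule.mem_iInf _).1 hx i
    have hxN : x ∈ N := (hN x).2 fun i _ => hxi i
    let Hj : End K N := (H j).restrict hH
    have hev : Hj.HasEigenvalue (l j) := by
      have h1 : (⟨x, hxN⟩ : N) ∈ Hj.maxGenEigenspace (l j) := by
        rw [End.mem_maxGenEigenspace]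
        obtain ⟨k, hk⟩ := End.mem_maxGenEigenspace _ _ _ |>.1 (hxi j)
        refine ⟨k, ?_⟩
        apply Subtype.ext
        have h2 : ∀ (n : ℕ) (y : N), (((Hj - l j • (1 : End K N)) ^ n) y : M) =
            ((H j - l j • (1 : End K M)) ^ n) (y : M) := by
          intro n
          induction n with
          | zero => intro y; rfl
          | succ n ih =>
            intro y
            rw [pow_succ, pow_succ, End.mul_apply, End.mul_apply, ih]
            rfl
        rw [h2]
        exact hk
      by_contra hcon
      have h3 : Hj.maxGenEigenspace (l j) = ⊥ := by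
        by_contra h4
        apply hcon
        rw [End.hasEigenvalue_iff]
        intro h5
        apply h4
        rw [Submodule.eq_bot_iff]
        intro y hy
        obtain ⟨k, hk⟩ := End.mem_maxGenEigenspace _ _ _ |>.1 hy
        have h6 : ∀ (n : ℕ) (z : N), (((Hj - l j • (1 : End K N)) ^ n) z) = 0 → z = 0 := by
          intro n
          induction n with
          | zero => intro z hz; exact hz
          | succ n ih =>
            intro z hz
            rw [pow_succ, End.mul_apply] at hz
            have h7 := ih _ hz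
            rw [← Submodule.mem_bot K, ← h5, End.mem_eigenspace_iff]
            rw [LinearMap.sub_apply, sub_eq_zero] at h7
            exact h7
        exact h6 k y hk
      rw [h3, Submodule.mem_bot] at h1
      exact hx0 (congrArg Subtype.val h1)
    obtain ⟨a, ha0, hal, hae⟩ := exists_other_eigenvalue ((E j).restrict hE) ((F j).restrict hF)
      Hj (by
        ext y
        have h8 := LinearMap.congr_fun (hEF j) (y : M)
        exact h8) hlj hev
    refine ⟨a, ha0, hal, (hΛ _).2 ?_⟩
    obtain ⟨y, hy⟩ := hae.exists_hasEigenvector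
    refine Submodule.ne_bot_iff _ |>.2 ⟨(y : M), ?_, fun h => hy.2 (Subtype.ext h)⟩
    rw [Submodule.mem_iInf]
    intro i
    by_cases hi : i = j
    · subst hi
      rw [update_self, End.mem_maxGenEigenspace]
      refine ⟨1, ?_⟩
      rw [pow_one, LinearMap.sub_apply, sub_eq_zero]
      have h9 := congrArg Subtype.val (End.mem_eigenspace_iff.1 hy.1)
      exact h9
    · rw [update_of_ne hi]
      exact (hN _).1 y.2 i hi
  -- all coordinates occur
  have hall : (Finset.univ.filter fun j => ∃ l ∈ Λ, l j ≠ 0) = Finset.univ := by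
    rw [Finset.filter_eq_self]
    intro j _
    by_contra hcon
    push Not at hcon
    have h1 : ∀ x : M, x ∈ (H j).maxGenEigenspace 0 := by
      have h2 : (⊤ : Submodule K M) ≤ (H j).maxGenEigenspace 0 := by
        rw [← htop, iSup_le_iff]
        intro χ
        by_cases hχ : W χ = ⊥
        · rw [hχ]; exact bot_le
        · have h3 := hcon χ ((hΛ χ).2 hχ)
          rw [← h3]
          exact iInf_le _ j
      exact fun x => h2 Submodule.mem_top
    apply hne j
    ext x
    have h2 : E j x ∈ (H j).maxGenEigenspace 2 := by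
      obtain ⟨k, hk⟩ := End.mem_maxGenEigenspace _ _ _ |>.1 (h1 x)
      rw [End.mem_maxGenEigenspace]
      refine ⟨k, ?_⟩
      have h3 : ∀ (n : ℕ), ((H j - (2 : K) • (1 : End K M)) ^ n) * E j = E j * (H j) ^ n := by
        intro n
        induction n with
        | zero => simp
        | succ n ih =>
          have h4 : (H j - (2 : K) • (1 : End K M)) * E j = E j * H j := by
            have h5 : ((2 : K) • (1 : End K M)) = (2 : End K M) := by
              ext y
              rw [LinearMap.smul_apply, End.one_apply, two_smul, ← one_add_one_eq_two,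
                LinearMap.add_apply, End.one_apply]
            rw [h5, sub_mul, hHE, mul_add, two_mul, mul_two]
            abel
          rw [pow_succ, mul_assoc, h4, ← mul_assoc, ih, mul_assoc, ← pow_succ]
      have h4 := LinearMap.congr_fun (h3 k) x
      rw [End.mul_apply, End.mul_apply] at h4
      rw [h4]
      have h5 : (H j ^ k) x = 0 := by
        rw [zero_smul, sub_zero] at hk
        exact hk
      rw [h5, map_zero]
    have h3 : Disjoint ((H j).maxGenEigenspace 0) ((H j).maxGenEigenspace 2) :=
      End.disjoint_genEigenspace (H j) (two_ne_zero).symm ⊤ ⊤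
    have h4 := (Submodule.disjoint_def.1 h3) (E j x) (h1 _) h2
    rw [h4]
    rfl
  have hfin := comb_card (Finset.univ : Finset ι) Λ hex
  rw [hall, Finset.card_univ] at hfin
  exact hfin.trans hcard

theorem two_mul_card_le' (m : ℕ) (E F H : Fin m → End K M)
    (hEF : ∀ i, E i * F i - F i * E i = H i) (hHE : ∀ i, H i * E i = E i * (H i + 2))
    (hEH : ∀ i j, i ≠ j → Commute (E i) (H j)) (hFH : ∀ i j, i ≠ j → Commute (F i) (H j))
    (hHH : ∀ i j, Commute (H i) (H j)) (hne : ∀ i, E i ≠ 0) :
    2 * m ≤ finrank K M := by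
  have h1 := two_mul_card_le E F H hEF hHE hEH hFH hHH hne
  rwa [Fintype.card_fin] at h1

end Pool.Agent.T6.H17.LW
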