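import Mathlib
import Pool.Agent.T6.H17.LW.Irr
import Pool.Agent.T6.H17.LW.Sl2
import Pool.Agent.W522.U.B1

/-!
# The symplectic Lie algebra
-/

set_option autoImplicit false
set_option linter.unusedSectionVars false

namespace Pool.Agent.T6.H17.LW

open Module Finset Function

variable {K : Type} [Field K] {V : Type} [AddCommGroup V] [Module K V]

/-- The symplectic Lie algebra. -/
def spL (ω : V →ₗ[K] V →ₗ[K] K) : Submodule K (End K V) where
  carrier := {Y | ∀ x y, ω (Y x) y + ω x (Y y) = 0}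
  zero_mem' := fun x y => by simp
  add_mem' := by
    intro X Y hX hY x y
    have h1 := hX x y
    have h2 := hY x y
    rw [LinearMap.add_apply, LinearMap.add_apply, map_add, map_add, LinearMap.add_apply]
    linear_combination h1 + h2
  smul_mem' := by
    intro c X hX x y
    have h1 := hX x y
    rw [LinearMap.smul_apply, LinearMap.smul_apply, map_smul, map_smul, LinearMap.smul_apply,
      smul_eq_mul, smul_eq_mul]
    linear_combination c * h1

theorem mem_spL {ω : V →ₗ[K] V →ₗ[K] K} {Y : End K V} :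
    Y ∈ spL ω ↔ ∀ x y, ω (Y x) y + ω x (Y y) = 0 := Iff.rfl

variable {ω : V →ₗ[K] V →ₗ[K] K} (halt : ∀ v, ω v v = 0) (hnd : ∀ u, (∀ v, ω u v = 0) → u = 0)

include halt in
theorem skew (x y : V) : ω x y = -ω y x := by
  have h1 := halt (x + y)
  simp only [map_add, LinearMap.add_apply, halt, zero_add, add_zero] at h1
  linear_combination h1

include halt in
theorem SS_mem_spL (u w : V) : SS ω u w ∈ spL ω := by
  rw [mem_spL]
  intro x y
  rw [SS_apply, SS_apply]
  simp only [map_add, LinearMap.add_apply, map_smul, LinearMap.smul_apply, smul_eq_mul]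
  rw [skew halt x w, skew halt x u]
  ring

theorem spL_br {X Y : End K V} (hX : X ∈ spL ω) (hY : Y ∈ spL ω) : X * Y - Y * X ∈ spL ω := by
  rw [mem_spL] at hX hY ⊢
  intro x y
  simp only [LinearMap.sub_apply, End.mul_apply, map_sub]
  linear_combination hX (Y x) y - hY (X x) y + hX x (Y y) - hY x (X y)

/-- the bracket with a generator -/
theorem br_SS {Y : End K V} (hY : Y ∈ spL ω) (u w : V) :
    Y * SS ω u w - SS ω u w * Y = SS ω (Y u) w + SS ω u (Y w) := by
  rw [mem_spL] at hY
  ext v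
  rw [LinearMap.sub_apply, LinearMap.add_apply, End.mul_apply, End.mul_apply, SS_apply, SS_apply,
    SS_apply, SS_apply, map_add, map_smul, map_smul]
  have h1 := hY u v
  have h2 := hY w v
  have h3 : ω u (Y v) = -ω (Y u) v := by linear_combination h1
  have h4 : ω w (Y v) = -ω (Y w) v := by linear_combination h2
  rw [h3, h4]
  module

theorem SS_add_left (u u' w : V) : SS ω (u + u') w = SS ω u w + SS ω u' w := by
  ext v
  rw [LinearMap.add_apply, SS_apply, SS_apply, SS_apply, map_add, LinearMap.add_apply]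
  module

theorem SS_smul_left (c : K) (u w : V) : SS ω (c • u) w = c • SS ω u w := by
  ext v
  rw [LinearMap.smul_apply, SS_apply, SS_apply, map_smul, LinearMap.smul_apply, smul_eq_mul]
  module

theorem SS_add_right (u w w' : V) : SS ω u (w + w') = SS ω u w + SS ω u w' := by
  rw [SS_comm, SS_add_left, SS_comm ω w, SS_comm ω w']

theorem SS_smul_right (c : K) (u w : V) : SS ω u (c • w) = c • SS ω u w := by
  rw [SS_comm, SS_smul_left, SS_comm]

include halt hnd in
theorem exists_pair {a : V} (ha : a ≠ 0) : ∃ b, ω b a = 1 := by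
  obtain ⟨b, hb⟩ : ∃ b, ω a b ≠ 0 := by
    by_contra hcon
    push Not at hcon
    exact ha (hnd a hcon)
  refine ⟨(ω b a)⁻¹ • b, ?_⟩
  have h1 : ω b a ≠ 0 := by
    rw [skew halt]
    exact neg_ne_zero.2 hb
  rw [map_smul, LinearMap.smul_apply, smul_eq_mul, inv_mul_cancel₀ h1]

variable [CharZero K]

include halt hnd in
/-- A nonzero subspace stable under brackets with all the generators contains all the generators. -/
theorem SS_mem_of_ne {𝔨 : Submodule K (End K V)} (h𝔨 : 𝔨 ≤ spL ω)
    (hid : ∀ u w, ∀ Z ∈ 𝔨, SS ω u w * Z - Z * SS ω u w ∈ 𝔨) (hne : 𝔨 ≠ ⊥) (u w : V) :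
    SS ω u w ∈ 𝔨 := by
  obtain ⟨X, hX, hX0⟩ := Submodule.exists_mem_ne_zero_of_ne_bot hne
  have hXs := h𝔨 hX
  -- the bracket
  have hbr : ∀ Z ∈ 𝔨, ∀ u w, SS ω (Z u) w + SS ω u (Z w) ∈ 𝔨 := by
    intro Z hZ u w
    rw [← br_SS (h𝔨 hZ)]
    have h1 := hid u w Z hZ
    rw [← neg_sub]
    exact 𝔨.neg_mem h1
  obtain ⟨a, ha⟩ : ∃ a, ω (X a) a ≠ 0 := by
    by_contra hcon
    push Not at hcon
    apply hX0
    ext x
    rw [LinearMap.zero_apply]
    refine hnd _ fun y => ?_
    have h1 := hcon (x + y)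
    simp only [map_add, LinearMap.add_apply, hcon, zero_add, add_zero] at h1
    have h2 := hXs y x
    rw [skew halt y (X x)] at h2
    have h3 : (2 : K) * ω (X x) y = 0 := by linear_combination h1 - h2
    exact (mul_eq_zero.1 h3).resolve_left two_ne_zero
  have ha0 : a ≠ 0 := by
    rintro rfl
    rw [map_zero] at ha
    exact ha (by simp)
  have h2 : (2 : K) ≠ 0 := two_ne_zero
  -- the semisimple element
  have hH : SS ω (X a) a ∈ 𝔨 := by
    have h3 := hbr X hX a a
    rw [SS_comm ω a (X a), ← two_smul K] at h3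
    exact (Submodule.smul_mem_iff _ h2).1 h3
  have haa : SS ω a a ∈ 𝔨 := by
    have h3 := hbr _ hH a a
    have h4 : SS ω (X a) a a = ω (X a) a • a := by
      rw [SS_apply, halt, zero_smul, add_zero]
    rw [h4, SS_smul_left, SS_smul_right, ← two_smul K, smul_smul] at h3
    exact (Submodule.smul_mem_iff _ (mul_ne_zero h2 ha)).1 h3
  obtain ⟨c, hc⟩ := exists_pair halt hnd ha0
  have hidd : ∀ Z ∈ 𝔨, ∀ u w p q, Z = SS ω p q →
      SS ω (SS ω u w p) q + SS ω p (SS ω u w q) ∈ 𝔨 := by
    intro Z hZ u w p q hpq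
    have h3 := hid u w Z hZ
    rwa [hpq, br_SS (SS_mem_spL halt u w)] at h3
  have hca : SS ω c a ∈ 𝔨 := by
    have h3 := hidd _ haa c c a a rfl
    have h4 : SS ω c c a = (2 : K) • c := by
      rw [SS_apply, hc, one_smul, two_smul]
    rw [h4, SS_comm ω a, ← two_smul K, SS_smul_left, smul_smul] at h3
    exact (Submodule.smul_mem_iff _ (mul_ne_zero h2 h2)).1 h3
  have hba : ∀ b, SS ω b a ∈ 𝔨 := by
    intro b
    have h3 := hidd _ haa c b a a rfl
    have h4 : SS ω c b a = b + ω b a • c := by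
      rw [SS_apply, hc, one_smul]
    rw [h4, SS_comm ω a, ← two_smul K, Submodule.smul_mem_iff _ h2, SS_add_left, SS_smul_left] at h3
    exact (Submodule.add_mem_iff_left _ (𝔨.smul_mem _ hca)).1 h3
  have hbc : ∀ b, SS ω b c ∈ 𝔨 := by
    intro b
    have h3 := hidd _ (hba b) c c b a rfl
    have h4 : SS ω c c a = (2 : K) • c := by
      rw [SS_apply, hc, one_smul, two_smul]
    rw [h4, Submodule.add_mem_iff_right _ (hba _), SS_smul_right, Submodule.smul_mem_iff _ h2] at h3
    exact h3
  have h3 := hidd _ (hba u) c w u a rfl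
  have h4 : SS ω c w a = w + ω w a • c := by
    rw [SS_apply, hc, one_smul]
  rw [h4, Submodule.add_mem_iff_right _ (hba _), SS_add_right, SS_smul_right] at h3
  exact (Submodule.add_mem_iff_left _ (𝔨.smul_mem _ (hbc u))).1 h3

variable [FiniteDimensional K V]

include halt hnd in
theorem exists_symp : ∃ (m : ℕ) (e : Basis (Fin m ⊕ Fin m) K V),
    (∀ x y, y ≠ x.swap → ω (e x) (e y) = 0) ∧ (∀ x, ω (e x) (e x.swap) ≠ 0) := by
  obtain ⟨m, e, -, -, -, h1, h2⟩ := Pool.Agent.W522.U.exists_sb ω (skew halt) halt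
    (C := Unit) (fun _ => ⊤) id (fun _ => rfl) (fun c d hcd => absurd (Subsingleton.elim _ _) hcd)
    hnd (by simp)
  exact ⟨m, e, h1, h2⟩

include halt hnd in
/-- The symplectic Lie algebra is spanned by the generators. -/
theorem spL_le_span : spL ω ≤ Submodule.span K {Z : End K V | ∃ u w, Z = SS ω u w} := by
  obtain ⟨m, e, h1, h2⟩ := exists_symp halt hnd
  intro Y hY
  -- the formula
  have h3 : Y = (2 : K)⁻¹ • ∑ x : Fin m ⊕ Fin m, (ω (e x.swap) (e x))⁻¹ •
      SS ω (e x.swap) (Y (e x)) := by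
    refine e.ext fun z => ?_
    rw [LinearMap.smul_apply, LinearMap.sum_apply]
    have h4 : ∀ x : Fin m ⊕ Fin m, ((ω (e x.swap) (e x))⁻¹ • SS ω (e x.swap) (Y (e x))) (e z) =
        (if x = z then Y (e z) else 0) +
          ((ω (e x.swap) (e x))⁻¹ * ω (Y (e x)) (e z)) • e x.swap := by
      intro x
      rw [LinearMap.smul_apply, SS_apply, smul_add, smul_smul, smul_smul]
      congr 1
      by_cases hx : x = z
      · subst hx
        rw [if_pos rfl, inv_mul_cancel₀, one_smul]
        have h5 := h2 x.swap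
        rwa [Sum.swap_swap] at h5
      · rw [if_neg hx, h1 x.swap z (by rw [Sum.swap_swap]; exact Ne.symm hx), mul_zero, zero_smul]
    rw [Finset.sum_congr rfl fun x _ => h4 x, Finset.sum_add_distrib, Finset.sum_ite_eq',
      if_pos (Finset.mem_univ z)]
    -- the second sum
    have h5 : ∑ x : Fin m ⊕ Fin m, ((ω (e x.swap) (e x))⁻¹ * ω (Y (e x)) (e z)) • e x.swap =
        Y (e z) := by
      rw [← sub_eq_zero]
      refine hnd _ fun y => ?_
      have h6 : ∀ y, ω (∑ x : Fin m ⊕ Fin m, ((ω (e x.swap) (e x))⁻¹ * ω (Y (e x)) (e z)) •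
          e x.swap) y = ω (Y (e z)) y := by
        intro y
        have h7 : ω (∑ x : Fin m ⊕ Fin m, ((ω (e x.swap) (e x))⁻¹ * ω (Y (e x)) (e z)) •
          e x.swap) = ω (Y (e z)) := by
          refine e.ext fun t => ?_
          rw [map_sum, LinearMap.sum_apply, Finset.sum_eq_single t]
          · rw [map_smul, LinearMap.smul_apply, smul_eq_mul]
            have h8 : ω (e t.swap) (e t) ≠ 0 := by
              have h5 := h2 t.swap
              rwa [Sum.swap_swap] at h5
            have h9 := hY (e t) (e z)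
            rw [skew halt (e t) (Y (e z))] at h9
            field_simp
            linear_combination h9
          · intro x _ hx
            rw [map_smul, LinearMap.smul_apply, h1 x.swap t (by
              rw [Sum.swap_swap]
              exact Ne.symm hx), smul_zero]
          · intro h
            exact absurd (Finset.mem_univ _) h
        rw [h7]
      rw [map_sub, LinearMap.sub_apply, h6, sub_self]
    rw [h5, ← two_smul K, smul_smul, inv_mul_cancel₀ two_ne_zero, one_smul]
  rw [h3]
  refine Submodule.smul_mem _ _ (Submodule.sum_mem _ fun x _ => Submodule.smul_mem _ _ ?_)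
  exact Submodule.subset_span ⟨_, _, rfl⟩

include halt hnd in
theorem spL_simple : Simple (spL ω) := by
  intro 𝔨 h𝔨 hid
  by_cases hne : 𝔨 = ⊥
  · exact Or.inl hne
  · refine Or.inr (le_antisymm h𝔨 ?_)
    refine (spL_le_span halt hnd).trans ?_
    rw [Submodule.span_le]
    rintro _ ⟨u, w, rfl⟩
    exact SS_mem_of_ne halt hnd h𝔨 (fun u w Z hZ => hid _ (SS_mem_spL halt u w) Z hZ) hne u w

include halt hnd in
theorem spL_perfect : Perfect (spL ω) := by
  intro Y hY
  have h1 : ∀ u, SS ω u u ∈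
      Submodule.span K {Z : End K V | ∃ A ∈ spL ω, ∃ B ∈ spL ω, Z = A * B - B * A} := by
    intro u
    by_cases hu : u = 0
    · have h2 : SS ω u u = 0 := by
        ext v
        rw [hu, SS_apply, smul_zero, add_zero]
        rfl
      rw [h2]
      exact Submodule.zero_mem _
    · obtain ⟨b, hb⟩ := exists_pair halt hnd hu
      have h2 := br_SS (SS_mem_spL halt u b) u u
      have h3 : SS ω u b u = u := by
        rw [SS_apply, halt, zero_smul, zero_add, hb, one_smul]
      rw [h3, ← two_smul K] at h2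
      have h4 : SS ω u u = (2 : K)⁻¹ • (SS ω u b * SS ω u u - SS ω u u * SS ω u b) := by
        rw [h2, smul_smul, inv_mul_cancel₀ two_ne_zero, one_smul]
      rw [h4]
      exact Submodule.smul_mem _ _ (Submodule.subset_span
        ⟨_, SS_mem_spL halt u b, _, SS_mem_spL halt u u, rfl⟩)
  have h2 : ∀ u w, SS ω u w = (2 : K)⁻¹ • (SS ω (u + w) (u + w) - SS ω u u - SS ω w w) := by
    intro u w
    rw [SS_add_left, SS_add_right, SS_add_right, SS_comm ω w u]
    have h3 : SS ω u u + SS ω u w + (SS ω u w + SS ω w w) - SS ω u u - SS ω w w =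
        (2 : K) • SS ω u w := by
      rw [two_smul]
      abel
    rw [h3, smul_smul, inv_mul_cancel₀ two_ne_zero, one_smul]
  refine (Submodule.span_le.2 ?_ : Submodule.span K {Z : End K V | ∃ u w, Z = SS ω u w} ≤ _)
    (spL_le_span halt hnd hY)
  rintro _ ⟨u, w, rfl⟩
  change SS ω u w ∈ Submodule.span K _
  rw [h2]
  exact Submodule.smul_mem _ _ (Submodule.sub_mem _ (Submodule.sub_mem _ (h1 _) (h1 _)) (h1 _))

variable [IsAlgClosed K]

include halt hnd in
/-- The symplectic Lie algebra does not act on spaces of smaller dimension. -/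
theorem spL_small (M : Type) [AddCommGroup M] [Module K M] [FiniteDimensional K M]
    (φ : spL ω →ₗ[K] End K M) (hφ : ∀ Y Z W : spL ω, (W : End K V) = Y * Z - Z * Y →
      φ W = φ Y * φ Z - φ Z * φ Y) (hinj : Injective φ) : finrank K V ≤ finrank K M := by
  obtain ⟨m, e, h1, h2⟩ := exists_symp halt hnd
  rw [Module.finrank_eq_card_basis e, Fintype.card_sum, Fintype.card_fin, ← two_mul]
  -- the vectors
  let p : Fin m → V := fun i => e (Sum.inl i)
  let c : Fin m → K := fun i => (ω (e (Sum.inl i)) (e (Sum.inr i)))⁻¹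
  let q : Fin m → V := fun i => c i • e (Sum.inr i)
  have hp : ∀ i, p i = e (Sum.inl i) := fun i => rfl
  have hq : ∀ i, q i = c i • e (Sum.inr i) := fun i => rfl
  have hpp : ∀ i j, ω (p i) (p j) = 0 := fun i j => h1 _ _ (by simp)
  have hqq : ∀ i j, ω (q i) (q j) = 0 := by
    intro i j
    rw [hq, hq, map_smul, map_smul, LinearMap.smul_apply,
      h1 (Sum.inr i) (Sum.inr j) (by simp), smul_zero, smul_zero]
  have hpq : ∀ i j, i ≠ j → ω (p i) (q j) = 0 := by
    intro i j hij
    rw [hp, hq, map_smul, h1 (Sum.inl i) (Sum.inr j) (by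
      intro h
      exact hij (Sum.inr_injective h).symm), smul_zero]
  have hpq1 : ∀ i, ω (p i) (q i) = 1 := by
    intro i
    rw [hp, hq, map_smul, smul_eq_mul]
    exact inv_mul_cancel₀ (h2 (Sum.inl i))
  have hqp : ∀ i j, i ≠ j → ω (q i) (p j) = 0 := fun i j hij => by
    rw [skew halt, hpq j i (Ne.symm hij), neg_zero]
  have hqp1 : ∀ i, ω (q i) (p i) = -1 := fun i => by rw [skew halt, hpq1]
  clear_value q p
  let s : V → V → spL ω := fun u w => ⟨SS ω u w, SS_mem_spL halt u w⟩
  let A : Fin m → spL ω := fun i => (2 : K)⁻¹ • s (p i) (p i)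
  let B : Fin m → spL ω := fun i => -((2 : K)⁻¹ • s (q i) (q i))
  let C : Fin m → spL ω := fun i => -s (p i) (q i)
  have hA : ∀ i, ((A i : spL ω) : End K V) = (2 : K)⁻¹ • SS ω (p i) (p i) := fun i => rfl
  have hB : ∀ i, ((B i : spL ω) : End K V) = -((2 : K)⁻¹ • SS ω (q i) (q i)) := fun i => rfl
  have hC : ∀ i, ((C i : spL ω) : End K V) = -SS ω (p i) (q i) := fun i => rfl
  have hS := fun u w => SS_mem_spL (ω := ω) halt u w
  have hAB : ∀ i, ((C i : spL ω) : End K V) = A i * B i - B i * A i := by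
    intro i
    rw [hA, hB, hC]
    have h3 := br_SS (hS (p i) (p i)) (q i) (q i)
    have h4 : SS ω (p i) (p i) (q i) = (2 : K) • p i := by
      rw [SS_apply, hpq1, one_smul, two_smul]
    rw [h4, SS_smul_left, SS_smul_right, SS_comm ω (q i) (p i)] at h3
    have h5 : (2 : K)⁻¹ • SS ω (p i) (p i) * -((2 : K)⁻¹ • SS ω (q i) (q i)) -
        -((2 : K)⁻¹ • SS ω (q i) (q i)) * (2 : K)⁻¹ • SS ω (p i) (p i) =
        -(((2 : K)⁻¹ * (2 : K)⁻¹) • (SS ω (p i) (p i) * SS ω (q i) (q i) -
          SS ω (q i) (q i) * SS ω (p i) (p i))) := by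
      rw [mul_neg, neg_mul, smul_mul_smul_comm, smul_mul_smul_comm, smul_sub]
      abel
    rw [h5, h3, ← add_smul, smul_smul]
    have h6 : (2 : K)⁻¹ * (2 : K)⁻¹ * (2 + 2) = 1 := by
      norm_num
    rw [h6, one_smul]
  have hCA : ∀ i, (((2 : K) • A i : spL ω) : End K V) = C i * A i - A i * C i := by
    intro i
    have h3 := br_SS (hS (p i) (q i)) (p i) (p i)
    have h4 : SS ω (p i) (q i) (p i) = -p i := by
      rw [SS_apply, hpp, hqp1, zero_smul, zero_add, neg_smul, one_smul]
    have h4' : SS ω (-p i) (p i) + SS ω (p i) (-p i) = -((2 : K) • SS ω (p i) (p i)) := by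
      rw [← neg_one_smul K (p i), SS_smul_left, SS_smul_right]
      module
    rw [h4, h4'] at h3
    have h5 : ((C i : spL ω) : End K V) * A i - A i * C i =
        -((2 : K)⁻¹ • (SS ω (p i) (q i) * SS ω (p i) (p i) - SS ω (p i) (p i) * SS ω (p i) (q i))) := by
      rw [hA, hC, neg_mul, mul_neg, mul_smul_comm, smul_mul_assoc, smul_sub]
      abel
    rw [h5, h3, smul_neg, neg_neg]
    change (2 : K) • ((2 : K)⁻¹ • SS ω (p i) (p i)) = _
    rw [smul_smul, smul_smul, mul_comm]
  -- commutation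
  have hcomm : ∀ X Y : spL ω, (X : End K V) * Y - Y * X = 0 → Commute (φ X) (φ Y) := by
    intro X Y h
    have h3 := hφ X Y 0 (by rw [h]; rfl)
    rw [map_zero] at h3
    exact (sub_eq_zero.1 h3.symm)
  have hscomm : ∀ u w u' w', ω u u' = 0 → ω u w' = 0 → ω w u' = 0 → ω w w' = 0 →
      Commute (φ (s u w)) (φ (s u' w')) := by
    intro u w u' w' h3 h4 h5 h6
    apply hcomm
    change SS ω u w * SS ω u' w' - SS ω u' w' * SS ω u w = 0
    rw [br_SS (hS u w), SS_apply, SS_apply, h3, h4, h5, h6]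
    ext v
    simp [SS_apply]
  have hEE : ∀ i, φ (A i) = (2 : K)⁻¹ • φ (s (p i) (p i)) := fun i => map_smul _ _ _
  have hFF : ∀ i, φ (B i) = -((2 : K)⁻¹ • φ (s (q i) (q i))) := fun i => by
    change φ (-((2 : K)⁻¹ • s (q i) (q i))) = _
    rw [map_neg, map_smul]
  have hHH : ∀ i, φ (C i) = -φ (s (p i) (q i)) := fun i => map_neg _ _
  refine two_mul_card_le' m (fun i => φ (A i)) (fun i => φ (B i)) (fun i => φ (C i)) ?_ ?_ ?_ ?_ ?_ ?_
  · intro i
    exact (hφ (A i) (B i) (C i) (hAB i)).symm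
  · intro i
    have h3 := hφ (C i) (A i) ((2 : K) • A i) (hCA i)
    rw [map_smul] at h3
    change φ (C i) * φ (A i) = φ (A i) * (φ (C i) + 2)
    have h4 : φ (A i) * (φ (C i) + 2) = φ (A i) * φ (C i) + (2 : K) • φ (A i) := by
      rw [mul_add, mul_two, two_smul]
    rw [h4, h3]
    abel
  · intro i j hij
    change Commute (φ (A i)) (φ (C j))
    rw [hEE, hHH]
    exact ((hscomm _ _ _ _ (hpp _ _) (hpq _ _ hij) (hpp _ _) (hpq _ _ hij)).smul_left _).neg_right
  · intro i j hij
    change Commute (φ (B i)) (φ (C j))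
    rw [hFF, hHH]
    exact (((hscomm _ _ _ _ (hqp _ _ hij) (hqq _ _) (hqp _ _ hij) (hqq _ _)).smul_left
      _).neg_left).neg_right
  · intro i j
    change Commute (φ (C i)) (φ (C j))
    by_cases hij : i = j
    · rw [hij]
    · rw [hHH, hHH]
      exact ((hscomm _ _ _ _ (hpp _ _) (hpq _ _ hij) (hqp _ _ hij) (hqq _ _)).neg_left).neg_right
  · intro i h0
    have h3 : A i = 0 := hinj (by rw [map_zero]; exact h0)
    have h4 := congrArg (fun X : spL ω => ω ((X : End K V) (q i)) (q i)) h3
    change ω (((2 : K)⁻¹ • SS ω (p i) (p i)) (q i)) (q i) = ω ((0 : End K V) (q i)) (q i) at h4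
    rw [LinearMap.smul_apply, SS_apply, hpq1, one_smul, ← two_smul K, smul_smul,
      inv_mul_cancel₀ two_ne_zero, one_smul, hpq1, LinearMap.zero_apply, map_zero,
      LinearMap.zero_apply] at h4
    exact one_ne_zero h4

end Pool.Agent.T6.H17.LW
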