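import Mathlib
import Pool.Agent.T6.H17.LW.Sp

/-!
# Isomorphisms of symplectic Lie algebras come from similitudes
-/

set_option autoImplicit false
set_option linter.unusedSectionVars false

namespace Pool.Agent.T6.H17.LW

open Module Finset Function

variable {K : Type} [Field K] [CharZero K] {V : Type} [AddCommGroup V] [Module K V]
  {ω : V →ₗ[K] V →ₗ[K] K} (halt : ∀ v, ω v v = 0) (hnd : ∀ u, (∀ v, ω u v = 0) → u = 0)

theorem four_ne : (4 : K) ≠ 0 := by norm_num

include hnd in
theorem SS_self_ne {u : V} (hu : u ≠ 0) : SS ω u u ≠ 0 := by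
  intro h
  obtain ⟨v, hv⟩ : ∃ v, ω u v ≠ 0 := by
    by_contra hcon
    push Not at hcon
    exact hu (hnd u hcon)
  have h1 := LinearMap.congr_fun h v
  rw [SS_apply, ← two_smul K, smul_smul, LinearMap.zero_apply] at h1
  rcases smul_eq_zero.1 h1 with h2 | h2
  · exact (mul_ne_zero two_ne_zero hv) h2
  · exact hu h2

include hnd in
theorem eq_zero_of_SS {u w : V} (hu : u ≠ 0) (h : SS ω u w = 0) : w = 0 := by
  obtain ⟨v, hv⟩ : ∃ v, ω u v ≠ 0 := by
    by_contra hcon
    push Not at hcon
    exact hu (hnd u hcon)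
  have h1 := LinearMap.congr_fun h v
  rw [SS_apply, LinearMap.zero_apply] at h1
  have h2 : w = (-(ω u v)⁻¹ * ω w v) • u := by
    have h3 := congrArg (fun z => (ω u v)⁻¹ • z) h1
    simp only [smul_add, smul_zero, smul_smul, inv_mul_cancel₀ hv, one_smul] at h3
    rw [neg_mul, neg_smul]
    exact eq_neg_of_add_eq_zero_left h3
  by_contra hw
  have h4 : -(ω u v)⁻¹ * ω w v ≠ 0 := by
    intro h5
    rw [h5, zero_smul] at h2
    exact hw h2
  rw [h2, SS_smul_right] at h
  exact (smul_ne_zero h4 (SS_self_ne hnd hu)) h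

include halt in
/-- brackets of squares -/
theorem br_sq (a b : V) : SS ω a a * SS ω b b - SS ω b b * SS ω a a =
    (4 * ω a b) • SS ω a b := by
  rw [br_SS (SS_mem_spL halt a a)]
  have h1 : SS ω a a b = (2 * ω a b) • a := by
    rw [SS_apply]
    module
  rw [h1, SS_smul_left, SS_smul_right, SS_comm ω b a]
  module

include halt in
/-- squares are extremal -/
theorem extremal (a : V) {Y : End K V} (hY : Y ∈ spL ω) :
    SS ω a a * (SS ω a a * Y - Y * SS ω a a) - (SS ω a a * Y - Y * SS ω a a) * SS ω a a =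
      (-4 * ω a (Y a)) • SS ω a a := by
  have h1 : SS ω a a * Y - Y * SS ω a a = (-2 : K) • SS ω (Y a) a := by
    rw [← neg_sub, br_SS hY, SS_comm ω a (Y a)]
    module
  have h2 : SS ω a a a = 0 := by
    rw [SS_apply, halt, zero_smul, add_zero]
  have h3 : SS ω a a (Y a) = (2 * ω a (Y a)) • a := by
    rw [SS_apply]
    module
  have h4 : SS ω (Y a) (0 : V) = 0 := by
    have h5 := SS_smul_right (ω := ω) (0 : K) (Y a) 0
    rwa [zero_smul, zero_smul] at h5
  rw [h1, mul_smul_comm, smul_mul_assoc, ← smul_sub, br_SS (SS_mem_spL halt a a), h2, h3, h4,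
    SS_smul_left]
  module

variable [FiniteDimensional K V] [IsAlgClosed K]

include halt hnd in
/-- extremal elements are squares -/
theorem square_of_extremal {X : End K V} (hX : X ∈ spL ω)
    (hext : ∀ Y ∈ spL ω, ∃ κ : K, X * (X * Y - Y * X) - (X * Y - Y * X) * X = κ • X) :
    ∃ a, X = SS ω a a := by
  by_cases hX0 : X = 0
  · refine ⟨0, ?_⟩
    ext v
    rw [hX0, SS_apply, smul_zero, add_zero, LinearMap.zero_apply]
  -- the double bracket with a square
  have hbb : ∀ b, ∃ κ : K, (2 : K) • (SS ω (X (X b)) b + SS ω (X b) (X b)) = κ • X := by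
    intro b
    obtain ⟨κ, h⟩ := hext (SS ω b b) (SS_mem_spL halt b b)
    refine ⟨κ, ?_⟩
    rw [← h]
    have h1 : X * SS ω b b - SS ω b b * X = (2 : K) • SS ω (X b) b := by
      rw [br_SS hX, SS_comm ω b (X b), two_smul]
    rw [h1, mul_smul_comm, smul_mul_assoc, ← smul_sub, br_SS hX]
  -- no nonzero eigenvalues
  have hev : ∀ l : K, l ≠ 0 → ¬ X.HasEigenvalue l := by
    intro l hl h
    obtain ⟨b, hb⟩ := h.exists_hasEigenvector
    have hXb : X b = l • b := hb.apply_eq_smul
    have hb0 : b ≠ 0 := hb.2
    obtain ⟨κ, h1⟩ := hbb b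
    rw [hXb, map_smul, hXb] at h1
    simp only [SS_smul_left, SS_smul_right, smul_smul] at h1
    have h2 := LinearMap.congr_fun h1 b
    have h3 : SS ω b b b = 0 := by
      rw [SS_apply, halt, zero_smul, add_zero]
    simp only [LinearMap.smul_apply, LinearMap.add_apply, h3, smul_zero, add_zero, hXb,
      smul_smul] at h2
    have hκ : κ = 0 := by
      by_contra hκ
      exact (smul_ne_zero (mul_ne_zero hκ hl) hb0) h2.symm
    rw [hκ, zero_smul, ← add_smul, smul_smul] at h1
    have h4 : (2 : K) * (l * l + l * l) ≠ 0 := by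
      have h5 : (2 : K) * (l * l + l * l) = 4 * (l * l) := by ring
      rw [h5]
      exact mul_ne_zero four_ne (mul_ne_zero hl hl)
    exact (smul_ne_zero h4 (SS_self_ne hnd hb0)) h1
  -- nilpotence
  have hnil : IsNilpotent X := by
    have h1 : ⨆ β, X.maxGenEigenspace β = ⊤ := Module.End.iSup_maxGenEigenspace_eq_top X
    have h2 : X.maxGenEigenspace 0 = ⊤ := by
      rw [eq_top_iff, ← h1]
      refine iSup_le fun β => ?_
      by_cases hβ : β = 0
      · rw [hβ]
      · have h3 : X.maxGenEigenspace β = ⊥ := by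
          by_contra h4
          have hV : Nontrivial V := by
            by_contra hV
            rw [not_nontrivial_iff_subsingleton] at hV
            exact h4 (Subsingleton.elim _ _)
          rw [Module.End.maxGenEigenspace_eq_genEigenspace_finrank] at h4
          exact hev β hβ ((Module.End.hasGenEigenvalue_iff_hasEigenvalue finrank_pos).1 h4)
        rw [h3]
        exact bot_le
    refine ⟨finrank K V, ?_⟩
    apply LinearMap.ext
    intro x
    have h3 : x ∈ X.maxGenEigenspace 0 := by rw [h2]; trivial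
    rw [Module.End.maxGenEigenspace_eq_genEigenspace_finrank, Module.End.mem_genEigenspace_nat,
      zero_smul, sub_zero] at h3
    exact h3
  -- a vector
  obtain ⟨b, hb1, hb2⟩ : ∃ b, X b ≠ 0 ∧ X (X b) = 0 := by
    classical
    have hn := Nat.find_spec hnil
    have hmin := fun m hm => Nat.find_min hnil (m := m) hm
    set n := Nat.find hnil with hndef
    have hn2 : 2 ≤ n := by
      by_contra hlt
      have h1 : n = 0 ∨ n = 1 := by omega
      rcases h1 with h1 | h1
      · rw [h1, pow_zero] at hn
        apply hX0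
        rw [← one_mul X, hn, zero_mul]
      · rw [h1, pow_one] at hn
        exact hX0 hn
    have h1 : X ^ (n - 1) ≠ 0 := hmin (n - 1) (by omega)
    obtain ⟨v, hv⟩ : ∃ v, (X ^ (n - 1)) v ≠ 0 := by
      by_contra hcon
      push Not at hcon
      exact h1 (LinearMap.ext hcon)
    refine ⟨(X ^ (n - 2)) v, ?_, ?_⟩
    · rw [← Module.End.mul_apply, ← pow_succ']
      have h2 : n - 2 + 1 = n - 1 := by omega
      rwa [h2]
    · rw [← Module.End.mul_apply X (X ^ (n - 2)), ← pow_succ', ← Module.End.mul_apply, ← pow_succ']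
      have h2 : n - 2 + 1 + 1 = n := by omega
      rw [h2, hn, LinearMap.zero_apply]
  obtain ⟨κ, h1⟩ := hbb b
  have h4 : SS ω (0 : V) b = 0 := by
    have h5 := SS_smul_left (ω := ω) (0 : K) 0 b
    rwa [zero_smul, zero_smul] at h5
  rw [hb2, h4, zero_add] at h1
  have hκ : κ ≠ 0 := by
    rintro rfl
    rw [zero_smul] at h1
    exact (smul_ne_zero two_ne_zero (SS_self_ne hnd hb1)) h1
  obtain ⟨s, hs⟩ := IsAlgClosed.exists_pow_nat_eq (κ⁻¹ * 2) (n := 2) (by norm_num)
  refine ⟨s • X b, ?_⟩
  rw [SS_smul_left, SS_smul_right, smul_smul, ← pow_two, hs, mul_smul, h1, smul_smul,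
    inv_mul_cancel₀ hκ, one_smul]

variable {V' : Type} [AddCommGroup V'] [Module K V'] [FiniteDimensional K V']
  {ω' : V' →ₗ[K] V' →ₗ[K] K} (halt' : ∀ v, ω' v v = 0) (hnd' : ∀ u, (∀ v, ω' u v = 0) → u = 0)

include halt hnd halt' hnd' in
/-- An isomorphism of symplectic Lie algebras comes from an isometry. -/
theorem exists_isometry (φ : spL ω →ₗ[K] spL ω') (hφ : ∀ Y Z W : spL ω,
    (W : End K V) = Y * Z - Z * Y → (φ W : End K V') = φ Y * φ Z - φ Z * φ Y)
    (hinj : Injective φ) (hsurj : Surjective φ) :
    ∃ T : V →ₗ[K] V', Surjective T ∧ (∀ a b, ω' (T a) (T b) = ω a b) ∧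
      ∀ a b, (φ ⟨SS ω a b, SS_mem_spL halt a b⟩ : End K V') = SS ω' (T a) (T b) := by
  classical
  let s : V → V → spL ω := fun a b => ⟨SS ω a b, SS_mem_spL halt a b⟩
  have hs : ∀ a b, (s a b : End K V) = SS ω a b := fun a b => rfl
  -- the map on squares
  have h1 : ∀ a, ∃ a', (φ (s a a) : End K V') = SS ω' a' a' := by
    intro a
    refine square_of_extremal halt' hnd' (φ (s a a)).2 fun Y' hY' => ?_
    obtain ⟨Y, hY⟩ := hsurj ⟨Y', hY'⟩
    refine ⟨-4 * ω a ((Y : End K V) a), ?_⟩
    let Z : spL ω := ⟨SS ω a a * Y - Y * SS ω a a, spL_br (SS_mem_spL halt a a) Y.2⟩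
    have e1 : (φ Z : End K V') = φ (s a a) * φ Y - φ Y * φ (s a a) := hφ (s a a) Y Z rfl
    have e2 := hφ (s a a) Z ((-4 * ω a ((Y : End K V) a)) • s a a) (by
      change (-4 * ω a ((Y : End K V) a)) • SS ω a a = _
      rw [← extremal halt a Y.2])
    rw [map_smul] at e2
    have e3 : (φ Y : End K V') = Y' := by rw [hY]
    rw [e1, e3] at e2
    exact e2.symm
  choose t ht using h1
  have ht0 : ∀ a, a ≠ 0 → t a ≠ 0 := by
    intro a ha h
    have e1 := ht a
    have e2 : SS ω' (0 : V') 0 = 0 := by
      have h5 := SS_smul_left (ω := ω') (0 : K) 0 0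
      rwa [zero_smul, zero_smul] at h5
    rw [h, e2] at e1
    have e3 : φ (s a a) = 0 := Subtype.ext e1
    have e4 : s a a = 0 := hinj (by rw [e3, map_zero])
    exact SS_self_ne hnd ha (congrArg Subtype.val e4)
  -- brackets
  have h3 : ∀ a b, (4 * ω a b) • (φ (s a b) : End K V') =
      (4 * ω' (t a) (t b)) • SS ω' (t a) (t b) := by
    intro a b
    have e1 := hφ (s a a) (s b b) ((4 * ω a b) • s a b) (br_sq halt a b).symm
    rw [map_smul, ht, ht, br_sq halt'] at e1
    exact e1
  have h2 : ∀ a b, ω' (t a) (t b) ^ 2 = ω a b ^ 2 := by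
    intro a b
    by_cases ha : a = 0
    · have e1 : t a = 0 := by
        by_contra hta
        have e2 := ht a
        have e3 : s a a = 0 := by
          apply Subtype.ext
          change SS ω a a = 0
          rw [ha]
          have h5 := SS_smul_left (ω := ω) (0 : K) 0 0
          rwa [zero_smul, zero_smul] at h5
        rw [e3, map_zero] at e2
        exact SS_self_ne hnd' hta e2.symm
      rw [e1, ha, map_zero, map_zero, LinearMap.zero_apply, LinearMap.zero_apply]
    · have e1 := extremal halt a (SS_mem_spL halt b b)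
      have e1' := extremal halt' (t a) (SS_mem_spL halt' (t b) (t b))
      let Z : spL ω := ⟨SS ω a a * SS ω b b - SS ω b b * SS ω a a,
        spL_br (SS_mem_spL halt a a) (SS_mem_spL halt b b)⟩
      have e2 : (φ Z : End K V') = φ (s a a) * φ (s b b) - φ (s b b) * φ (s a a) :=
        hφ (s a a) (s b b) Z rfl
      have e3 := hφ (s a a) Z ((-4 * ω a (SS ω b b a)) • s a a) (by
        change (-4 * ω a (SS ω b b a)) • SS ω a a = _
        rw [← e1])
      rw [map_smul, e2, ht, ht, e1'] at e3
      have e4 : (-4 * ω a (SS ω b b a)) = -4 * ω' (t a) (SS ω' (t b) (t b) (t a)) := by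
        have e5 : ((-4 * ω a (SS ω b b a)) - (-4 * ω' (t a) (SS ω' (t b) (t b) (t a)))) •
            SS ω' (t a) (t a) = 0 := by
          rw [sub_smul, sub_eq_zero]
          have e3' : (-4 * ω a (SS ω b b a)) • (φ (s a a) : End K V') =
            (-4 * ω' (t a) (SS ω' (t b) (t b) (t a))) • SS ω' (t a) (t a) := e3
          rw [ht] at e3'
          exact e3'
        rcases smul_eq_zero.1 e5 with e6 | e6
        · exact sub_eq_zero.1 e6
        · exact absurd e6 (SS_self_ne hnd' (ht0 a ha))
      rw [SS_apply, SS_apply, map_add, map_add, map_smul, map_smul, smul_eq_mul, smul_eq_mul,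
        skew halt b a, skew halt' (t b) (t a)] at e4
      have e5 : (8 : K) * (ω' (t a) (t b) ^ 2 - ω a b ^ 2) = 0 := by linear_combination -e4
      have e6 := (mul_eq_zero.1 e5).resolve_left (by norm_num)
      exact sub_eq_zero.1 e6
  obtain ⟨m, e, he1, he2⟩ := exists_symp halt hnd
  let c : V := ∑ x, e x
  have hc : ∀ y, ω c (e y) ≠ 0 := by
    intro y
    have e1 : ω c (e y) = ω (e y.swap) (e y) := by
      change ω (∑ x, e x) (e y) = _
      rw [map_sum, LinearMap.sum_apply, Finset.sum_eq_single y.swap]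
      · intro x _ hx
        apply he1
        intro h
        apply hx
        rw [h, Sum.swap_swap]
      · intro h
        exact absurd (Finset.mem_univ _) h
    rw [e1]
    have e2 := he2 y.swap
    rwa [Sum.swap_swap] at e2
  -- the linear map
  let ε : Fin m ⊕ Fin m → K := fun y => ω' (t c) (t (e y)) / ω c (e y)
  have hε : ∀ y, ε y ^ 2 = 1 := by
    intro y
    change (ω' (t c) (t (e y)) / ω c (e y)) ^ 2 = 1
    rw [div_pow, h2, div_self (pow_ne_zero 2 (hc y))]
  let T : V →ₗ[K] V' := e.constr K fun y => ε y • t (e y)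
  have hTe : ∀ y, T (e y) = ε y • t (e y) := fun y => e.constr_basis K _ y
  have hcy : ∀ y, (φ (s c (e y)) : End K V') = SS ω' (t c) (T (e y)) := by
    intro y
    have e1 := h3 c (e y)
    rw [hTe, SS_smul_right]
    have e2 : (4 : K) * ω c (e y) ≠ 0 := mul_ne_zero four_ne (hc y)
    have e3 : (4 : K) * ω' (t c) (t (e y)) = (4 * ω c (e y)) * ε y := by
      change (4 : K) * ω' (t c) (t (e y)) = (4 * ω c (e y)) * (ω' (t c) (t (e y)) / ω c (e y))
      have e4 := hc y
      field_simp
    rw [e3, mul_smul (4 * ω c (e y)) (ε y)] at e1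
    exact smul_right_injective _ e2 e1
  -- linearity
  let P : V →ₗ[K] End K V' :=
    { toFun := fun a => (φ (s c a) : End K V')
      map_add' := fun a b => by
        have e1 : s c (a + b) = s c a + s c b := Subtype.ext (SS_add_right c a b)
        rw [e1, map_add]
        rfl
      map_smul' := fun l a => by
        have e1 : s c (l • a) = l • s c a := Subtype.ext (SS_smul_right l c a)
        rw [e1, map_smul]
        rfl }
  let P' : V →ₗ[K] End K V' :=
    { toFun := fun a => SS ω' (t c) (T a)
      map_add' := fun a b => by rw [map_add, SS_add_right]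
      map_smul' := fun l a => by rw [map_smul, SS_smul_right]; rfl }
  have hPP : P = P' := e.ext hcy
  have hca : ∀ a, (φ (s c a) : End K V') = SS ω' (t c) (T a) := fun a => LinearMap.congr_fun hPP a
  rcases subsingleton_or_nontrivial V with hV | hV
  · -- the trivial case
    refine ⟨0, ?_, fun a b => ?_, fun a b => ?_⟩
    · intro u
      refine ⟨0, ?_⟩
      rw [map_zero]
      by_contra hu
      obtain ⟨Y, hY⟩ := hsurj ⟨SS ω' u u, SS_mem_spL halt' u u⟩
      have e1 : Y = 0 := by
        apply Subtype.ext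
        exact LinearMap.ext fun x => Subsingleton.elim _ _
      rw [e1, map_zero] at hY
      exact SS_self_ne hnd' (Ne.symm hu) (congrArg Subtype.val hY).symm
    · rw [Subsingleton.elim a 0]
      simp
    · have e1 : (⟨SS ω a b, SS_mem_spL halt a b⟩ : spL ω) = 0 := by
        apply Subtype.ext
        exact LinearMap.ext fun x => Subsingleton.elim _ _
      rw [e1, map_zero, LinearMap.zero_apply, LinearMap.zero_apply]
      have h5 := SS_smul_left (ω := ω') (0 : K) 0 0
      rw [zero_smul, zero_smul] at h5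
      rw [h5]
      rfl
  obtain ⟨y0⟩ : Nonempty (Fin m ⊕ Fin m) := e.index_nonempty
  have hc0 : c ≠ 0 := by
    intro h
    apply hc y0
    rw [h, map_zero, LinearMap.zero_apply]
  have htc := ht0 c hc0
  have hsub : ∀ (x y z : V'), SS ω' x y = SS ω' x z → x ≠ 0 → y = z := by
    intro x y z h hx
    have e1 : SS ω' x (y + (-1 : K) • z) = 0 := by
      rw [SS_add_right, SS_smul_right, h]
      module
    have e2 := eq_zero_of_SS hnd' hx e1
    have e3 : y + (-1 : K) • z = y - z := by module
    rw [e3] at e2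
    exact sub_eq_zero.1 e2
  have hTc : T c = t c := by
    apply hsub (t c) _ _ _ htc
    rw [← hca, ht]
  -- squares outside of the hyperplane
  have hsq1 : ∀ a, ω c a ≠ 0 → (φ (s a a) : End K V') = SS ω' (T a) (T a) := by
    intro a ha
    have e1 := h3 c a
    rw [hca, ← SS_smul_right, ← SS_smul_right] at e1
    have e2 := hsub _ _ _ e1 htc
    have e3 : T a = (ω' (t c) (t a) / ω c a) • t a := by
      have e4 : (4 : K) * ω c a ≠ 0 := mul_ne_zero four_ne ha
      apply smul_right_injective _ e4
      change (4 * ω c a) • T a = (4 * ω c a) • (ω' (t c) (t a) / ω c a) • t a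
      rw [e2, smul_smul]
      congr 1
      field_simp
    rw [ht, e3, SS_smul_left, SS_smul_right, smul_smul, ← pow_two, div_pow, h2,
      div_self (pow_ne_zero 2 ha), one_smul]
  have hsadd : ∀ a b, s (a + b) (a + b) = s a a + (2 : K) • s a b + s b b := by
    intro a b
    apply Subtype.ext
    change SS ω (a + b) (a + b) = SS ω a a + (2 : K) • SS ω a b + SS ω b b
    rw [SS_add_left, SS_add_right, SS_add_right, SS_comm ω b a, two_smul]
    abel
  have hssub : ∀ a b, s (a - b) (a - b) = s a a - (2 : K) • s a b + s b b := by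
    intro a b
    apply Subtype.ext
    change SS ω (a - b) (a - b) = SS ω a a - (2 : K) • SS ω a b + SS ω b b
    have e1 : a - b = a + (-1 : K) • b := by module
    rw [e1, SS_add_left, SS_add_right, SS_add_right, SS_smul_left, SS_smul_right, SS_smul_left,
      SS_smul_right, SS_comm ω b a]
    module
  have hSadd : ∀ a b, SS ω' (a + b) (a + b) = SS ω' a a + (2 : K) • SS ω' a b + SS ω' b b := by
    intro a b
    rw [SS_add_left, SS_add_right, SS_add_right, SS_comm ω' b a, two_smul]
    abel
  have hSsub : ∀ a b, SS ω' (a - b) (a - b) = SS ω' a a - (2 : K) • SS ω' a b + SS ω' b b := by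
    intro a b
    have e1 : a - b = a + (-1 : K) • b := by module
    rw [e1, SS_add_left, SS_add_right, SS_add_right, SS_smul_left, SS_smul_right, SS_smul_left,
      SS_smul_right, SS_comm ω' b a]
    module
  have hsq : ∀ a, (φ (s a a) : End K V') = SS ω' (T a) (T a) := by
    intro a
    by_cases ha : ω c a = 0
    · have e0 := hc y0
      have e1 := hsq1 (a + e y0) (by rw [map_add, ha, zero_add]; exact e0)
      have e2 := hsq1 (a - e y0) (by rw [map_sub, ha, zero_sub]; exact neg_ne_zero.2 e0)
      have e3 := hsq1 (e y0) e0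
      rw [hsadd, map_add T, hSadd, map_add φ, map_add φ, map_smul φ] at e1
      rw [hssub, map_sub T, hSsub, map_add φ, map_sub φ, map_smul φ] at e2
      have e1' : (φ (s a a) : End K V') + (2 : K) • (φ (s a (e y0)) : End K V') +
          (φ (s (e y0) (e y0)) : End K V') = _ := e1
      have e2' : (φ (s a a) : End K V') - (2 : K) • (φ (s a (e y0)) : End K V') +
          (φ (s (e y0) (e y0)) : End K V') = _ := e2
      rw [e3] at e1' e2'
      have e4 : (2 : K) • (φ (s a a) : End K V') = (2 : K) • SS ω' (T a) (T a) := by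
        have e5 := congrArg₂ (· + ·) e1' e2'
        have e6 : (2 : K) • (φ (s a a) : End K V') + (2 : K) • SS ω' (T (e y0)) (T (e y0)) =
            (2 : K) • SS ω' (T a) (T a) + (2 : K) • SS ω' (T (e y0)) (T (e y0)) := by
          have e7 : ∀ (A B C D E : End K V'), (A + B + C) + (A - B + C) = (D + E + C) + (D - E + C) →
              (2 : K) • A + (2 : K) • C = (2 : K) • D + (2 : K) • C := by
            intro A B C D E h
            have e8 : (2 : K) • A + (2 : K) • C = (A + B + C) + (A - B + C) := by
              rw [two_smul, two_smul]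
              abel
            have e9 : (2 : K) • D + (2 : K) • C = (D + E + C) + (D - E + C) := by
              rw [two_smul, two_smul]
              abel
            rw [e8, e9, h]
          exact e7 _ _ _ _ _ e5
        exact add_right_cancel e6
      exact smul_right_injective _ (two_ne_zero (α := K)) e4
    · exact hsq1 a ha
  have hall : ∀ a b, (φ (s a b) : End K V') = SS ω' (T a) (T b) := by
    intro a b
    have e1 := hsq (a + b)
    rw [hsadd, map_add T, hSadd, map_add φ, map_add φ, map_smul φ] at e1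
    have e1' : (φ (s a a) : End K V') + (2 : K) • (φ (s a b) : End K V') +
          (φ (s b b) : End K V') = _ := e1
    rw [hsq, hsq] at e1'
    have e2 := add_left_cancel (add_right_cancel e1')
    exact smul_right_injective _ (two_ne_zero (α := K)) e2
  refine ⟨T, ?_, ?_, hall⟩
  · intro u
    by_cases hu : u = 0
    · exact ⟨0, by rw [map_zero, hu]⟩
    obtain ⟨Y, hY⟩ := hsurj ⟨SS ω' u u, SS_mem_spL halt' u u⟩
    -- the range
    have e1 : ∀ Y : End K V, ∀ (h : Y ∈ Submodule.span K {Z : End K V | ∃ u w, Z = SS ω u w})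
        (hY : Y ∈ spL ω) (z : V'), (φ ⟨Y, hY⟩ : End K V') z ∈ LinearMap.range T := by
      intro Y h
      induction h using Submodule.span_induction with
      | mem Y h =>
        obtain ⟨p, q, rfl⟩ := h
        intro hY z
        have e2 : (φ ⟨SS ω p q, hY⟩ : End K V') = SS ω' (T p) (T q) := hall p q
        rw [e2, SS_apply]
        exact Submodule.add_mem _ (Submodule.smul_mem _ _ ⟨q, rfl⟩)
          (Submodule.smul_mem _ _ ⟨p, rfl⟩)
      | zero =>
        intro hY z
        have e2 : (⟨0, hY⟩ : spL ω) = 0 := rfl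
        rw [e2, map_zero]
        exact Submodule.zero_mem _
      | add Y Z hY1 hZ1 ihY ihZ =>
        intro hYZ z
        have hsp : Submodule.span K {Z : End K V | ∃ u w, Z = SS ω u w} ≤ spL ω := by
          rw [Submodule.span_le]
          rintro _ ⟨u, w, rfl⟩
          exact SS_mem_spL halt u w
        have e2 : (⟨Y + Z, hYZ⟩ : spL ω) = ⟨Y, hsp hY1⟩ + ⟨Z, hsp hZ1⟩ := rfl
        rw [e2, map_add]
        exact Submodule.add_mem _ (ihY _ z) (ihZ _ z)
      | smul l Y hY1 ihY =>
        intro hYZ z
        have hsp : Submodule.span K {Z : End K V | ∃ u w, Z = SS ω u w} ≤ spL ω := by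
          rw [Submodule.span_le]
          rintro _ ⟨u, w, rfl⟩
          exact SS_mem_spL halt u w
        have e2 : (⟨l • Y, hYZ⟩ : spL ω) = l • ⟨Y, hsp hY1⟩ := rfl
        rw [e2, map_smul]
        exact Submodule.smul_mem _ _ (ihY _ z)
    obtain ⟨v, hv⟩ : ∃ v, ω' u v ≠ 0 := by
      by_contra hcon
      push Not at hcon
      exact hu (hnd' u hcon)
    have e2 := e1 Y (spL_le_span halt hnd Y.2) Y.2 v
    have e3 : (φ ⟨(Y : End K V), Y.2⟩ : End K V') = SS ω' u u := by
      have e4 : (⟨(Y : End K V), Y.2⟩ : spL ω) = Y := rfl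
      rw [e4, hY]
    rw [e3, SS_apply, ← add_smul] at e2
    have e4 : ω' u v + ω' u v ≠ 0 := by
      rw [← two_mul]
      exact mul_ne_zero two_ne_zero hv
    exact (Submodule.smul_mem_iff _ e4).1 e2
  · intro a b
    by_cases ha : a = 0
    · rw [ha, map_zero, map_zero, map_zero, LinearMap.zero_apply, LinearMap.zero_apply]
    by_cases hb : b = 0
    · rw [hb, map_zero, map_zero, map_zero]
    have e1 := hφ (s a a) (s b b) ((4 * ω a b) • s a b) (br_sq halt a b).symm
    rw [map_smul, hall, hall, br_sq halt'] at e1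
    have e1' : (4 * ω a b) • (φ (s a b) : End K V') = _ := e1
    rw [hall] at e1'
    have e2 : SS ω' (T a) (T b) ≠ 0 := by
      rw [← hall]
      intro h
      have e3 : φ (s a b) = 0 := Subtype.ext h
      have e4 : s a b = 0 := hinj (by rw [e3, map_zero])
      exact hb (eq_zero_of_SS hnd ha (congrArg Subtype.val e4))
    have e3 := smul_left_injective _ e2 e1'
    have e4 : (4 : K) ≠ 0 := four_ne
    exact (mul_left_cancel₀ e4 e3).symm

end Pool.Agent.T6.H17.LW
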