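import Mathlib
import Pool.Agent.T6.H17.LW.Iso

/-!
# Symplectic representations and Lie words
-/

set_option autoImplicit false
set_option linter.unusedSectionVars false

namespace Pool.Agent.T6.H17.LW

open Module Finset Function

variable {K : Type} [Field K] [CharZero K] [IsAlgClosed K] {Γ : Type} [Group Γ]
  {V : Type} [AddCommGroup V] [Module K V] [FiniteDimensional K V]

/-- A character as a representation. -/
def chr (χ : Γ →* K) : Representation K Γ K where
  toFun g := χ g • (1 : End K K)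
  map_one' := by rw [map_one, one_smul]
  map_mul' g h := by rw [map_mul, smul_mul_smul_comm, one_mul]

theorem chr_apply (χ : Γ →* K) (g : Γ) (x : K) : chr χ g x = χ g * x := rfl

variable {ρ : Representation K Γ V} {ω : V →ₗ[K] V →ₗ[K] K} {χ : Γ →* K}
  (hω : ∀ g u v, ω (ρ g u) (ρ g v) = χ g * ω u v)

/-- the form as a multilinear map -/
noncomputable def bm (ω : V →ₗ[K] V →ₗ[K] K) : MultilinearMap K (fun _ : Fin 2 => V) K where
  toFun v := ω (v 0) (v 1)
  map_update_add' {_} v i x y := by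
    fin_cases i
    · simp [update_of_ne]
    · simp [update_of_ne]
  map_update_smul' {_} v i c x := by
    fin_cases i
    · simp [update_of_ne]
    · simp [update_of_ne]

theorem bm_apply (ω : V →ₗ[K] V →ₗ[K] K) (v : Fin 2 → V) : bm ω v = ω (v 0) (v 1) := rfl

/-- the scalar by which a word acts on the line of a character -/
noncomputable def sc (χ : Γ →* K) (w : Wd K Γ) : K := act (chr χ) w 1

theorem act_chr (w : Wd K Γ) (x : K) : act (chr χ) w x = sc χ w * x := by
  have h1 := map_smul (act (chr χ) w) x (1 : K)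
  rw [smul_eq_mul, mul_one, smul_eq_mul] at h1
  rw [h1, sc, mul_comm]

include hω in
/-- the words act by similitudes -/
theorem act_gsp (w : Wd K Γ) (x y : V) :
    ω (act ρ w x) y + ω x (act ρ w y) = sc χ w * ω x y := by
  have h1 := act_multi (S := Fin 2) (T := fun _ => V) (σ := fun _ => ρ) (τ := chr χ) (h := bm ω)
    ⟨⊤, inferInstance, fun g _ v => by rw [bm_apply, bm_apply, hω, chr_apply]⟩ w
  have h2 := congrArg (fun F : MultilinearMap K (fun _ : Fin 2 => V) K => F ![x, y]) h1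
  simp only [der_apply, Fin.sum_univ_two, bm_apply, LinearMap.compMultilinearMap_apply,
    act_chr] at h2
  simpa [update_of_ne] using h2

/-- The symplectic part of a word. -/
noncomputable def sp (ρ : Representation K Γ V) (χ : Γ →* K) (w : Wd K Γ) : End K V :=
  act ρ w - (sc χ w / 2) • 1

include hω in
theorem sp_mem (w : Wd K Γ) : sp ρ χ w ∈ spL ω := by
  rw [mem_spL]
  intro x y
  have h1 := act_gsp hω w x y
  rw [sp, LinearMap.sub_apply, LinearMap.sub_apply, LinearMap.smul_apply, LinearMap.smul_apply,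
    map_sub, map_sub, LinearMap.sub_apply, map_smul, map_smul, LinearMap.smul_apply]
  simp only [Module.End.one_apply, smul_eq_mul]
  linear_combination h1

theorem sc_add (a b : Wd K Γ) : sc χ (.add a b) = sc χ a + sc χ b := rfl

theorem sc_smul (c : K) (a : Wd K Γ) : sc χ (.smul c a) = c * sc χ a := rfl

theorem sc_br (a b : Wd K Γ) : sc χ (.br a b) = 0 := by
  have h1 : sc χ (.br a b) = act (chr χ) a (act (chr χ) b 1) - act (chr χ) b (act (chr χ) a 1) := rfl
  rw [h1, act_chr, act_chr, act_chr, act_chr]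
  ring

theorem isAct_sp : IsAct (sp ρ χ) where
  add x y := by
    unfold sp
    rw [act_add, sc_add]
    module
  smul c x := by
    unfold sp
    rw [act_smul, sc_smul]
    module
  br x y := by
    unfold sp
    rw [act_br, sc_br]
    simp only [sub_mul, mul_sub, smul_mul_assoc, mul_smul_comm, mul_one, one_mul]
    module

/-- bracket of symplectic parts -/
theorem sp_br (x y : Wd K Γ) : sp ρ χ x * sp ρ χ y - sp ρ χ y * sp ρ χ x =
    act ρ x * act ρ y - act ρ y * act ρ x := by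
  unfold sp
  simp only [sub_mul, mul_sub, smul_mul_assoc, mul_smul_comm, mul_one, one_mul]
  module

theorem rinv (ρ : Representation K Γ V) (γ : Γ) : ρ γ * ρ γ⁻¹ = 1 := by
  rw [← map_mul, mul_inv_cancel, map_one]

theorem rinv' (ρ : Representation K Γ V) (γ : Γ) : ρ γ⁻¹ * ρ γ = 1 := by
  rw [← map_mul, inv_mul_cancel, map_one]

theorem act_cj' (s : Γ) (w : Wd K Γ) : act ρ (cj s w) = ρ s * act ρ w * ρ s⁻¹ := by
  rw [← act_cj, mul_assoc, rinv, mul_one]

theorem sc_cj (s : Γ) (w : Wd K Γ) : sc χ (cj s w) = sc χ w := by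
  have h1 := act_cj' (ρ := chr χ) s w
  have h2 := LinearMap.congr_fun h1 1
  rw [Module.End.mul_apply, Module.End.mul_apply, act_chr, act_chr, chr_apply, chr_apply, mul_one,
    mul_one] at h2
  have h3 : χ s * χ s⁻¹ = 1 := by rw [← map_mul, mul_inv_cancel, map_one]
  rw [h2]
  linear_combination sc χ w * h3

theorem sp_cj (s : Γ) (w : Wd K Γ) : sp ρ χ (cj s w) = ρ s * sp ρ χ w * ρ s⁻¹ := by
  rw [sp, sp, act_cj', sc_cj, mul_sub, sub_mul, mul_smul_comm, smul_mul_assoc, mul_one, rinv]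

/-- the set of the symplectic parts of the words -/
noncomputable def spW (ρ : Representation K Γ V) (χ : Γ →* K) : Submodule K (End K V) where
  carrier := {Y | ∃ w, sp ρ χ w = Y}
  zero_mem' := ⟨.smul 0 (.lo 1), by rw [isAct_sp.smul, zero_smul]⟩
  add_mem' := by
    rintro X Y ⟨w, rfl⟩ ⟨w', rfl⟩
    exact ⟨.add w w', isAct_sp.add w w'⟩
  smul_mem' := by
    rintro c X ⟨w, rfl⟩
    exact ⟨.smul c w, isAct_sp.smul c w⟩

/-- The words give the whole symplectic Lie algebra. -/
def Full (ρ : Representation K Γ V) (ω : V →ₗ[K] V →ₗ[K] K) (χ : Γ →* K) : Prop :=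
  ∀ u v, SS ω u v ∈ spW ρ χ

variable (halt : ∀ v, ω v v = 0) (hnd : ∀ u, (∀ v, ω u v = 0) → u = 0)

include halt hnd in
theorem full_le (hfull : Full ρ ω χ) : spL ω ≤ spW ρ χ := by
  refine (spL_le_span halt hnd).trans ?_
  rw [Submodule.span_le]
  rintro _ ⟨u, w, rfl⟩
  exact hfull u w

include halt hnd in
/-- every element of the symplectic Lie algebra is the image of a word -/
theorem full_act (hfull : Full ρ ω χ) : ∀ Y ∈ spL ω, ∃ w, act ρ w = Y := by
  intro Y hY
  let U : Submodule K (End K V) :=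
    { carrier := {Y | ∃ w, act ρ w = Y}
      zero_mem' := ⟨.smul 0 (.lo 1), by rw [act_smul, zero_smul]⟩
      add_mem' := by
        rintro X Y ⟨w, rfl⟩ ⟨w', rfl⟩
        exact ⟨.add w w', rfl⟩
      smul_mem' := by
        rintro c X ⟨w, rfl⟩
        exact ⟨.smul c w, rfl⟩ }
  have h1 : Submodule.span K {Z : End K V | ∃ A ∈ spL ω, ∃ B ∈ spL ω, Z = A * B - B * A} ≤ U := by
    rw [Submodule.span_le]
    rintro _ ⟨A, hA, B, hB, rfl⟩
    obtain ⟨w, rfl⟩ := full_le halt hnd hfull hA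
    obtain ⟨w', rfl⟩ := full_le halt hnd hfull hB
    exact ⟨.br w w', by rw [act_br, sp_br]⟩
  exact h1 (spL_perfect halt hnd Y hY)

include halt hnd hω in
/-- **One word suffices**: if some word acts on `V` by an operator which is not a scalar and on `M` by
zero, then all elements of the symplectic Lie algebra are realised by such words. -/
theorem pf_of_one (hfull : Full ρ ω χ) {M : Type} [AddCommGroup M] [Module K M]
    {a : Wd K Γ → End K M} (ha : IsAct a) {w : Wd K Γ} (h1 : sp ρ χ w ≠ 0) (h2 : a w = 0) :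
    Pf (spL ω) (act ρ) a := by
  let 𝔨 : Submodule K (End K V) := KQ (isAct_sp (ρ := ρ) (χ := χ)) ha
  have h𝔨 : 𝔨 ≤ spL ω := by
    rintro _ ⟨w, rfl, -⟩
    exact sp_mem hω w
  have hid : ∀ Y ∈ spL ω, ∀ Z ∈ 𝔨, Y * Z - Z * Y ∈ 𝔨 := by
    rintro Y hY _ ⟨w, rfl, h⟩
    obtain ⟨w', rfl⟩ := full_le halt hnd hfull hY
    exact ⟨.br w' w, by rw [isAct_sp.br], by rw [ha.br, h, zero_mul, mul_zero, sub_zero]⟩
  have h3 : 𝔨 = spL ω := by
    refine (spL_simple halt hnd 𝔨 h𝔨 hid).resolve_left fun h => h1 ?_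
    have h4 : sp ρ χ w ∈ 𝔨 := ⟨w, rfl, h2⟩
    rw [h] at h4
    exact (Submodule.mem_bot K).1 h4
  refine pf_of_br (spL_perfect halt hnd) (isAct_act ρ) ha fun A hA B hB => ?_
  rw [← h3] at hA hB
  obtain ⟨w, rfl, hw⟩ := hA
  obtain ⟨w', rfl, hw'⟩ := hB
  exact ⟨.br w w', by rw [act_br, sp_br], by rw [ha.br, hw, zero_mul, mul_zero, sub_zero]⟩

include halt hnd hω in
/-- small spaces -/
theorem pf_of_small (hfull : Full ρ ω χ) {M : Type} [AddCommGroup M] [Module K M]
    [FiniteDimensional K M] {a : Wd K Γ → End K M} (ha : IsAct a)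
    (h : finrank K M < finrank K V) : Pf (spL ω) (act ρ) a :=
  pf_small (fun _ hY _ hZ => spL_br hY hZ) (spL_perfect halt hnd) (spL_simple halt hnd)
    (isAct_act ρ) (full_act halt hnd hfull) (finrank K V)
    (fun M _ _ _ φ h1 h2 => spL_small halt hnd M φ h1 h2) _ M a ha rfl h

include halt hnd in
/-- The commutant of the symplectic Lie algebra. -/
theorem scalar_of_comm {Z : End K V} (hZ : ∀ Y ∈ spL ω, Z * Y = Y * Z) : ∃ c : K, Z = c • 1 := by
  rcases subsingleton_or_nontrivial V with hV | hV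
  · exact ⟨0, LinearMap.ext fun x => Subsingleton.elim _ _⟩
  obtain ⟨c, hc⟩ := Module.End.exists_eigenvalue Z
  obtain ⟨u, hu⟩ := hc.exists_hasEigenvector
  refine ⟨c, LinearMap.ext fun x => ?_⟩
  have hZu : Z u = c • u := hu.apply_eq_smul
  obtain ⟨b, hb⟩ := exists_pair halt hnd hu.2
  -- `x = Y u` for some `Y`
  have h1 : ∀ x, ω x u = 0 → Z x = c • x := by
    intro x hx
    have h2 := hZ _ (SS_mem_spL halt b x)
    have h3 := LinearMap.congr_fun h2 u
    have h4 : SS ω b x u = x := by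
      rw [SS_apply, hb, hx, one_smul, zero_smul, add_zero]
    rw [Module.End.mul_apply, Module.End.mul_apply, h4, hZu, map_smul, h4] at h3
    exact h3
  have h2 : Z b = c • b := by
    have h3 := hZ _ (SS_mem_spL halt b b)
    have h4 := LinearMap.congr_fun h3 u
    have h5 : SS ω b b u = (2 : K) • b := by
      rw [SS_apply, hb, one_smul, two_smul]
    rw [Module.End.mul_apply, Module.End.mul_apply, h5, hZu, map_smul, map_smul, h5] at h4
    rw [smul_comm] at h4
    exact smul_right_injective _ (two_ne_zero (α := K)) h4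
  have h3 := h1 (x - ω x u • b) (by
    rw [map_sub, map_smul, LinearMap.sub_apply, LinearMap.smul_apply, hb, smul_eq_mul, mul_one,
      sub_self])
  rw [map_sub, map_smul, h2] at h3
  rw [LinearMap.smul_apply, Module.End.one_apply]
  have h4 : Z x = (Z x - ω x u • c • b) + ω x u • c • b := by abel
  rw [h4, h3]
  module

variable {V' : Type} [AddCommGroup V'] [Module K V'] [FiniteDimensional K V']
  {ρ' : Representation K Γ V'} {ω' : V' →ₗ[K] V' →ₗ[K] K} {χ' : Γ →* K}
  (hω' : ∀ g u v, ω' (ρ' g u) (ρ' g v) = χ' g * ω' u v)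
  (halt' : ∀ v, ω' v v = 0) (hnd' : ∀ u, (∀ v, ω' u v = 0) → u = 0)

include halt hnd hω halt' hnd' hω' in
/-- **Two symplectic representations** are independent, or twists of each other. -/
theorem pair_step [Nontrivial V] (hfull : Full ρ ω χ) (hfull' : Full ρ' ω' χ') :
    Pf (spL ω) (act ρ) (act ρ') ∨ ∃ (c : Γ → K) (T : V →ₗ[K] V'), Surjective T ∧
      (∀ a b, ω' (T a) (T b) = ω a b) ∧ ∀ g v, T (ρ g v) = c g • ρ' g (T v) := by
  classical
  by_cases hP : ∃ w, sp ρ χ w ≠ 0 ∧ sp ρ' χ' w = 0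
  · -- a word which acts by zero
    left
    obtain ⟨w, h1, h2⟩ := hP
    let 𝔨 : Submodule K (End K V) := KQ (isAct_sp (ρ := ρ) (χ := χ)) (isAct_sp (ρ := ρ') (χ := χ'))
    have h𝔨 : 𝔨 ≤ spL ω := by
      rintro _ ⟨w, rfl, -⟩
      exact sp_mem hω w
    have hid : ∀ Y ∈ spL ω, ∀ Z ∈ 𝔨, Y * Z - Z * Y ∈ 𝔨 := by
      rintro Y hY _ ⟨w, rfl, h⟩
      obtain ⟨w', rfl⟩ := full_le halt hnd hfull hY
      exact ⟨.br w' w, by rw [isAct_sp.br], by rw [isAct_sp.br, h, zero_mul, mul_zero, sub_zero]⟩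
    have h3 : 𝔨 = spL ω := by
      refine (spL_simple halt hnd 𝔨 h𝔨 hid).resolve_left fun h => h1 ?_
      have h4 : sp ρ χ w ∈ 𝔨 := ⟨w, rfl, h2⟩
      rw [h] at h4
      exact (Submodule.mem_bot K).1 h4
    refine pf_of_br (spL_perfect halt hnd) (isAct_act ρ) (isAct_act ρ') fun A hA B hB => ?_
    rw [← h3] at hA hB
    obtain ⟨w, rfl, hw⟩ := hA
    obtain ⟨w', rfl, hw'⟩ := hB
    refine ⟨.br w w', by rw [act_br, sp_br], ?_⟩
    rw [act_br, ← sp_br (χ := χ'), hw, zero_mul, mul_zero, sub_zero]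
  push Not at hP
  have hP1 : ∀ w, sp ρ' χ' w = 0 → sp ρ χ w = 0 := by
    intro w hw
    by_contra h
    exact hP w h hw
  have hP2 : ∀ w, sp ρ χ w = 0 → sp ρ' χ' w = 0 := by
    intro w0 hw0
    by_contra h0
    -- the ideal on the other side
    let 𝔨 : Submodule K (End K V') := KQ (isAct_sp (ρ := ρ') (χ := χ')) (isAct_sp (ρ := ρ) (χ := χ))
    have h𝔨 : 𝔨 ≤ spL ω' := by
      rintro _ ⟨w, rfl, -⟩
      exact sp_mem hω' w
    have hid : ∀ Y ∈ spL ω', ∀ Z ∈ 𝔨, Y * Z - Z * Y ∈ 𝔨 := by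
      rintro Y hY _ ⟨w, rfl, h⟩
      obtain ⟨w', rfl⟩ := full_le halt' hnd' hfull' hY
      exact ⟨.br w' w, by rw [isAct_sp.br], by rw [isAct_sp.br, h, zero_mul, mul_zero, sub_zero]⟩
    have h3 : 𝔨 = spL ω' := by
      refine (spL_simple halt' hnd' 𝔨 h𝔨 hid).resolve_left fun h => h0 ?_
      have h4 : sp ρ' χ' w0 ∈ 𝔨 := ⟨w0, rfl, hw0⟩
      rw [h] at h4
      exact (Submodule.mem_bot K).1 h4
    -- then all words act by zero on `V`
    have h4 : ∀ w, sp ρ χ w = 0 := by
      intro w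
      have h5 : sp ρ' χ' w ∈ 𝔨 := by
        rw [h3]
        exact sp_mem hω' w
      obtain ⟨w', h6, h7⟩ := h5
      have h8 := hP1 (.add w (.smul (-1) w')) (by
        rw [isAct_sp.add, isAct_sp.smul, h6]
        module)
      rw [isAct_sp.add, isAct_sp.smul, h7, smul_zero, add_zero] at h8
      exact h8
    obtain ⟨u, hu⟩ := exists_ne (0 : V)
    obtain ⟨w, hw⟩ := hfull u u
    rw [h4 w] at hw
    exact SS_self_ne hnd hu hw.symm
  right
  -- the isomorphism
  have hex : ∀ Y : spL ω, ∃ w, sp ρ χ w = Y := fun Y => full_le halt hnd hfull Y.2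
  choose W hW using hex
  have huniq : ∀ w w', sp ρ χ w = sp ρ χ w' → sp ρ' χ' w = sp ρ' χ' w' := by
    intro w w' h
    have h1 := hP2 (.add w (.smul (-1) w')) (by
      rw [isAct_sp.add, isAct_sp.smul, h]
      module)
    rw [isAct_sp.add, isAct_sp.smul] at h1
    have h2 : sp ρ' χ' w - sp ρ' χ' w' = 0 := by
      rw [← h1]
      module
    exact sub_eq_zero.1 h2
  let φ : spL ω →ₗ[K] spL ω' :=
    { toFun := fun Y => ⟨sp ρ' χ' (W Y), sp_mem hω' _⟩
      map_add' := by
        intro Y Z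
        apply Subtype.ext
        change sp ρ' χ' (W (Y + Z)) = sp ρ' χ' (W Y) + sp ρ' χ' (W Z)
        rw [← isAct_sp.add]
        apply huniq
        rw [isAct_sp.add, hW, hW, hW]
        rfl
      map_smul' := by
        intro c Y
        apply Subtype.ext
        change sp ρ' χ' (W (c • Y)) = c • sp ρ' χ' (W Y)
        rw [← isAct_sp.smul]
        apply huniq
        rw [isAct_sp.smul, hW, hW]
        rfl }
  have hφw : ∀ (Y : spL ω) w, sp ρ χ w = Y → (φ Y : End K V') = sp ρ' χ' w := by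
    intro Y w h
    change sp ρ' χ' (W Y) = sp ρ' χ' w
    apply huniq
    rw [hW, h]
  have hφ : ∀ Y Z W : spL ω, (W : End K V) = Y * Z - Z * Y →
      (φ W : End K V') = φ Y * φ Z - φ Z * φ Y := by
    intro Y Z X hX
    rw [hφw X (.br (W Y) (W Z)) (by rw [isAct_sp.br, hW, hW, hX]), isAct_sp.br]
    rfl
  have hinj : Injective φ := by
    rw [← LinearMap.ker_eq_bot, Submodule.eq_bot_iff]
    intro Y hY
    have h1 : sp ρ' χ' (W Y) = 0 := congrArg Subtype.val (LinearMap.mem_ker.1 hY)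
    apply Subtype.ext
    rw [← hW]
    exact hP1 _ h1
  have hsurj : Surjective φ := by
    intro Y'
    obtain ⟨w, hw⟩ := full_le halt' hnd' hfull' Y'.2
    refine ⟨⟨sp ρ χ w, sp_mem hω w⟩, ?_⟩
    apply Subtype.ext
    rw [hφw _ w rfl, hw]
  obtain ⟨T, hT1, hT2, hT3⟩ := exists_isometry halt hnd halt' hnd' φ hφ hinj hsurj
  -- intertwining
  have hTinj : Injective T := by
    rw [← LinearMap.ker_eq_bot, Submodule.eq_bot_iff]
    intro x hx
    refine hnd x fun y => ?_
    rw [← hT2, LinearMap.mem_ker.1 hx, map_zero, LinearMap.zero_apply]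
  have hint : ∀ (Y : End K V) (hY : Y ∈ spL ω) (x : V), (φ ⟨Y, hY⟩ : End K V') (T x) = T (Y x) := by
    have hsp : Submodule.span K {Z : End K V | ∃ u w, Z = SS ω u w} ≤ spL ω := by
      rw [Submodule.span_le]
      rintro _ ⟨u, w, rfl⟩
      exact SS_mem_spL halt u w
    have h1 : ∀ Y : End K V, ∀ (h : Y ∈ Submodule.span K {Z : End K V | ∃ u w, Z = SS ω u w})
        (hY : Y ∈ spL ω) (x : V), (φ ⟨Y, hY⟩ : End K V') (T x) = T (Y x) := by
      intro Y h
      induction h using Submodule.span_induction with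
      | mem Y h =>
        obtain ⟨p, q, rfl⟩ := h
        intro hY x
        rw [hT3 p q, SS_apply, SS_apply, hT2, hT2, map_add, map_smul, map_smul]
      | zero =>
        intro hY x
        have e2 : (⟨0, hY⟩ : spL ω) = 0 := rfl
        rw [e2, map_zero, LinearMap.zero_apply, map_zero]
        rfl
      | add Y Z hY1 hZ1 ihY ihZ =>
        intro hYZ x
        have e2 : (⟨Y + Z, hYZ⟩ : spL ω) = ⟨Y, hsp hY1⟩ + ⟨Z, hsp hZ1⟩ := rfl
        rw [e2, map_add, LinearMap.add_apply, map_add, ← ihY (hsp hY1), ← ihZ (hsp hZ1)]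
        rfl
      | smul l Y hY1 ihY =>
        intro hYZ x
        have e2 : (⟨l • Y, hYZ⟩ : spL ω) = l • ⟨Y, hsp hY1⟩ := rfl
        rw [e2, map_smul, LinearMap.smul_apply, map_smul, ← ihY (hsp hY1)]
        rfl
    intro Y hY
    exact h1 Y (spL_le_span halt hnd hY) hY
  have hw : ∀ w x, sp ρ' χ' w (T x) = T (sp ρ χ w x) := by
    intro w x
    rw [← hint _ (sp_mem hω w), hφw _ w rfl]
  -- the scalars
  let E : V ≃ₗ[K] V' := LinearEquiv.ofBijective T ⟨hTinj, hT1⟩
  have hE : ∀ x, E x = T x := fun x => rfl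
  have hscal : ∀ γ : Γ, ∃ c : K, ∀ v, T (ρ γ v) = c • ρ' γ (T v) := by
    intro γ
    let Z : End K V := E.symm.toLinearMap ∘ₗ ρ' γ⁻¹ ∘ₗ T ∘ₗ ρ γ
    have hZ : ∀ x, T (Z x) = ρ' γ⁻¹ (T (ρ γ x)) := by
      intro x
      change E (E.symm _) = _
      rw [E.apply_symm_apply]
      rfl
    obtain ⟨c, hc⟩ := scalar_of_comm halt hnd (Z := Z) (by
      intro Y hY
      obtain ⟨w, rfl⟩ := full_le halt hnd hfull hY
      ext x
      apply hTinj
      rw [Module.End.mul_apply, Module.End.mul_apply, hZ, ← hw, hZ]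
      -- conjugate the word
      have h1 : ρ γ (sp ρ χ w x) = sp ρ χ (cj γ w) (ρ γ x) := by
        rw [sp_cj, Module.End.mul_apply, Module.End.mul_apply, ← Module.End.mul_apply (ρ γ⁻¹),
          rinv', Module.End.one_apply]
      have h2 : ρ' γ⁻¹ (sp ρ' χ' (cj γ w) (T (ρ γ x))) = sp ρ' χ' w (ρ' γ⁻¹ (T (ρ γ x))) := by
        rw [sp_cj, Module.End.mul_apply, Module.End.mul_apply, ← Module.End.mul_apply (ρ' γ⁻¹),
          rinv', Module.End.one_apply]
      rw [h1, ← hw, h2])
    refine ⟨c, fun v => ?_⟩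
    have h1 := hZ v
    rw [hc, LinearMap.smul_apply, Module.End.one_apply, map_smul] at h1
    have h2 := congrArg (ρ' γ) h1
    rw [map_smul, ← Module.End.mul_apply (ρ' γ), rinv, Module.End.one_apply] at h2
    exact h2.symm
  choose c hc using hscal
  exact ⟨c, T, hT1, hT2, hc⟩

end Pool.Agent.T6.H17.LW
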