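import Mathlib
import Pool.Agent.T6.H17.LW.Symp

/-!
# Big monodromy
-/

set_option autoImplicit false
set_option linter.unusedSectionVars false

namespace Pool.Agent.T6.H17.LW

open Module Finset Function

variable {K : Type} [Field K] [CharZero K] [IsAlgClosed K] {Γ : Type} [Group Γ]
  {V : Type} [AddCommGroup V] [Module K V] [FiniteDimensional K V]

/-- operators without unipotent part -/
theorem un_eq_of_lgu {f : End K V} (hf : Injective f) (h : lgu f = 0) : un f = 1 := by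
  rw [lgu_def] at h
  exact sub_eq_zero.1 (eq_zero_of_lg (un_sub_one_pow hf) h)

theorem gen_of_un {f : End K V} (hf : Injective f) (h : un f = 1) {β : K} {x : V}
    (hx : x ∈ f.maxGenEigenspace β) : f x = β • x := by
  by_cases hx0 : x = 0
  · rw [hx0, map_zero, smul_zero]
  have h1 := un_gen hx
  rw [h, Module.End.one_apply] at h1
  have h2 := gen_ne_zero hf hx hx0
  have h3 : β • x = f x := by
    conv_lhs => rw [h1]
    rw [smul_smul, mul_inv_cancel₀ h2, one_smul]
  exact h3.symm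

theorem lgu_of_diag {f : End K V} (hf : Injective f)
    (h : ∀ β, ∀ x ∈ f.maxGenEigenspace β, f x = β • x) : lgu f = 0 := by
  have h1 : un f = 1 := by
    refine op_ext f fun β x hx => ?_
    rw [un_gen hx, h β x hx, Module.End.one_apply]
    by_cases hx0 : x = 0
    · rw [hx0, smul_zero, smul_zero]
    · rw [smul_smul, inv_mul_cancel₀ (gen_ne_zero hf hx hx0), one_smul]
  rw [lgu_def, h1, sub_self, lg]
  refine Finset.sum_eq_zero fun k _ => ?_
  rcases Nat.eq_zero_or_pos k with hk | hk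
  · rw [hk, lc_zero, zero_smul]
  · rw [zero_pow hk.ne', smul_zero]

theorem chr_gen (χ : Γ →* K) (γ : Γ) (x : K) : x ∈ Module.End.maxGenEigenspace (chr χ γ) (χ γ) := by
  refine mem_gen.2 ⟨1, ?_⟩
  rw [pow_one, LinearMap.sub_apply, Module.algebraMap_end_apply, chr_apply, smul_eq_mul, sub_self]

theorem sc_fr (χ : Γ →* K) (θ : Additive Kˣ →+ K) (γ : Γ) :
    sc χ (.fr θ γ) = ext0 θ (χ γ) := by
  rw [sc, act_fr, op_spec _ _ (chr_gen χ γ 1), smul_eq_mul, mul_one]

theorem sc_lo (χ : Γ →* K) (γ : Γ) : sc χ (.lo γ) = 0 := by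
  rw [sc, act_lo, lgu_of_diag (rho_inj (chr χ) γ), LinearMap.zero_apply]
  intro β x hx
  by_cases hx0 : x = 0
  · rw [hx0, map_zero, smul_zero]
  -- the eigenvalue
  obtain ⟨n, hn⟩ := mem_gen.1 hx
  have h1 : ∀ n : ℕ, (((chr χ γ) - algebraMap K (End K K) β) ^ n) x = (χ γ - β) ^ n * x := by
    intro n
    induction n with
    | zero => rw [pow_zero, pow_zero, one_mul, Module.End.one_apply]
    | succ n ih =>
      rw [pow_succ', Module.End.mul_apply, ih, LinearMap.sub_apply, Module.algebraMap_end_apply,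
        chr_apply, smul_eq_mul]
      ring
  rw [h1] at hn
  have h2 : (χ γ - β) ^ n = 0 := (mul_eq_zero.1 hn).resolve_right hx0
  have h3 : χ γ = β := sub_eq_zero.1 (eq_zero_of_pow_eq_zero h2)
  rw [chr_apply, h3, smul_eq_mul]

theorem chi_ne (χ : Γ →* K) (γ : Γ) : χ γ ≠ 0 := by
  intro h
  have h1 : χ (γ * γ⁻¹) = 1 := by rw [mul_inv_cancel, map_one]
  rw [map_mul, h, zero_mul] at h1
  exact zero_ne_one h1

/-- **Big monodromy**: the adjoint action of the group on the Lie algebra of the symplectic group is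
irreducible and no power of some element acts by a scalar. -/
structure Big (ρ : Representation K Γ V) (ω : V →ₗ[K] V →ₗ[K] K) : Prop where
  irr : ∀ L : Submodule K (End K V), L ≤ spL ω → (∀ g, ∀ Y ∈ L, ρ g * Y * ρ g⁻¹ ∈ L) →
    L = ⊥ ∨ L = spL ω
  inf : ∃ γ, ∀ n : ℕ, 0 < n → ∀ c : K, ρ γ ^ n ≠ c • 1

variable {ρ : Representation K Γ V} {ω : V →ₗ[K] V →ₗ[K] K} {χ : Γ →* K}
  (hω : ∀ g u v, ω (ρ g u) (ρ g v) = χ g * ω u v) (halt : ∀ v, ω v v = 0)

/-- An element whose powers are not scalars gives a nonzero operator. -/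
theorem exists_word {γ : Γ} (hγ : ∀ n : ℕ, 0 < n → ∀ c : K, ρ γ ^ n ≠ c • 1) :
    ∃ w, sp ρ χ w ≠ 0 := by
  by_contra hcon
  push Not at hcon
  -- the logarithm
  have h1 : lgu (ρ γ) = 0 := by
    have h2 := hcon (.lo γ)
    rwa [sp, sc_lo, zero_div, zero_smul, sub_zero, act_lo] at h2
  have hdiag : ∀ β, ∀ x ∈ Module.End.maxGenEigenspace (ρ γ) β, ρ γ x = β • x :=
    fun β x hx => gen_of_un (rho_inj ρ γ) (un_eq_of_lgu (rho_inj ρ γ) h1) hx
  have hχ := chi_ne χ γ
  -- the eigenvalues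
  have h2 : ∀ β, Module.End.maxGenEigenspace (ρ γ) β ≠ ⊥ → ∃ n : ℕ, 0 < n ∧ (β ^ 2) ^ n = χ γ ^ n := by
    intro β hβ
    obtain ⟨x, hx, hx0⟩ := Submodule.exists_mem_ne_zero_of_ne_bot hβ
    have hβ0 := gen_ne_zero (rho_inj ρ γ) hx hx0
    by_contra hno
    push Not at hno
    obtain ⟨θ, hθ⟩ := exists_add
      ((Units.mk0 β hβ0) ^ 2 * (Units.mk0 (χ γ) hχ)⁻¹) (by
        intro k hk h
        apply hno k hk
        rw [mul_pow, inv_pow, mul_inv_eq_one] at h
        have h3 := congrArg (fun x : Kˣ => (x : K)) h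
        simpa using h3)
    have h3 := LinearMap.congr_fun (hcon (.fr θ γ)) x
    rw [sp, sc_fr, act_fr, LinearMap.sub_apply, op_spec _ _ hx, LinearMap.smul_apply,
      Module.End.one_apply, LinearMap.zero_apply, ← sub_smul] at h3
    have h4 := (smul_eq_zero.1 h3).resolve_right hx0
    apply hθ
    rw [ofMul_mul, ofMul_pow, ofMul_inv, map_add, map_nsmul, map_neg]
    rw [ext0_ne θ hβ0, ext0_ne θ hχ] at h4
    rw [nsmul_eq_mul]
    push_cast
    linear_combination 2 * h4
  -- the product of the exponents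
  have hfin : ∃ N : ℕ, 0 < N ∧ ∀ β, Module.End.maxGenEigenspace (ρ γ) β ≠ ⊥ → (β ^ 2) ^ N = χ γ ^ N := by
    have h3 := WellFoundedGT.finite_ne_bot_of_iSupIndep
      (Module.End.independent_maxGenEigenspace (ρ γ))
    classical
    choose n hn1 hn2 using h2
    let s := h3.toFinset
    have hs : ∀ β, β ∈ s ↔ Module.End.maxGenEigenspace (ρ γ) β ≠ ⊥ := fun β => h3.mem_toFinset
    let N := ∏ β ∈ s.attach, n β.1 ((hs β.1).1 β.2)
    refine ⟨N, Finset.prod_pos fun β _ => hn1 _ _, fun β hβ => ?_⟩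
    have h4 : n β hβ ∣ N := Finset.dvd_prod_of_mem (fun β : {x // x ∈ s} => n β.1 ((hs β.1).1 β.2))
      (Finset.mem_attach s ⟨β, (hs β).2 hβ⟩)
    obtain ⟨k, hk⟩ := h4
    rw [hk, pow_mul, pow_mul, hn2]
  obtain ⟨N, hN, h3⟩ := hfin
  refine hγ (2 * N) (by omega) (χ γ ^ N) ?_
  refine op_ext (ρ γ) fun β x hx => ?_
  by_cases hx0 : x = 0
  · rw [hx0, map_zero, map_zero]
  have h4 : Module.End.maxGenEigenspace (ρ γ) β ≠ ⊥ := by
    intro h
    rw [h] at hx
    exact hx0 ((Submodule.mem_bot K).1 hx)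
  have h5 : ∀ n : ℕ, (ρ γ ^ n) x = β ^ n • x := by
    intro n
    induction n with
    | zero => rw [pow_zero, pow_zero, one_smul, Module.End.one_apply]
    | succ n ih =>
      rw [pow_succ', Module.End.mul_apply, ih, map_smul, hdiag β x hx, smul_smul, pow_succ]
  rw [h5, pow_mul, h3 β h4, LinearMap.smul_apply, Module.End.one_apply]

include hω in
/-- Big monodromy gives the full symplectic Lie algebra. -/
theorem full_of_big (halt : ∀ v, ω v v = 0) (h : Big ρ ω) : Full ρ ω χ := by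
  obtain ⟨γ, hγ⟩ := h.inf
  obtain ⟨w, hw⟩ := exists_word (χ := χ) hγ
  have h1 : spW ρ χ ≤ spL ω := by
    rintro _ ⟨w, rfl⟩
    exact sp_mem hω w
  rcases h.irr (spW ρ χ) h1 (by
    rintro g _ ⟨w, rfl⟩
    exact ⟨cj g w, sp_cj g w⟩) with h2 | h2
  · exfalso
    apply hw
    have h3 : sp ρ χ w ∈ spW ρ χ := ⟨w, rfl⟩
    rw [h2] at h3
    exact (Submodule.mem_bot K).1 h3
  · intro u v
    rw [h2]
    exact SS_mem_spL halt u v

end Pool.Agent.T6.H17.LW
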