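import Mathlib
import Pool.Agent.T6.H17.LW.Big

/-!
# Representations unrelated to a symplectic representation
-/

set_option autoImplicit false
set_option linter.unusedSectionVars false

namespace Pool.Agent.T6.H17.LW

open Module Finset Function TensorProduct

variable {K : Type} [Field K] [CharZero K] [IsAlgClosed K] {Γ : Type} [Group Γ]
  {V : Type} [AddCommGroup V] [Module K V] [FiniteDimensional K V]

section closure

variable {M : Type} [AddCommGroup M] [Module K M] [FiniteDimensional K M]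
  {N : Type} [AddCommGroup N] [Module K N] [FiniteDimensional K N]
  {Q : Type} [AddCommGroup Q] [Module K Q] [FiniteDimensional K Q]
  {r : Wd K Γ → End K V} {𝔤 : Submodule K (End K V)}

/-- exact sequences -/
theorem pf_exact (hp : Perfect 𝔤) (hr : IsAct r) (σ : Representation K Γ N)
    (τ : Representation K Γ M) (π : Representation K Γ Q) (f : N →ₗ[K] M) (g : M →ₗ[K] Q)
    (hf : ∃ Δ : Subgroup Γ, Δ.FiniteIndex ∧ ∀ s ∈ Δ, ∀ x, f (σ s x) = τ s (f x))
    (hg : ∃ Δ : Subgroup Γ, Δ.FiniteIndex ∧ ∀ s ∈ Δ, ∀ x, g (τ s x) = π s (g x))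
    (hfg : ∀ x, g x = 0 → ∃ y, f y = x) (h1 : Pf 𝔤 r (act σ)) (h2 : Pf 𝔤 r (act π)) :
    Pf 𝔤 r (act τ) := by
  have h3 := pf_pr hp hr (isAct_act σ) (isAct_act π) h1 h2
  refine pf_of_br hp hr (isAct_act τ) fun A hA B hB => ?_
  obtain ⟨w, hw1, hw2⟩ := h3 A hA
  obtain ⟨w', hw1', hw2'⟩ := h3 B hB
  rw [pr_eq_zero] at hw2 hw2'
  refine ⟨.br w w', by rw [hr.br, hw1, hw1'], ?_⟩
  have key : ∀ u u' : Wd K Γ, act σ u = 0 → act π u' = 0 → act τ u * act τ u' = 0 := by
    intro u u' hu hu'
    apply LinearMap.ext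
    intro x
    obtain ⟨y, hy⟩ := hfg (act τ u' x) (by rw [act_lin hg, hu', LinearMap.zero_apply])
    rw [Module.End.mul_apply, ← hy, ← act_lin hf, hu, LinearMap.zero_apply, map_zero,
      LinearMap.zero_apply]
  rw [act_br, key w w' hw2.1 hw2'.2, key w' w hw2'.1 hw2.2, sub_zero]

/-- the product of two representations -/
noncomputable def prd (σ : Representation K Γ M) (τ : Representation K Γ N) :
    Representation K Γ (M × N) where
  toFun g := (σ g).prodMap (τ g)
  map_one' := by
    rw [map_one, map_one]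
    rfl
  map_mul' g h := by
    rw [map_mul, map_mul]
    rfl

theorem act_prd (σ : Representation K Γ M) (τ : Representation K Γ N) (w : Wd K Γ) :
    act (prd σ τ) w = (act σ w).prodMap (act τ w) := by
  apply LinearMap.ext
  intro x
  have h1 := act_lin (ρ := prd σ τ) (τ := σ) (L := LinearMap.fst K M N)
    ⟨⊤, inferInstance, fun _ _ _ => rfl⟩ w x
  have h2 := act_lin (ρ := prd σ τ) (τ := τ) (L := LinearMap.snd K M N)
    ⟨⊤, inferInstance, fun _ _ _ => rfl⟩ w x
  exact Prod.ext h1 h2

/-- a bilinear map on a product -/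
noncomputable def bp {E : Type} [AddCommGroup E] [Module K E] (B : M →ₗ[K] N →ₗ[K] E) :
    MultilinearMap K (fun _ : Fin 2 => M × N) E where
  toFun v := B (v 0).1 (v 1).2
  map_update_add' {_} v i x y := by
    fin_cases i
    · simp [update_of_ne]
    · simp [update_of_ne]
  map_update_smul' {_} v i c x := by
    fin_cases i
    · simp [update_of_ne]
    · simp [update_of_ne]

/-- bilinear maps -/
theorem act_bil {E : Type} [AddCommGroup E] [Module K E] [FiniteDimensional K E]
    (σ : Representation K Γ M) (τ : Representation K Γ N) (π : Representation K Γ E)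
    (B : M →ₗ[K] N →ₗ[K] E) (h : ∀ g x y, B (σ g x) (τ g y) = π g (B x y)) (w : Wd K Γ) (x : M)
    (y : N) : B (act σ w x) y + B x (act τ w y) = act π w (B x y) := by
  have h1 := act_multi (S := Fin 2) (T := fun _ => M × N) (σ := fun _ => prd σ τ) (τ := π)
    (h := bp B) ⟨⊤, inferInstance, fun g _ v => h g (v 0).1 (v 1).2⟩ w
  have h2 := congrArg (fun F : MultilinearMap K (fun _ : Fin 2 => M × N) E => F ![(x, 0), (0, y)]) h1
  simp only [der_apply, Fin.sum_univ_two, LinearMap.compMultilinearMap_apply, act_prd] at h2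
  have e1 : ∀ v : Fin 2 → M × N, bp B v = B (v 0).1 (v 1).2 := fun _ => rfl
  simpa [e1, update_of_ne] using h2

/-- tensor products -/
theorem pf_tensor (hp : Perfect 𝔤) (hr : IsAct r) (σ : Representation K Γ M)
    (τ : Representation K Γ N) (h1 : Pf 𝔤 r (act σ)) (h2 : Pf 𝔤 r (act τ)) :
    Pf 𝔤 r (act (σ.tprod τ)) := by
  refine (pf_pr hp hr (isAct_act σ) (isAct_act τ) h1 h2).mono fun w hw => ?_
  rw [pr_eq_zero] at hw
  refine TensorProduct.ext' fun x y => ?_
  have h3 := act_bil σ τ (σ.tprod τ) (TensorProduct.mk K M N) (fun g x y => rfl) w x y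
  rw [hw.1, hw.2, LinearMap.zero_apply, LinearMap.zero_apply, map_zero, map_zero, add_zero,
    LinearMap.zero_apply] at h3
  rw [LinearMap.zero_apply]
  exact h3.symm

/-- duals -/
theorem pf_dual (σ : Representation K Γ M) (h1 : Pf 𝔤 r (act σ)) : Pf 𝔤 r (act σ.dual) := by
  refine h1.mono fun w hw => ?_
  have h3 := act_bil σ σ.dual (chr (1 : Γ →* K)) (Module.Dual.eval K M) (fun g x y => by
    rw [chr_apply, MonoidHom.one_apply, one_mul]
    change σ.dual g y (σ g x) = y x
    rw [Representation.dual_apply]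
    change y (σ g⁻¹ (σ g x)) = y x
    rw [← Module.End.mul_apply, ← map_mul, inv_mul_cancel, map_one, Module.End.one_apply]) w
  have h0 : sc (1 : Γ →* K) w = 0 := by
    clear h3 hw
    induction w with
    | fr θ γ => rw [sc_fr, MonoidHom.one_apply, ext0_one]
    | lo γ => exact sc_lo _ _
    | add a b ha hb => rw [sc_add, ha, hb, add_zero]
    | smul c a ha => rw [sc_smul, ha, mul_zero]
    | br a b ha hb => exact sc_br a b
  apply LinearMap.ext
  intro y
  apply LinearMap.ext
  intro x
  have h4 := h3 x y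
  rw [hw, LinearMap.zero_apply, map_zero, LinearMap.zero_apply, zero_add, act_chr, h0,
    zero_mul] at h4
  exact h4

end closure

section abelian

variable {M : Type} [AddCommGroup M] [Module K M] [FiniteDimensional K M]

/-- operators commuting with a power of an element of the group -/
theorem comm_fr (τ : Representation K Γ M) {γ : Γ} {n : ℕ} (hn : 0 < n) {Z : End K M}
    (hZ : Z * τ γ ^ n = τ γ ^ n * Z) (θ : Additive Kˣ →+ K) :
    Z * act τ (.fr θ γ) = act τ (.fr θ γ) * Z := by
  apply LinearMap.ext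
  intro x
  have h1 := fr_multi (S := Unit) (T := fun _ => M) (f := fun _ => τ γ)
    (fun _ => rho_inj τ γ) (f' := τ γ) (h := MultilinearMap.ofSubsingleton K M M () Z) hn
    (fun v => LinearMap.congr_fun hZ (v ())) θ (fun _ => x)
  rw [Finset.univ_unique, Finset.sum_singleton] at h1
  have h3 : ∀ u : Unit → M, (MultilinearMap.ofSubsingleton K M M () Z) u = Z (u ()) := fun _ => rfl
  rw [h3, update_self] at h1
  exact h1

theorem comm_lo (τ : Representation K Γ M) {γ : Γ} {n : ℕ} (hn : 0 < n) {Z : End K M}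
    (hZ : Z * τ γ ^ n = τ γ ^ n * Z) : Z * act τ (.lo γ) = act τ (.lo γ) * Z := by
  apply LinearMap.ext
  intro x
  have h2 := un_multi (S := Unit) (T := fun _ => M) (f := fun _ => τ γ)
    (fun _ => rho_inj τ γ) (f' := τ γ) (h := MultilinearMap.ofSubsingleton K M M () Z) (n := n)
    (fun v => LinearMap.congr_fun hZ (v ()))
  have h1 := lg_multi (S := Unit) (T := fun _ => M) (U := fun j => un (τ γ) - 1)
    (r := fun j => finrank K M) (fun j => un_sub_one_pow (rho_inj τ γ)) (U' := un (τ γ) - 1)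
    (r' := finrank K M) (un_sub_one_pow (rho_inj τ γ))
    (h := MultilinearMap.ofSubsingleton K M M () Z) hn (fun v => by
      have e2 : 1 + (un (τ γ) - 1) = un (τ γ) := by abel
      rw [e2]
      exact h2 v) (fun _ => x)
  rw [Finset.univ_unique, Finset.sum_singleton] at h1
  have h3 : ∀ u : Unit → M, (MultilinearMap.ofSubsingleton K M M () Z) u = Z (u ()) := fun _ => rfl
  rw [h3, update_self] at h1
  exact h1

/-- commuting powers -/
theorem comm_act (τ : Representation K Γ M) {Δ : Subgroup Γ} (hΔ : Δ.FiniteIndex) {Z : End K M}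
    (hZ : ∀ g ∈ Δ, Z * τ g = τ g * Z) (w : Wd K Γ) : Z * act τ w = act τ w * Z := by
  induction w with
  | fr θ γ =>
    obtain ⟨n, hn, -, hgn⟩ := Subgroup.exists_pow_mem_of_index_ne_zero hΔ.index_ne_zero γ
    refine comm_fr τ hn ?_ θ
    rw [← map_pow]
    exact hZ _ hgn
  | lo γ =>
    obtain ⟨n, hn, -, hgn⟩ := Subgroup.exists_pow_mem_of_index_ne_zero hΔ.index_ne_zero γ
    refine comm_lo τ hn ?_
    rw [← map_pow]
    exact hZ _ hgn
  | add a b ha hb => rw [act_add, mul_add, add_mul, ha, hb]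
  | smul c a ha => rw [act_smul, mul_smul_comm, smul_mul_assoc, ha]
  | br a b ha hb =>
    rw [act_br, mul_sub, sub_mul, ← mul_assoc, ha, mul_assoc, hb, ← mul_assoc, ← mul_assoc, hb,
      mul_assoc (act τ b), ha, ← mul_assoc]

theorem pf_abelian {r : Wd K Γ → End K V} {𝔤 : Submodule K (End K V)} (hp : Perfect 𝔤)
    (hr : IsAct r) (hfull : ∀ Y ∈ 𝔤, ∃ w, r w = Y) (τ : Representation K Γ M) {Δ : Subgroup Γ}
    (hΔ : Δ.FiniteIndex) (h : ∀ g ∈ Δ, ∀ g' ∈ Δ, τ g * τ g' = τ g' * τ g) :
    Pf 𝔤 r (act τ) := by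
  refine pf_of_br hp hr (isAct_act τ) fun A hA B hB => ?_
  obtain ⟨w, rfl⟩ := hfull A hA
  obtain ⟨w', rfl⟩ := hfull B hB
  refine ⟨.br w w', by rw [hr.br], ?_⟩
  rw [act_br, sub_eq_zero]
  refine comm_act τ hΔ (fun g hg => ?_) w'
  exact (comm_act τ hΔ (fun g' hg' => h g hg g' hg') w).symm

end abelian

section criteria

variable {ρ : Representation K Γ V} {ω : V →ₗ[K] V →ₗ[K] K} {χ : Γ →* K}
  (hω : ∀ g u v, ω (ρ g u) (ρ g v) = χ g * ω u v) (halt : ∀ v, ω v v = 0)
  (hnd : ∀ u, (∀ v, ω u v = 0) → u = 0) {M : Type} [AddCommGroup M] [Module K M]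
  [FiniteDimensional K M]

/-- semisimple operators act on generalized eigenvectors by scalars -/
theorem diag_of_semisimple {f : End K M} (hf : f.IsSemisimple) {β : K} {x : M}
    (hx : x ∈ f.maxGenEigenspace β) : f x = β • x := by
  have h1 : f.maxGenEigenspace β = f.eigenspace β :=
    hf.isFinitelySemisimple.maxGenEigenspace_eq_eigenspace β
  rw [h1, Module.End.mem_eigenspace_iff] at hx
  exact hx

theorem semisimple_of_diag {f : End K M} (h : ∀ β, ∀ x ∈ f.maxGenEigenspace β, f x = β • x) :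
    f.IsSemisimple := by
  have h1 : ⨆ β, f.eigenspace β = ⊤ := by
    rw [eq_top_iff, ← Module.End.iSup_maxGenEigenspace_eq_top f]
    refine iSup_mono fun β x hx => ?_
    rw [Module.End.mem_eigenspace_iff]
    exact h β x hx
  classical
  have h3 := WellFoundedGT.finite_ne_bot_of_iSupIndep (Module.End.independent_maxGenEigenspace f)
  refine Module.End.isSemisimple_of_squarefree_aeval_eq_zero
    (p := ∏ β ∈ h3.toFinset, (Polynomial.X - Polynomial.C β))
    (Polynomial.separable_prod_X_sub_C_iff'.2 fun x _ y _ hxy => hxy).squarefree ?_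
  refine op_ext f fun β x hx => ?_
  rw [LinearMap.zero_apply]
  by_cases hx0 : x = 0
  · rw [hx0, map_zero]
  have hβ : β ∈ h3.toFinset := by
    rw [Set.Finite.mem_toFinset]
    intro hbot
    rw [hbot] at hx
    exact hx0 ((Submodule.mem_bot K).1 hx)
  rw [← Finset.prod_erase_mul _ _ hβ, map_mul, Module.End.mul_apply, map_sub, Polynomial.aeval_X,
    Polynomial.aeval_C, LinearMap.sub_apply, Module.algebraMap_end_apply, h β x hx, sub_self,
    map_zero]

include hω halt hnd in
/-- an element which is semisimple on `M` and not on `V` -/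
theorem pf_of_semisimple (hfull : Full ρ ω χ) (τ : Representation K Γ M) {γ : Γ}
    (h1 : Module.End.IsSemisimple (τ γ)) (h2 : ¬ Module.End.IsSemisimple (ρ γ)) :
    Pf (spL ω) (act ρ) (act τ) := by
  refine pf_of_one hω halt hnd hfull (isAct_act τ) (w := .lo γ) ?_
    (lgu_of_diag (rho_inj τ γ) fun β x hx => diag_of_semisimple h1 hx)
  rw [sp, sc_lo, zero_div, zero_smul, sub_zero, act_lo]
  intro h
  exact h2 (semisimple_of_diag fun β x hx =>
    gen_of_un (rho_inj ρ γ) (un_eq_of_lgu (rho_inj ρ γ) h) hx)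

/-- An additive function which vanishes on a subgroup and not on an element without powers in the
subgroup. -/
theorem exists_add_sub (H : Subgroup Kˣ) (x : Kˣ) (hx : ∀ n : ℕ, 0 < n → x ^ n ∉ H) :
    ∃ θ : Additive Kˣ →+ K, (∀ y ∈ H, θ (Additive.ofMul y) = 0) ∧ θ (Additive.ofMul x) ≠ 0 := by
  have hB : Module.Baer ℤ K := Module.Baer.of_divisible K
  let H' : AddSubgroup (Additive Kˣ) := Subgroup.toAddSubgroup H
  let xb : (Additive Kˣ) ⧸ H' := QuotientAddGroup.mk (Additive.ofMul x)
  let f : ℤ →ₗ[ℤ] (Additive Kˣ) ⧸ H' := LinearMap.toSpanSingleton ℤ _ xb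
  have hf : Function.Injective f := by
    rw [injective_iff_map_eq_zero]
    intro n hn
    have h1 : x ^ n ∈ H := by
      have h2 : f n = QuotientAddGroup.mk (Additive.ofMul (x ^ n)) := by
        rw [ofMul_zpow]
        rfl
      rw [h2, QuotientAddGroup.eq_zero_iff] at hn
      exact hn
    by_contra h0
    have h3 : x ^ n.natAbs ∈ H := by
      rcases Int.natAbs_eq n with h | h
      · rw [h, zpow_natCast] at h1
        exact h1
      · rw [h, zpow_neg, zpow_natCast] at h1
        exact (inv_mem_iff).1 h1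
    exact hx _ (Int.natAbs_pos.2 h0) h3
  obtain ⟨h, hh⟩ := Module.Baer.extension_property hB f hf (LinearMap.toSpanSingleton ℤ K (1 : K))
  refine ⟨h.toAddMonoidHom.comp (QuotientAddGroup.mk' H'), ?_, ?_⟩
  · intro y hy
    have h2 : (QuotientAddGroup.mk' H') (Additive.ofMul y) = 0 :=
      (QuotientAddGroup.eq_zero_iff _).2 hy
    rw [AddMonoidHom.comp_apply, h2, map_zero]
  · have h1 := congrArg (fun F : ℤ →ₗ[ℤ] K => F 1) hh
    have h2 : f 1 = xb := one_smul _ _
    simp only [LinearMap.comp_apply, h2, LinearMap.toSpanSingleton_apply, one_smul] at h1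
    change h xb ≠ 0
    rw [h1]
    exact one_ne_zero

include hω halt hnd in
/-- an eigenvalue on `V` which is independent of the eigenvalues on `M` -/
theorem pf_of_eigenvalue (hfull : Full ρ ω χ) (τ : Representation K Γ M) {γ : Γ} {β : K}
    (h1 : Module.End.HasEigenvalue (ρ γ) β)
    (h2 : ∀ n : ℕ, 0 < n → ∀ u ∈ Subgroup.closure {u : Kˣ | Module.End.HasEigenvalue (τ γ) (u : K)},
      β ^ (2 * n) ≠ u * χ γ ^ n) :
    Pf (spL ω) (act ρ) (act τ) := by
  obtain ⟨x, hx⟩ := h1.exists_hasEigenvector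
  have hx1 : ρ γ x = β • x := hx.apply_eq_smul
  have hx0 : x ≠ 0 := hx.2
  have hxg : x ∈ Module.End.maxGenEigenspace (ρ γ) β := by
    refine mem_gen.2 ⟨1, ?_⟩
    rw [pow_one, LinearMap.sub_apply, Module.algebraMap_end_apply, hx1, sub_self]
  have hβ0 := gen_ne_zero (rho_inj ρ γ) hxg hx0
  have hχ := chi_ne χ γ
  obtain ⟨θ, hθ1, hθ2⟩ := exists_add_sub
    (Subgroup.closure {u : Kˣ | Module.End.HasEigenvalue (τ γ) (u : K)})
    ((Units.mk0 β hβ0) ^ 2 * (Units.mk0 (χ γ) hχ)⁻¹) (by
      intro n hn h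
      refine h2 n hn _ h ?_
      push_cast
      rw [Units.val_mk0, Units.val_mk0, mul_pow, mul_assoc, ← mul_pow, inv_mul_cancel₀ hχ, one_pow,
        mul_one, pow_mul])
  refine pf_of_one hω halt hnd hfull (isAct_act τ) (w := .fr θ γ) ?_ ?_
  · intro h
    have h3 := LinearMap.congr_fun h x
    rw [sp, sc_fr, act_fr, LinearMap.sub_apply, op_spec _ _ hxg, LinearMap.smul_apply,
      Module.End.one_apply, LinearMap.zero_apply, ← sub_smul] at h3
    have h4 := (smul_eq_zero.1 h3).resolve_right hx0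
    apply hθ2
    rw [ofMul_mul, ofMul_pow, ofMul_inv, map_add, map_nsmul, map_neg]
    rw [ext0_ne θ hβ0, ext0_ne θ hχ] at h4
    rw [nsmul_eq_mul]
    push_cast
    linear_combination 2 * h4
  · rw [act_fr]
    refine op_ext (τ γ) fun β' y hy => ?_
    rw [op_spec _ _ hy, LinearMap.zero_apply]
    by_cases hy0 : y = 0
    · rw [hy0, smul_zero]
    have hβ' := gen_ne_zero (rho_inj τ γ) hy hy0
    have hev : Module.End.HasEigenvalue (τ γ) β' := by
      have hM : Nontrivial M := ⟨y, 0, hy0⟩
      rw [Module.End.maxGenEigenspace_eq_genEigenspace_finrank] at hy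
      refine (Module.End.hasGenEigenvalue_iff_hasEigenvalue (finrank_pos (R := K) (M := M))).1 ?_
      intro hbot
      rw [hbot] at hy
      exact hy0 ((Submodule.mem_bot K).1 hy)
    have h5 := hθ1 (Units.mk0 β' hβ') (Subgroup.subset_closure hev)
    rw [ext0_ne θ hβ', h5, zero_smul]

end criteria

end Pool.Agent.T6.H17.LW
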