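import Mathlib

/-!
# Symplectic representations with big monodromy, and representations unrelated to them

`Γ` is a group, in the applications the absolute Galois group of a finitely generated field, and `K`
is an algebraically closed field of characteristic zero, in the applications an algebraic closure of
the field of `ℓ`-adic numbers. All representations are finite dimensional over `K`.
-/

namespace Pool.Agent.T6.H17.LW

open Module

variable {K : Type} [Field K] {Γ : Type} [Group Γ] {V : Type} [AddCommGroup V] [Module K V]

/-- The bilinear form `ω` is alternating and nondegenerate, and the group acts by similitudes with the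
multiplier `χ`. For instance the first cohomology of an abelian variety with the form of a
polarization; here `χ` is the inverse of the cyclotomic character. -/
structure IsSymplectic (ρ : Representation K Γ V) (ω : V →ₗ[K] V →ₗ[K] K) (χ : Γ →* K) : Prop where
  alt : ∀ v, ω v v = 0
  nondegenerate : ∀ u, (∀ v, ω u v = 0) → u = 0
  multiplier : ∀ g u v, ω (ρ g u) (ρ g v) = χ g * ω u v

/-- The operator `Y` belongs to the Lie algebra of the symplectic group of the form `ω`. -/
def IsSkew (ω : V →ₗ[K] V →ₗ[K] K) (Y : End K V) : Prop := ∀ x y, ω (Y x) y + ω x (Y y) = 0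

/-- **Big monodromy.** The Lie algebra of the symplectic group (the symmetric square of `V`) is an
irreducible representation of `Γ`, and `Γ` contains an element no power of which acts by a scalar. If
`Γ` is a compact group which acts continuously on an `ℓ`-adic vector space, this means that the Zariski
closure of the image of `Γ` contains the symplectic group. -/
structure BigMonodromy (ρ : Representation K Γ V) (ω : V →ₗ[K] V →ₗ[K] K) : Prop where
  irreducible : ∀ L : Submodule K (End K V), (∀ Y ∈ L, IsSkew ω Y) →
    (∀ g, ∀ Y ∈ L, ρ g * Y * ρ g⁻¹ ∈ L) → L = ⊥ ∨ ∀ Y, IsSkew ω Y → Y ∈ L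
  infinite : ∃ γ, ∀ n : ℕ, 0 < n → ∀ c : K, ρ γ ^ n ≠ c • 1

/-- The representations **unrelated** to the symplectic representation `ρ` on `V` with the multiplier
`χ`. They are built, by tensor products, duals and exact sequences (in particular subrepresentations,
quotients and extensions; the maps need only be equivariant under a subgroup of finite index), from
representations `τ` of the following kinds:

* `small`: the dimension of `τ` is less than the dimension of `V`;
* `abelian`: some subgroup of finite index acts by commuting operators (for instance varieties of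
  CM type, and all Tate twists);
* `semisimple`: some element of `Γ` acts semisimply in `τ` but not on `V` (for instance an element of
  an inertia group at a place where the variety in question has potentially good reduction but the
  abelian variety does not);
* `eigenvalue`: some element `γ` of `Γ` (for instance a Frobenius element) has an eigenvalue `β` on `V`
  such that no power of `β ^ 2 / χ γ` is a product of integral powers of the eigenvalues of `γ` in `τ`;
* `symplectic`: `τ` is itself symplectic with big monodromy and it is not a twist of `ρ` by a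
  character. -/
inductive Unrelated (ρ : Representation K Γ V) (χ : Γ →* K) :
    ∀ {M : Type} [AddCommGroup M] [Module K M] [FiniteDimensional K M],
      Representation K Γ M → Prop
  | small {M : Type} [AddCommGroup M] [Module K M] [FiniteDimensional K M]
      (τ : Representation K Γ M) (h : finrank K M < finrank K V) : Unrelated ρ χ τ
  | abelian {M : Type} [AddCommGroup M] [Module K M] [FiniteDimensional K M]
      (τ : Representation K Γ M) (Δ : Subgroup Γ) (hΔ : Δ.FiniteIndex)
      (h : ∀ g ∈ Δ, ∀ g' ∈ Δ, τ g * τ g' = τ g' * τ g) : Unrelated ρ χ τ
  | semisimple {M : Type} [AddCommGroup M] [Module K M] [FiniteDimensional K M]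
      (τ : Representation K Γ M) (γ : Γ) (h : End.IsSemisimple (τ γ))
      (h' : ¬ End.IsSemisimple (ρ γ)) : Unrelated ρ χ τ
  | eigenvalue {M : Type} [AddCommGroup M] [Module K M] [FiniteDimensional K M]
      (τ : Representation K Γ M) (γ : Γ) (β : K) (h : End.HasEigenvalue (ρ γ) β)
      (h' : ∀ n : ℕ, 0 < n →
        ∀ u ∈ Subgroup.closure {u : Kˣ | End.HasEigenvalue (τ γ) (u : K)},
          β ^ (2 * n) ≠ u * χ γ ^ n) : Unrelated ρ χ τ
  | symplectic {M : Type} [AddCommGroup M] [Module K M] [FiniteDimensional K M]
      (τ : Representation K Γ M) (ω' : M →ₗ[K] M →ₗ[K] K) (χ' : Γ →* K)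
      (h : IsSymplectic τ ω' χ') (hb : BigMonodromy τ ω')
      (h' : ∀ (c : Γ → K) (T : V →ₗ[K] M), (∀ g v, T (ρ g v) = c g • τ g (T v)) → T = 0) :
      Unrelated ρ χ τ
  | exact {N M Q : Type} [AddCommGroup N] [Module K N] [FiniteDimensional K N]
      [AddCommGroup M] [Module K M] [FiniteDimensional K M]
      [AddCommGroup Q] [Module K Q] [FiniteDimensional K Q]
      (σ : Representation K Γ N) (τ : Representation K Γ M) (π : Representation K Γ Q)
      (f : N →ₗ[K] M) (g : M →ₗ[K] Q) (Δ : Subgroup Γ) (hΔ : Δ.FiniteIndex)
      (hf : ∀ s ∈ Δ, ∀ x, f (σ s x) = τ s (f x)) (hg : ∀ s ∈ Δ, ∀ x, g (τ s x) = π s (g x))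
      (hfg : Function.Exact f g) (h : Unrelated ρ χ σ) (h' : Unrelated ρ χ π) : Unrelated ρ χ τ
  | tensor {M N : Type} [AddCommGroup M] [Module K M] [FiniteDimensional K M]
      [AddCommGroup N] [Module K N] [FiniteDimensional K N]
      (σ : Representation K Γ M) (τ : Representation K Γ N) (h : Unrelated ρ χ σ)
      (h' : Unrelated ρ χ τ) : Unrelated ρ χ (σ.tprod τ)
  | dual {M : Type} [AddCommGroup M] [Module K M] [FiniteDimensional K M]
      (τ : Representation K Γ M) (h : Unrelated ρ χ τ) : Unrelated ρ χ τ.dual

/-- The pairing of a vector of `V i` and a vector of `V j`: the form `ω i` if `i = j`, and zero if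
`i ≠ j`. -/
def pairing {I : Type} [DecidableEq I] {V : I → Type} [∀ i, AddCommGroup (V i)]
    [∀ i, Module K (V i)] (ω : ∀ i, V i →ₗ[K] V i →ₗ[K] K) (i j : I) : V i →ₗ[K] V j →ₗ[K] K :=
  if h : i = j then h ▸ ω i else 0

end Pool.Agent.T6.H17.LW
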