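import Mathlib
import Pool.Agent.T6.H17.LW.Defs
import Pool.Agent.T6.H17.LW.Unrel

/-!
# Unrelated representations are independent
-/

set_option autoImplicit false
set_option linter.unusedSectionVars false

namespace Pool.Agent.T6.H17.LW

open Module Finset Function TensorProduct

variable {K : Type} [Field K] [CharZero K] [IsAlgClosed K] {Γ : Type} [Group Γ]
  {V : Type} [AddCommGroup V] [Module K V] [FiniteDimensional K V]
  {ρ : Representation K Γ V} {ω : V →ₗ[K] V →ₗ[K] K} {χ : Γ →* K}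

theorem BigMonodromy.big (h : BigMonodromy ρ ω) : Big ρ ω where
  irr := by
    intro L hL hc
    rcases h.irreducible L (fun Y hY => hL hY) hc with h1 | h1
    · exact Or.inl h1
    · exact Or.inr (le_antisymm hL fun Y hY => h1 Y hY)
  inf := h.infinite

theorem BigMonodromy.nontrivial (h : BigMonodromy ρ ω) : Nontrivial V := by
  by_contra hV
  rw [not_nontrivial_iff_subsingleton] at hV
  obtain ⟨γ, hγ⟩ := h.infinite
  exact hγ 1 one_pos 0 (LinearMap.ext fun x => Subsingleton.elim _ _)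

theorem full_of (hω : IsSymplectic ρ ω χ) (hb : BigMonodromy ρ ω) : Full ρ ω χ :=
  full_of_big hω.multiplier hω.alt hb.big

/-- two symplectic representations -/
theorem pf_symplectic (hω : IsSymplectic ρ ω χ) (hb : BigMonodromy ρ ω) {M : Type} [AddCommGroup M]
    [Module K M] [FiniteDimensional K M] {τ : Representation K Γ M} {ω' : M →ₗ[K] M →ₗ[K] K}
    {χ' : Γ →* K} (hω' : IsSymplectic τ ω' χ') (hb' : BigMonodromy τ ω')
    (h' : ∀ (c : Γ → K) (T : V →ₗ[K] M), (∀ g v, T (ρ g v) = c g • τ g (T v)) → T = 0) :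
    Pf (spL ω) (act ρ) (act τ) := by
  have hV := hb.nontrivial
  rcases pair_step hω.multiplier hω.alt hω.nondegenerate hω'.multiplier hω'.alt hω'.nondegenerate
    (full_of hω hb) (full_of hω' hb') with h1 | ⟨c, T, -, hT, hc⟩
  · exact h1
  · exfalso
    have h0 := h' c T hc
    obtain ⟨u, hu⟩ := exists_ne (0 : V)
    refine hu (hω.nondegenerate u fun v => ?_)
    rw [← hT, h0, LinearMap.zero_apply, map_zero, LinearMap.zero_apply]

/-- **Unrelated representations are independent.** -/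
theorem pf_of_unrelated (hω : IsSymplectic ρ ω χ) (hb : BigMonodromy ρ ω) {M : Type}
    [AddCommGroup M] [Module K M] [FiniteDimensional K M] {τ : Representation K Γ M}
    (h : Unrelated ρ χ τ) : Pf (spL ω) (act ρ) (act τ) := by
  have hfull := full_of hω hb
  have hfa := full_act hω.alt hω.nondegenerate hfull
  have hp := spL_perfect hω.alt hω.nondegenerate
  induction h with
  | small τ h =>
    exact pf_of_small hω.multiplier hω.alt hω.nondegenerate hfull (isAct_act τ) h
  | abelian τ Δ hΔ h => exact pf_abelian hp (isAct_act ρ) hfa τ hΔ h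
  | semisimple τ γ h h' =>
    exact pf_of_semisimple hω.multiplier hω.alt hω.nondegenerate hfull τ h h'
  | eigenvalue τ γ β h h' =>
    exact pf_of_eigenvalue hω.multiplier hω.alt hω.nondegenerate hfull τ h h'
  | symplectic τ ω' χ' h hb' h' => exact pf_symplectic hω hb h hb' h'
  | exact σ τ π f g Δ hΔ hf hg hfg _ _ ih ih' =>
    exact pf_exact hp (isAct_act ρ) σ τ π f g ⟨Δ, hΔ, hf⟩ ⟨Δ, hΔ, hg⟩
      (fun x hx => (hfg x).1 hx) ih ih'
  | tensor σ τ _ _ ih ih' => exact pf_tensor hp (isAct_act ρ) σ τ ih ih'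
  | dual τ _ ih => exact pf_dual τ ih

/-- Several representations at the same time. -/
theorem pf_joint {𝔤 : Submodule K (End K V)} {r : Wd K Γ → End K V} (hp : Perfect 𝔤)
    (hr : IsAct r) (h𝔤 : ∀ Y ∈ 𝔤, ∃ w, r w = Y) {J : Type} [Fintype J] {N : J → Type}
    [∀ j, AddCommGroup (N j)] [∀ j, Module K (N j)] {b : ∀ j, Wd K Γ → End K (N j)}
    (hb : ∀ j, IsAct (b j)) (P : J → Prop) (h : ∀ j, P j → Pf 𝔤 r (b j)) {M : Type}
    [AddCommGroup M] [Module K M] {a : Wd K Γ → End K M} (ha : IsAct a) (h' : Pf 𝔤 r a) :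
    ∀ Y ∈ 𝔤, ∃ w, r w = Y ∧ (∀ j, P j → b j w = 0) ∧ a w = 0 := by
  classical
  have h1 := pf_finset hp hr hb h𝔤 (Finset.univ.filter P) fun j hj => h j (Finset.mem_filter.1 hj).2
  let U : Submodule K (End K V) :=
    { carrier := {Y | ∃ w, r w = Y ∧ (∀ j, P j → b j w = 0) ∧ a w = 0}
      zero_mem' := ⟨.smul 0 (.lo 1), by rw [hr.smul, zero_smul],
        fun j _ => by rw [(hb j).smul, zero_smul], by rw [ha.smul, zero_smul]⟩
      add_mem' := by
        rintro X Y ⟨w, h1, h2, h3⟩ ⟨w', h1', h2', h3'⟩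
        exact ⟨.add w w', by rw [hr.add, h1, h1'],
          fun j hj => by rw [(hb j).add, h2 j hj, h2' j hj, add_zero],
          by rw [ha.add, h3, h3', add_zero]⟩
      smul_mem' := by
        rintro c X ⟨w, h1, h2, h3⟩
        exact ⟨.smul c w, by rw [hr.smul, h1],
          fun j hj => by rw [(hb j).smul, h2 j hj, smul_zero], by rw [ha.smul, h3, smul_zero]⟩ }
  have hU : Submodule.span K {Z : End K V | ∃ A ∈ 𝔤, ∃ B ∈ 𝔤, Z = A * B - B * A} ≤ U := by
    rw [Submodule.span_le]
    rintro _ ⟨A, hA, B, hB, rfl⟩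
    obtain ⟨w, h2, h3⟩ := h1 A hA
    obtain ⟨w', h2', h3'⟩ := h' B hB
    refine ⟨.br w w', by rw [hr.br, h2, h2'], fun j hj => ?_, ?_⟩
    · rw [(hb j).br, h3 j (Finset.mem_filter.2 ⟨Finset.mem_univ j, hj⟩), zero_mul, mul_zero,
        sub_zero]
    · rw [ha.br, h3', zero_mul, mul_zero, sub_zero]
  intro Y hY
  exact hU (hp Y hY)

end Pool.Agent.T6.H17.LW
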